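import Pool.Agent.Q68.GL.KLGb
import Pool.Agent.Q269.GL.StL

/-!
# Project GL (helper269), job KLG (helper68): the moments for a matrix without symmetry
-/

set_option autoImplicit false
set_option linter.all false

open scoped Classical
open Finset

namespace Pool.Agent.Q68.GL.KLG

open Pool.Agent.Q269.GR (F2 cf ts HU HG)
open Pool.Agent.Q269.GJ
open Pool.Agent.Q241.GJ
open Pool.Agent.Q241.GJ.LAG (lapL Er NN sum_eq Eab Eab_Sy lap_Eab fin_inst)
open Pool.Agent.Q269.GL (NS)

section apply

variable {F : Type} [Field F] [Algebra F2 F] [Fintype F] {n H : ℕ}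

/-- the laplacian on several copies -/
noncomputable def lapH (H : ℕ) {x : Fin n → Fin n → F2} (hx : Sy x) :
    (Fin H → W0 n F) →ₗ[F] (Fin H → W0 n F) :=
  LinearMap.pi fun c => (lapL hx).comp (LinearMap.proj c)

theorem lapH_apply {x : Fin n → Fin n → F2} (hx : Sy x) (v : Fin H → W0 n F) (c : Fin H) :
    lapH H hx v c = lapL hx (v c) := rfl

/-- stable under all the laplacians -/
def Stb (L : Submodule F (Fin H → W0 n F)) : Prop :=
  ∀ y : Fin n → Fin n → F2, ∀ hy : Sy y, ∀ v ∈ L, lapH H hy v ∈ L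

/-- the vectors with the coordinates in a subspace -/
noncomputable def WL (n : ℕ) {F : Type} [Field F] {H : ℕ} (L' : Submodule F (Fin H → F)) :
    Submodule F (Fin H → W0 n F) where
  carrier := {w | ∀ a : Fin n, (fun c => (w c).1 a) ∈ L'}
  zero_mem' := fun a => L'.zero_mem
  add_mem' := fun {w w'} h h' a => L'.add_mem (h a) (h' a)
  smul_mem' := fun t w h a => L'.smul_mem t (h a)

theorem mem_WL (L' : Submodule F (Fin H → F)) (w : Fin H → W0 n F) :
    w ∈ WL n L' ↔ ∀ a : Fin n, (fun c => (w c).1 a) ∈ L' := Iff.rfl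

theorem Stb_WL (L' : Submodule F (Fin H → F)) : Stb (WL n L') := by
  intro y hy w hw a
  have h1 : (fun c => ((lapH H hy w) c).1 a) =
      ∑ b, (cf (y a b) : F) • ((fun c => (w c).1 a) + fun c => (w c).1 b) := by
    funext c
    rw [Finset.sum_apply]
    rfl
  rw [h1]
  exact L'.sum_mem fun b _ => L'.smul_mem _ (L'.add_mem (hw a) (hw b))

/-- multiples of `e_a + e_b` -/
noncomputable def em (H : ℕ) (F : Type) [Field F] [Algebra F2 F] {n : ℕ} (a b : Fin n) :
    (Fin H → F) →ₗ[F] (Fin H → W0 n F) :=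
  LinearMap.pi fun c => (LinearMap.proj c : (Fin H → F) →ₗ[F] F).smulRight (eab a b)

theorem em_apply (a b : Fin n) (v : Fin H → F) (c : Fin H) : em H F a b v c = v c • eab a b := rfl

theorem em_coord (a b : Fin n) (v : Fin H → F) (l : Fin n) :
    (fun c => (em H F a b v c).1 l) =
      ((Pi.single a (1 : F) : Fin n → F) l + (Pi.single b (1 : F) : Fin n → F) l) • v := by
  funext c
  show v c * ((Pi.single a (1 : F) : Fin n → F) l + (Pi.single b (1 : F) : Fin n → F) l) = _
  rw [Pi.smul_apply, smul_eq_mul, mul_comm]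

theorem em_self (a : Fin n) (v : Fin H → F) : em H F a a v = 0 := by
  funext c
  rw [em_apply]
  have : eab (F := F) a a = 0 := by
    refine Subtype.ext ?_
    show (Pi.single a (1 : F) + Pi.single a (1 : F) : Fin n → F) = 0
    funext l
    exact two_zero _
  rw [this, smul_zero]
  rfl

theorem em_comm (a b : Fin n) (v : Fin H → F) : em H F a b v = em H F b a v := by
  funext c
  rw [em_apply, em_apply]
  have : eab (F := F) a b = eab b a := by
    refine Subtype.ext ?_
    show (Pi.single a (1 : F) + Pi.single b (1 : F) : Fin n → F) =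
      Pi.single b (1 : F) + Pi.single a (1 : F)
    rw [add_comm]
  rw [this]

theorem WL_inj (hn : 2 ≤ n) {L' L'' : Submodule F (Fin H → F)} (h : WL n L' = WL n L'') : L' = L'' := by
  have key : ∀ (T : Submodule F (Fin H → F)) (v : Fin H → F),
      em H F (⟨0, by omega⟩ : Fin n) ⟨1, by omega⟩ v ∈ WL n T ↔ v ∈ T := by
    intro T v
    rw [mem_WL]
    constructor
    · intro h1
      have h2 := h1 ⟨0, by omega⟩
      rw [em_coord, Pi.single_eq_same, Pi.single_eq_of_ne (by
        intro h3
        have := congrArg Fin.val h3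
        simp at this), add_zero, one_smul] at h2
      exact h2
    · intro h1 a
      rw [em_coord]
      exact T.smul_mem _ h1
  ext v
  rw [← key L' v, ← key L'' v, h]

theorem Stb_one {L : Submodule F (Fin H → W0 n F)} (hL : Stb L) {w : Fin H → W0 n F} (hw : w ∈ L)
    {a b : Fin n} (hab : a ≠ b) : em H F a b ((fun c => (w c).1 a) + fun c => (w c).1 b) ∈ L := by
  have h1 := hL (Eab a b) (Eab_Sy a b) w hw
  have h2 : lapH H (Eab_Sy a b) w = em H F a b ((fun c => (w c).1 a) + fun c => (w c).1 b) := by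
    funext c
    refine Subtype.ext ?_
    exact lap_Eab hab (w c).1
  rwa [h2] at h1

theorem Stb_two {L : Submodule F (Fin H → W0 n F)} (hL : Stb L) {v : Fin H → F} {a b : Fin n} (hab : a ≠ b)
    (h : em H F a b v ∈ L) (c : Fin n) : em H F b c v ∈ L := by
  by_cases hc1 : b = c
  · rw [← hc1, em_self]
    exact L.zero_mem
  · by_cases hc2 : c = a
    · rw [hc2, em_comm]
      exact h
    · have h1 := Stb_one hL h hc1
      rw [em_coord, em_coord, Pi.single_eq_of_ne (Ne.symm hab), Pi.single_eq_same,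
        Pi.single_eq_of_ne hc2, Pi.single_eq_of_ne (Ne.symm hc1)] at h1
      simpa using h1

theorem Stb_three {L : Submodule F (Fin H → W0 n F)} (hL : Stb L) {v : Fin H → F} {a b : Fin n} (hab : a ≠ b)
    (h : em H F a b v ∈ L) (c d : Fin n) : em H F c d v ∈ L := by
  by_cases hbc : b = c
  · rw [← hbc]
    exact Stb_two hL hab h d
  · exact Stb_two hL hbc (Stb_two hL hab h c) d

theorem Stb_eq (hn : Odd n) (hn2 : 2 ≤ n) {L : Submodule F (Fin H → W0 n F)} (hL : Stb L) :
    WL n (L.comap (em H F (⟨0, by omega⟩ : Fin n) ⟨1, by omega⟩)) = L := by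
  obtain ⟨a0, ha0⟩ : ∃ a0 : Fin n, a0 = ⟨0, by omega⟩ := ⟨_, rfl⟩
  obtain ⟨b0, hb0⟩ : ∃ b0 : Fin n, b0 = ⟨1, by omega⟩ := ⟨_, rfl⟩
  rw [← ha0, ← hb0]
  have hne : a0 ≠ b0 := by
    rw [ha0, hb0]
    intro h3
    have := congrArg Fin.val h3
    simp at this
  apply le_antisymm
  · intro w hw
    rw [mem_WL] at hw
    have h3 : w = ∑ l, em H F a0 l (fun c => (w c).1 l) := by
      funext c
      refine Subtype.ext ?_
      rw [Finset.sum_apply, Submodule.coe_sum]
      funext k
      rw [Finset.sum_apply]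
      show (w c).1 k = ∑ l, (w c).1 l *
        ((Pi.single a0 (1 : F) : Fin n → F) k + (Pi.single l (1 : F) : Fin n → F) k)
      simp only [mul_add, sum_add_distrib]
      rw [← sum_mul, W0_sum (w c), zero_mul, zero_add, sum_eq_single k]
      · rw [Pi.single_eq_same, mul_one]
      · intro d _ hd
        rw [Pi.single_eq_of_ne (Ne.symm hd), mul_zero]
      · intro h
        exact absurd (mem_univ _) h
    rw [h3]
    refine L.sum_mem fun l _ => ?_
    exact Stb_three hL hne (Submodule.mem_comap.1 (hw l)) a0 l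
  · intro w hw
    rw [mem_WL]
    intro a
    rw [Submodule.mem_comap]
    have h1 : (fun c => (w c).1 a) = ∑ b, ((fun c => (w c).1 a) + fun c => (w c).1 b) := by
      funext c
      rw [Finset.sum_apply]
      show (w c).1 a = ∑ b, ((w c).1 a + (w c).1 b)
      rw [sum_add_distrib, W0_sum (w c), add_zero, sum_const, card_univ, Fintype.card_fin]
      have h3 : ∀ x : F, n • x = x := by
        intro x
        obtain ⟨k, hk⟩ := hn
        rw [hk, nsmul_eq_mul]
        push_cast
        have : (2 * (k : F) + 1) * x = (k * x + k * x) + x := by ring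
        rw [this, two_zero, zero_add]
      exact (h3 _).symm
    rw [h1, map_sum]
    refine L.sum_mem fun b _ => ?_
    by_cases hab : a = b
    · have h2 : ((fun c => (w c).1 a) + fun c => (w c).1 b : Fin H → F) = 0 := by
        rw [← hab]
        funext c
        exact two_zero _
      rw [h2, map_zero]
      exact L.zero_mem
    · exact Stb_three hL hab (Stb_one hL hw hab) a0 b0

/-- the number of the stable subspaces -/
theorem card_Stb (hn : Odd n) (hn2 : 2 ≤ n) :
    Nat.card {L : Submodule F (Fin H → W0 n F) // Stb L} = ∑ t ∈ range (H + 1), NS F H t := by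
  have h1 : Nat.card {L : Submodule F (Fin H → W0 n F) // Stb L} = Nat.card (Submodule F (Fin H → F)) := by
    symm
    refine Nat.card_eq_of_bijective (fun L' => ⟨WL n L', Stb_WL L'⟩) ⟨?_, ?_⟩
    · intro L' L'' h
      exact WL_inj hn2 (congrArg Subtype.val h)
    · rintro ⟨L, hL⟩
      exact ⟨_, Subtype.ext (Stb_eq hn hn2 hL)⟩
  haveI : Fintype (Submodule F (Fin H → F)) := Fintype.ofFinite _
  rw [h1, Nat.card_eq_fintype_card, ← card_univ,
    card_eq_sum_card_fiberwise (f := fun T : Submodule F (Fin H → F) => Module.finrank F T)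
      (t := range (H + 1))]
  · refine sum_congr rfl fun t _ => ?_
    unfold NS
    rw [Nat.card_eq_fintype_card, Fintype.card_subtype]
  · intro T _
    rw [mem_coe, mem_range]
    have h2 := Submodule.finrank_le T
    have h3 : Module.finrank F (Fin H → F) = H := by simp
    beta_reduce
    omega

theorem finrank_EH (hn : 1 ≤ n) : Module.finrank F (Fin H → W0 n F) = (n - 1) * H := by
  rw [Module.finrank_pi_fintype]
  rw [Finset.sum_congr rfl fun c _ => finrank_W0 (F := F) hn, Finset.sum_const, Finset.card_univ, Fintype.card_fin,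
    smul_eq_mul, mul_comm]

end apply

theorem t_KLG : Pool.Agent.Q269.GL.S_KLG := by
  intro F _ _ _ n H hn hn3 ε hε
  have hn1 : 1 ≤ n := by omega
  have hn2 : 2 ≤ n := by omega
  obtain ⟨m, hm⟩ : ∃ m, m = (n - 1) * H := ⟨_, rfl⟩
  obtain ⟨K, hK⟩ := pow_unbounded_of_one_lt ((2 * m + 1) / ε) (by norm_num : (1 : ℝ) < 2)
  refine ⟨2 * (K + 2 + 2 * m * m + m), ?_⟩
  intro J _ S B dd x hx inj1 inj2 hG
  obtain ⟨D, hD⟩ : ∃ D : J → (Fin H → W0 n F) →ₗ[F] (Fin H → W0 n F), ∀ i v, D i v = dd i • v + lapH H (hx i) v :=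
    ⟨fun i => dd i • LinearMap.id + lapH H (hx i), fun i v => rfl⟩
  have hmem : ∀ (s : J → J → F) (w : J → (Fin H → W0 n F)),
      (∀ i, Er D (HG S B s) w i = 0) ↔ ∀ c, (fun j => w j c) ∈ Kn (HG S B s) dd x := by
    intro s w
    have h1 : ∀ i c, (Er D (HG S B s) w i c).1 = eqn (HG S B s) dd x (fun j => w j c) i := by
      intro i c
      unfold Er eqn
      rw [hD, Pi.add_apply, Finset.sum_apply, Pi.add_apply, Submodule.coe_add, Submodule.coe_sum,
        Submodule.coe_add, add_assoc]
      rfl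
    constructor
    · intro h c
      rw [mem_Kn]
      intro i
      rw [← h1, h i]
      rfl
    · intro h i
      funext c
      refine Subtype.ext ?_
      rw [h1, mem_Kn.1 (h c) i]
      rfl
  have hcard : ∀ s : J → J → F, (Nat.card (Kn (HG S B s) dd x) : ℝ) ^ H =
      (Nat.card {w : J → (Fin H → W0 n F) // ∀ i, Er D (HG S B s) w i = 0} : ℝ) := by
    intro s
    have h1 : Nat.card {w : J → (Fin H → W0 n F) // ∀ i, Er D (HG S B s) w i = 0} =
        Nat.card (Fin H → Kn (HG S B s) dd x) := by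
      refine Nat.card_congr ⟨fun w c => ⟨fun j => w.1 j c, (hmem s w.1).1 w.2 c⟩,
        fun u => ⟨fun j c => (u c).1 j, (hmem s _).2 fun c => (u c).2⟩, fun w => rfl, fun u => rfl⟩
    rw [h1, Nat.card_fun, Nat.card_fin]
    push_cast
    rfl
  simp only [hcard]
  rw [sum_eq D S B]
  obtain ⟨R, hR⟩ : ∃ R, R = 4 * n * H * S.card + 2 * (K + 2 + 2 * m * m + m) := ⟨_, rfl⟩
  rw [← hR] at hG
  have hms : m * S.card ≤ n * H * S.card := by
    rw [hm]
    exact Nat.mul_le_mul_right _ (Nat.mul_le_mul_right _ (by omega))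
  have hR2 : R = 4 * (n * H * S.card) + 2 * (K + 2 + 2 * (m * m) + m) := by
    rw [hR]
    ring
  have hlR : R ≤ (Sᶜ : Finset J).card := by
    have := hG (fun _ _ => 1) ⟨⟨0, by omega⟩, ⟨1, by omega⟩, by
      rw [Fin.lt_def]
      norm_num, by decide⟩
    exact this.trans (card_filter_le _ _)
  have hmm : 2 * m * m = 2 * (m * m) := by ring
  have hl : K + 2 + (Sᶜ : Finset J).card / 4 + (2 * m * m + m + m * S.card) ≤ (Sᶜ : Finset J).card := by
    rw [hmm]
    omega
  have hR3 : K + m * m + m * S.card + 1 ≤ R := by omega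
  have hfin : Finite {L : Submodule F (Fin H → W0 n F) | Stb L} := inferInstance
  obtain ⟨LL, hLL⟩ : ∃ LL : Finset (Submodule F (Fin H → W0 n F)), ∀ L, L ∈ LL ↔ Stb L :=
    ⟨(Set.toFinite {L : Submodule F (Fin H → W0 n F) | Stb L}).toFinset, fun L => by
      rw [Set.Finite.mem_toFinset]
      rfl⟩
  have hLLc : LL.card = ∑ t ∈ range (H + 1), NS F H t := by
    rw [← card_Stb hn hn2]
    rw [← Nat.card_eq_finsetCard]
    exact Nat.card_congr (Equiv.subtypeEquivRight hLL)
  have hmain := Pool.Agent.Q68.GL.KLG.abs_two (m := m) (K := K) Fintype.one_lt_card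
    (by rw [finrank_EH hn1, hm]) D S B inj1 inj2 hl hR3 Stb (by
      intro L hL i v hv
      rw [hD]
      exact L.add_mem (L.smul_mem _ hv) (hL _ (hx i) v hv)) (by
    intro L hLs
    obtain ⟨sb, hsb⟩ : ∃ sb : (Fin H → W0 n F) →ₗ[F] (Fin H → Fin n → F), ∀ v c, sb v c = (v c).1 :=
      ⟨LinearMap.pi fun c => (W0 n F).subtype.comp (LinearMap.proj c), fun v c => rfl⟩
    obtain ⟨L1, hL1'⟩ : ∃ L1 : Submodule F (Fin H → Fin n → F), L1 = L.map sb := ⟨_, rfl⟩
    have hLm : ∀ v : Fin H → W0 n F, (fun c => (v c).1) ∈ L1 ↔ v ∈ L := by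
      intro v
      rw [hL1']
      constructor
      · rintro ⟨u, hu, hu'⟩
        have : u = v := by
          funext c
          refine Subtype.ext ?_
          rw [← hsb, hu']
        rwa [← this]
      · intro h
        exact ⟨v, h, funext fun c => hsb v c⟩
    have c1 : ∀ y y' : Fin n → Fin n → F2, (∀ v ∈ L, (fun c => lap y (v c).1) ∈ L1) →
        (∀ v ∈ L, (fun c => lap y' (v c).1) ∈ L1) → ∀ v ∈ L, (fun c => lap (y + y') (v c).1) ∈ L1 := by
      intro y y' h h' v hv
      have e1 : (fun c => lap (y + y') (v c).1) = (fun c => lap y (v c).1) + fun c => lap y' (v c).1 := by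
        funext c
        exact lap_add_w _ _ _
      rw [e1]
      exact L1.add_mem (h v hv) (h' v hv)
    have c2 : ∀ y y' : Fin n → Fin n → F2, (∀ l l', l ≠ l' → y l l' = y' l l') →
        (∀ v ∈ L, (fun c => lap y (v c).1) ∈ L1) → ∀ v ∈ L, (fun c => lap y' (v c).1) ∈ L1 := by
      intro y y' h h' v hv
      have e1 : (fun c => lap y' (v c).1) = fun c => lap y (v c).1 := by
        funext c
        exact (lap_congr h (v c).1).symm
      rw [e1]
      exact h' v hv
    have c3 : ∃ y : Fin n → Fin n → F2, Sy y ∧ ¬ ∀ v ∈ L, (fun c => lap y (v c).1) ∈ L1 := by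
      by_contra hcon
      push Not at hcon
      refine hLs fun y hy v hv => ?_
      rw [← hLm]
      exact hcon y hy v hv
    have c0 : ∀ v ∈ L, (fun c => lap (0 : Fin n → Fin n → F2) (v c).1) ∈ L1 := by
      intro v _
      have e1 : (fun c => lap (0 : Fin n → Fin n → F2) (v c).1) = 0 := by
        funext c
        exact lap_zero_w _
      rw [e1]
      exact L1.zero_mem
    obtain ⟨G, hG1, hG2, hG3⟩ := gen_abs hx hG (fun y => ∀ v ∈ L, (fun c => lap y (v c).1) ∈ L1) c0 c1 c2 c3
    refine hG2.trans (card_le_card fun i hi => ?_)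
    rw [mem_filter]
    refine ⟨hG1 hi, fun h => hG3 i hi fun v hv => ?_⟩
    have h1 := h v hv
    rw [hD] at h1
    have h2 := (Submodule.add_mem_iff_right L (L.smul_mem (dd i) hv)).1 h1
    rw [← hLm] at h2
    exact h2) LL hLL
  have hcf : (Fintype.card (J → J → F) : ℝ) =
      (((Fintype.card F ^ Fintype.card J) ^ Fintype.card J : ℕ) : ℝ) := by
    rw [Fintype.card_fun, Fintype.card_fun]
  have hns : (∑ t ∈ range (H + 1), (NS F H t : ℝ)) = (LL.card : ℝ) := by
    rw [hLLc]
    push_cast
    rfl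
  rw [hcf, hns]
  refine hmain.trans (mul_le_mul_of_nonneg_right ?_ (Nat.cast_nonneg _))
  rw [div_lt_iff₀ hε] at hK
  rw [div_le_iff₀ (by positivity)]
  linarith

end Pool.Agent.Q68.GL.KLG
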