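import Pool.Agent.Q68.GL.Base
import Pool.Agent.Q241.GJ.LAU

/-!
# Project GL (helper269), job KLU (helper68): all moments in the unitary case, two-sided
(generalises the proof of helper241 of the job LAU of project GJ)
-/

set_option autoImplicit false
set_option linter.all false

open scoped Classical
open Finset

namespace Pool.Agent.Q68.GL.KLU

open Pool.Agent.Q269.GR (F2 cf ts HU HG)
open Pool.Agent.Q269.GJ
open Pool.Agent.Q269.GL
open Pool.Agent.Q24.GR.LAU (charP2 Q_pow Q_two add_pow_Q pow_QQ ts_Q ts_add ts_zero abs_ts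
  ts_sum ts_nd char_sum ts_ite prod_split le_ts)
open Pool.Agent.Q241.GJ (two_zero eq_of_add_zero card_mod exists_gens spn mem_spn card_spn gen_abs)
open Pool.Agent.Q241.GJ.LAU (sum_pow_Q hf_zero_left gx_congr gx_add gx_zero num_pow)
open Pool.Agent.Q68.GL (card_VH)

section basics

variable {F : Type} [Field F] [Fintype F] [Algebra F2 F] {Q : ℕ} {n H : ℕ}

theorem hfh_conj (hQ : Fintype.card F = Q ^ 2) (z z' : VH H n F) : hfh Q z z' ^ Q = hfh Q z' z :=
  (Pool.Agent.Q68.GL.hfh_conj hQ z z').symm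

theorem hfh_add_right (z x y : VH H n F) : hfh Q z (x + y) = hfh Q z x + hfh Q z y :=
  Pool.Agent.Q68.GL.hfh_add_right z x y

theorem hfh_smul_right (z : VH H n F) (t : F) (x : VH H n F) : hfh Q z (t • x) = t * hfh Q z x :=
  Pool.Agent.Q68.GL.hfh_smul_right t z x

theorem hfh_zero_right (z : VH H n F) : hfh Q z 0 = 0 := Pool.Agent.Q68.GL.hfh_zero_right z

theorem hfh_add_left (hQ : Fintype.card F = Q ^ 2) (x y z : VH H n F) :
    hfh Q (x + y) z = hfh Q x z + hfh Q y z := Pool.Agent.Q68.GL.hfh_add_left hQ x y z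

theorem hfh_smul_left (hQ : Fintype.card F = Q ^ 2) (t : F) (x z : VH H n F) :
    hfh Q (t • x) z = t ^ Q * hfh Q x z := Pool.Agent.Q68.GL.hfh_smul_left hQ t x z

theorem hfh_zero_left (hQ : Fintype.card F = Q ^ 2) (z : VH H n F) : hfh Q 0 z = 0 := by
  rw [← hfh_conj hQ, hfh_zero_right, zero_pow]
  have := Q_two hQ
  omega

theorem hfh_sum_left (hQ : Fintype.card F = Q ^ 2) {ι : Type} (s : Finset ι) (f : ι → VH H n F)
    (z : VH H n F) : hfh Q (∑ i ∈ s, f i) z = ∑ i ∈ s, hfh Q (f i) z := by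
  induction s using Finset.induction_on with
  | empty => rw [sum_empty, sum_empty, hfh_zero_left hQ]
  | insert i s hi ih => rw [sum_insert hi, sum_insert hi, hfh_add_left hQ, ih]

theorem hfh_nd (hQ : Fintype.card F = Q ^ 2) (hn : Odd n) {z : VH H n F}
    (h : ∀ x : VH H n F, hfh Q x z = 0) : z = 0 := Pool.Agent.Q68.GL.hfh_nondeg hQ hn h

/-- the number of elements of the orthogonal of a subspace -/
theorem card_perp (hQ : Fintype.card F = Q ^ 2) (hn : Odd n) (U : Submodule F (VH H n F))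
    (hU : Nat.card U = Fintype.card F ^ ((n - 1) * H)) :
    (univ.filter fun x : VH H n F => ∀ z ∈ U, hfh Q x z = 0).card = Fintype.card F ^ ((n - 1) * H) := by
  have hn1 : 1 ≤ n := hn.pos
  have h1 : ∀ x : VH H n F, ∑ z : U, ts (hfh Q x z) =
      if ∀ z ∈ U, hfh Q x z = 0 then (Fintype.card F : ℝ) ^ ((n - 1) * H) else 0 := by
    intro x
    by_cases h : ∀ z ∈ U, hfh Q x z = 0
    · rw [if_pos h]
      have : ∀ z : U, ts (hfh Q x z) = 1 := fun z => by rw [h z z.2, ts_zero]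
      simp only [this]
      rw [sum_const, card_univ, ← Nat.card_eq_fintype_card, hU]
      simp
    · rw [if_neg h]
      push Not at h
      obtain ⟨z, hz, hz0⟩ := h
      refine char_sum (fun z : U => ts (hfh Q x z)) (fun z z' => ?_) ?_
      · rw [Submodule.coe_add, hfh_add_right, ts_add]
      · obtain ⟨t, ht⟩ := ts_nd hz0
        refine ⟨t • ⟨z, hz⟩, ?_⟩
        rw [Submodule.coe_smul, hfh_smul_right]
        exact ht
  have h2 : ∀ z : VH H n F, ∑ x : VH H n F, ts (hfh Q x z) =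
      if z = 0 then (Fintype.card F : ℝ) ^ (2 * ((n - 1) * H)) else 0 := by
    intro z
    by_cases h : z = 0
    · rw [if_pos h, h]
      simp only [hfh_zero_right, ts_zero]
      rw [sum_const, card_univ, card_VH hn, nsmul_eq_mul, mul_one]
      push_cast
      rfl
    · rw [if_neg h]
      have h3 : ∃ x, hfh Q x z ≠ 0 := by
        by_contra hcon
        push Not at hcon
        exact h (hfh_nd hQ hn hcon)
      obtain ⟨x, hx⟩ := h3
      refine char_sum (fun x : VH H n F => ts (hfh Q x z)) (fun x x' => ?_) ?_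
      · rw [hfh_add_left hQ, ts_add]
      · obtain ⟨t, ht⟩ := ts_nd hx
        refine ⟨(t ^ Q) • x, ?_⟩
        rw [hfh_smul_left hQ, pow_QQ hQ]
        exact ht
  have h3 : ∑ x : VH H n F, ∑ z : U, ts (hfh Q x z) = ∑ z : U, ∑ x : VH H n F, ts (hfh Q x z) := sum_comm
  simp only [h1, h2] at h3
  rw [← sum_filter, sum_const, nsmul_eq_mul] at h3
  have h4 : ∑ z : U, (if (z : VH H n F) = 0 then (Fintype.card F : ℝ) ^ (2 * ((n - 1) * H)) else 0) =
      (Fintype.card F : ℝ) ^ (2 * ((n - 1) * H)) := by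
    rw [sum_eq_single (0 : U)]
    · simp
    · intro z _ hz
      rw [if_neg]
      intro h
      exact hz (Subtype.ext h)
    · intro h
      exact absurd (mem_univ _) h
  rw [h4] at h3
  have hF : (0 : ℝ) < (Fintype.card F : ℝ) ^ ((n - 1) * H) := by
    have : (0 : ℝ) < Fintype.card F := by exact_mod_cast Fintype.card_pos
    positivity
  have h5 : (((univ.filter fun x : VH H n F => ∀ z ∈ U, hfh Q x z = 0).card : ℕ) : ℝ) =
      (Fintype.card F : ℝ) ^ ((n - 1) * H) := by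
    apply mul_right_cancel₀ hF.ne'
    rw [h3, two_mul, pow_add]
  exact_mod_cast h5

end basics

section phase

variable {F : Type} [Field F] [Fintype F] [Algebra F2 F] {J : Type} [Fintype J] [LinearOrder J]
variable {n H : ℕ}

/-- the phase -/
noncomputable def Ph (Q : ℕ) (S : Finset J) (B : J → J → F) (dd : J → F)
    (x : J → Fin n → Fin n → F2) (z : J → VH H n F) : F :=
  ∑ i, qfh Q (dd i) (x i) (z i) +
          ∑ i, ∑ j, if i < j ∧ (i ∈ S ∨ j ∈ S) then B i j * hfh Q (z i) (z j) else 0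

theorem ts_Ph (Q : ℕ) (S : Finset J) (B : J → J → F) (dd : J → F) (x : J → Fin n → Fin n → F2)
    (z : J → VH H n F) : ts (Ph Q S B dd x z) =
      (∏ i, ts (qfh Q (dd i) (x i) (z i))) *
        ∏ i, ∏ j, if i < j ∧ (i ∈ S ∨ j ∈ S) then ts (B i j * hfh Q (z i) (z j)) else 1 := by
  unfold Ph
  rw [ts_add, ts_sum, ts_sum]
  congr 1
  refine prod_congr rfl fun i _ => ?_
  rw [ts_sum]
  refine prod_congr rfl fun j _ => ?_
  rw [ts_ite]

theorem ee_symm {Q : ℕ} (hQ : Fintype.card F = Q ^ 2) {B : J → J → F}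
    (hB : ∀ i j, B j i = B i j ^ Q) (z : J → VH H n F) (i j : J) :
    ts (B i j * hfh Q (z i) (z j)) = ts (B j i * hfh Q (z j) (z i)) := by
  rw [← ts_Q hQ, mul_pow, hfh_conj hQ, ← hB i j]

/-- the part of `S` -/
noncomputable def AA (Q : ℕ) (S : Finset J) (B : J → J → F) (dd : J → F)
    (x : J → Fin n → Fin n → F2) (y : J → VH H n F) : ℝ :=
  (∏ i, if i ∈ S then ts (qfh Q (dd i) (x i) (y i)) else 1) *
    ∏ i, ∏ j, if i < j ∧ i ∈ S ∧ j ∈ S then ts (B i j * hfh Q (y i) (y j)) else 1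

theorem abs_AA (Q : ℕ) (S : Finset J) (B : J → J → F) (dd : J → F) (x : J → Fin n → Fin n → F2)
    (y : J → VH H n F) : |AA Q S B dd x y| = 1 := by
  unfold AA
  rw [abs_mul, abs_prod, abs_prod]
  have h1 : ∀ (p : Prop) [Decidable p] (x : F), |if p then ts x else 1| = 1 := by
    intro p _ x
    split_ifs
    · exact abs_ts x
    · exact abs_one
  simp only [abs_prod, h1, prod_const_one, mul_one]

/-- the vector of the linear part -/
noncomputable def ZZ (B : J → J → F) (y : J → VH H n F) (j : J) : VH H n F := ∑ i, B j i • y i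

theorem hfh_ZZ {Q : ℕ} (hQ : Fintype.card F = Q ^ 2) {B : J → J → F}
    (hB : ∀ i j, B j i = B i j ^ Q) (y : J → VH H n F) (j : J) (v : VH H n F) :
    hfh Q (ZZ B y j) v = ∑ i, B i j * hfh Q (y i) v := by
  unfold ZZ
  rw [hfh_sum_left hQ]
  refine sum_congr rfl fun i _ => ?_
  rw [hfh_smul_left hQ, ← hB j i]

/-- the local factor -/
noncomputable def gg (Q : ℕ) (S : Finset J) (B : J → J → F) (dd : J → F)
    (x : J → Fin n → Fin n → F2) (y : J → VH H n F) (j : J) (v : VH H n F) : ℝ :=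
  if j ∈ S then 1 else ts (qfh Q (dd j) (x j) v + hfh Q (ZZ B y j) v)

theorem ts_Ph_eq {Q : ℕ} (hQ : Fintype.card F = Q ^ 2) {B : J → J → F}
    (hB : ∀ i j, B j i = B i j ^ Q) (S : Finset J) (dd : J → F) (x : J → Fin n → Fin n → F2)
    {y z : J → VH H n F} (hy : ∀ i, i ∉ S → y i = 0) (hz : ∀ i ∈ S, z i = y i) :
    ts (Ph Q S B dd x z) = AA Q S B dd x y * ∏ j, gg Q S B dd x y j (z j) := by
  rw [ts_Ph, prod_split S (fun i j => ts (B i j * hfh Q (z i) (z j)))
    (fun i j => ee_symm hQ hB z i j)]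
  unfold AA
  have h1 : ∏ i, ts (qfh Q (dd i) (x i) (z i)) =
      (∏ i, if i ∈ S then ts (qfh Q (dd i) (x i) (y i)) else 1) *
        ∏ i, if i ∈ S then 1 else ts (qfh Q (dd i) (x i) (z i)) := by
    rw [← prod_mul_distrib]
    refine prod_congr rfl fun i _ => ?_
    by_cases hi : i ∈ S
    · rw [if_pos hi, if_pos hi, mul_one, hz i hi]
    · rw [if_neg hi, if_neg hi, one_mul]
  have h2 : (∏ i, ∏ j, if i < j ∧ i ∈ S ∧ j ∈ S then ts (B i j * hfh Q (z i) (z j)) else 1) =
      ∏ i, ∏ j, if i < j ∧ i ∈ S ∧ j ∈ S then ts (B i j * hfh Q (y i) (y j)) else 1 := by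
    refine prod_congr rfl fun i _ => prod_congr rfl fun j _ => ?_
    by_cases h : i < j ∧ i ∈ S ∧ j ∈ S
    · rw [if_pos h, if_pos h, hz i h.2.1, hz j h.2.2]
    · rw [if_neg h, if_neg h]
  have h3 : (∏ i, if i ∈ S then 1 else ts (qfh Q (dd i) (x i) (z i))) *
      (∏ j, ∏ i, if i ∈ S ∧ j ∉ S then ts (B i j * hfh Q (z i) (z j)) else 1) =
      ∏ j, gg Q S B dd x y j (z j) := by
    rw [← prod_mul_distrib]
    refine prod_congr rfl fun j _ => ?_
    unfold gg
    by_cases hj : j ∈ S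
    · simp [hj]
    · rw [if_neg hj, if_neg hj, ts_add, hfh_ZZ hQ hB, ts_sum]
      congr 1
      refine prod_congr rfl fun i _ => ?_
      by_cases hi : i ∈ S
      · rw [if_pos ⟨hi, hj⟩, hz i hi]
      · rw [if_neg (fun h => hi h.1), hy i hi, hfh_zero_left hQ, mul_zero, ts_zero]
  rw [h1, h2, ← h3]
  ring

/-- the restriction to `S` -/
noncomputable def rS (S : Finset J) (z : J → VH H n F) (i : J) : VH H n F := if i ∈ S then z i else 0

/-- the local sum -/
noncomputable def lsm (Q : ℕ) (B : J → J → F) (dd : J → F) (x : J → Fin n → Fin n → F2)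
    (U : Submodule F (VH H n F)) (y : J → VH H n F) (j : J) : ℝ :=
  ∑ v ∈ (univ : Finset (VH H n F)).filter (· ∈ U), ts (qfh Q (dd j) (x j) v + hfh Q (ZZ B y j) v)

/-- the absolute value of the local sum -/
noncomputable def fac (Q : ℕ) (B : J → J → F) (dd : J → F) (x : J → Fin n → Fin n → F2)
    (U : Submodule F (VH H n F)) (y : J → VH H n F) (j : J) : ℝ :=
  |∑ v ∈ (univ : Finset (VH H n F)).filter (· ∈ U), ts (qfh Q (dd j) (x j) v + hfh Q (ZZ B y j) v)|

/-- the part of a maximal isotropic subspace, exactly -/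
theorem TU_eq {Q : ℕ} (hQ : Fintype.card F = Q ^ 2) {B : J → J → F}
    (hB : ∀ i j, B j i = B i j ^ Q) (S : Finset J) (dd : J → F) (x : J → Fin n → Fin n → F2)
    (U : Submodule F (VH H n F)) :
    ∑ z ∈ univ.filter (fun z : J → VH H n F => ∀ i, i ∉ S → z i ∈ U), ts (Ph Q S B dd x z) =
      ∑ y ∈ univ.filter (fun y : J → VH H n F => ∀ i, i ∉ S → y i = 0),
        AA Q S B dd x y * ∏ j, if j ∈ S then 1 else lsm Q B dd x U y j := by
  have hmaps : ∀ z ∈ univ.filter (fun z : J → VH H n F => ∀ i, i ∉ S → z i ∈ U),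
      rS S z ∈ univ.filter (fun y : J → VH H n F => ∀ i, i ∉ S → y i = 0) := by
    intro z _
    rw [mem_filter]
    refine ⟨mem_univ _, fun i hi => ?_⟩
    unfold rS
    rw [if_neg hi]
  rw [← sum_fiberwise_of_maps_to hmaps]
  refine sum_congr rfl fun y hy => ?_
  rw [mem_filter] at hy
  have h1 : ((univ.filter (fun z : J → VH H n F => ∀ i, i ∉ S → z i ∈ U)).filter
      fun z => rS S z = y) =
      Fintype.piFinset (fun i => if i ∈ S then {y i} else
        (univ : Finset (VH H n F)).filter (· ∈ U)) := by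
    ext z
    rw [mem_filter, mem_filter, Fintype.mem_piFinset]
    constructor
    · rintro ⟨⟨_, h1⟩, h2⟩ i
      by_cases hi : i ∈ S
      · rw [if_pos hi, mem_singleton, ← h2]
        unfold rS
        rw [if_pos hi]
      · rw [if_neg hi, mem_filter]
        exact ⟨mem_univ _, h1 i hi⟩
    · intro h
      refine ⟨⟨mem_univ _, fun i hi => ?_⟩, ?_⟩
      · have := h i
        rw [if_neg hi, mem_filter] at this
        exact this.2
      · funext i
        unfold rS
        by_cases hi : i ∈ S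
        · have := h i
          rw [if_pos hi, mem_singleton] at this
          rw [if_pos hi, this]
        · rw [if_neg hi, hy.2 i hi]
  rw [h1]
  have h2 : ∀ z ∈ Fintype.piFinset (fun i => if i ∈ S then {y i} else
      (univ : Finset (VH H n F)).filter (· ∈ U)), ts (Ph Q S B dd x z) =
      AA Q S B dd x y * ∏ j, gg Q S B dd x y j (z j) := by
    intro z hz
    refine ts_Ph_eq hQ hB S dd x hy.2 fun i hi => ?_
    rw [Fintype.mem_piFinset] at hz
    have := hz i
    rw [if_pos hi, mem_singleton] at this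
    exact this
  rw [sum_congr rfl h2, ← mul_sum, ← prod_univ_sum]
  congr 1
  refine prod_congr rfl fun j _ => ?_
  unfold gg lsm
  by_cases hj : j ∈ S
  · simp only [if_pos hj, sum_singleton]
  · simp only [if_neg hj]

/-- the part of a maximal isotropic subspace -/
theorem TU_le {Q : ℕ} (hQ : Fintype.card F = Q ^ 2) {B : J → J → F}
    (hB : ∀ i j, B j i = B i j ^ Q) (S : Finset J) (dd : J → F) (x : J → Fin n → Fin n → F2)
    (U : Submodule F (VH H n F)) :
    |∑ z ∈ univ.filter (fun z : J → VH H n F => ∀ i, i ∉ S → z i ∈ U), ts (Ph Q S B dd x z)| ≤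
      ∑ y ∈ univ.filter (fun y : J → VH H n F => ∀ i, i ∉ S → y i = 0),
        ∏ j, if j ∈ S then 1 else fac Q B dd x U y j := by
  rw [TU_eq hQ hB S dd x U]
  refine (abs_sum_le_sum_abs _ _).trans (sum_le_sum fun y hy => le_of_eq ?_)
  rw [abs_mul, abs_AA, one_mul, abs_prod]
  refine prod_congr rfl fun j _ => ?_
  by_cases hj : j ∈ S
  · rw [if_pos hj, if_pos hj, abs_one]
  · rw [if_neg hj, if_neg hj]
    rfl

/-- maximal isotropic -/
def MI (Q : ℕ) (U : Submodule F (VH H n F)) : Prop :=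
  Nat.card U = Fintype.card F ^ ((n - 1) * H) ∧ ∀ z ∈ U, ∀ z' ∈ U, hfh Q z z' = 0

theorem card_filter_mem (U : Submodule F (VH H n F)) :
    ((univ : Finset (VH H n F)).filter (· ∈ U)).card = Nat.card U := by
  rw [Nat.card_eq_fintype_card, Fintype.card_subtype]

theorem fac_le (Q : ℕ) (B : J → J → F) (dd : J → F) (x : J → Fin n → Fin n → F2)
    {U : Submodule F (VH H n F)} (hU : Nat.card U = Fintype.card F ^ ((n - 1) * H)) (y : J → VH H n F) (j : J) :
    fac Q B dd x U y j ≤ (Fintype.card F : ℝ) ^ ((n - 1) * H) := by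
  unfold fac
  refine (abs_sum_le_sum_abs _ _).trans (le_of_eq ?_)
  simp only [abs_ts]
  rw [sum_const, card_filter_mem, hU]
  simp

/-- the number of the families with arbitrary entries in `S` and `0` outside -/
theorem card_Y (hn : Odd n) (S : Finset J) :
    (univ.filter (fun y : J → VH H n F => ∀ i, i ∉ S → y i = 0)).card =
      Fintype.card F ^ (2 * ((n - 1) * H) * S.card) := by
  have h1 : (univ.filter (fun y : J → VH H n F => ∀ i, i ∉ S → y i = 0)) =
      Fintype.piFinset fun i => if i ∈ S then (univ : Finset (VH H n F)) else {0} := by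
    ext y
    rw [mem_filter, Fintype.mem_piFinset]
    constructor
    · rintro ⟨_, h⟩ i
      by_cases hi : i ∈ S
      · rw [if_pos hi]
        exact mem_univ _
      · rw [if_neg hi, mem_singleton]
        exact h i hi
    · intro h
      refine ⟨mem_univ _, fun i hi => ?_⟩
      have := h i
      rw [if_neg hi, mem_singleton] at this
      exact this
  rw [h1, Fintype.card_piFinset]
  have h2 : ∀ i, (if i ∈ S then (univ : Finset (VH H n F)) else {0}).card =
      if i ∈ S then Fintype.card F ^ (2 * ((n - 1) * H)) else 1 := by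
    intro i
    by_cases hi : i ∈ S
    · rw [if_pos hi, if_pos hi, card_univ, card_VH hn]
    · rw [if_neg hi, if_neg hi, card_singleton]
  simp only [h2]
  rw [prod_ite_mem, univ_inter, prod_const, ← pow_mul]

theorem gxh_congr (Q : ℕ) {y y' : Fin n → Fin n → F2} (h : ∀ l l', l ≠ l' → y l l' = y' l l')
    (z : VH H n F) : gxh Q y z = gxh Q y' z := by
  unfold gxh
  exact sum_congr rfl fun c _ => gx_congr Q h (z c)

theorem gxh_add {Q : ℕ} (hQ : Fintype.card F = Q ^ 2) (y y' : Fin n → Fin n → F2) (z : VH H n F) :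
    gxh Q (y + y') z = gxh Q y z + gxh Q y' z := by
  unfold gxh
  rw [← sum_add_distrib]
  exact sum_congr rfl fun c _ => gx_add hQ y y' (z c)

theorem gxh_zero {Q : ℕ} (hQ : Fintype.card F = Q ^ 2) (z : VH H n F) :
    gxh Q (0 : Fin n → Fin n → F2) z = 0 := by
  unfold gxh
  exact sum_eq_zero fun c _ => gx_zero hQ (z c)

/-- isotropic for all the forms -/
def Iso (Q : ℕ) (U : Submodule F (VH H n F)) : Prop :=
  ∀ x : Fin n → Fin n → F2, Sy x → ∀ z ∈ U, gxh Q x z = 0

/-- many indices are good -/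
theorem good_card {Q : ℕ} (hQ : Fintype.card F = Q ^ 2) (S : Finset J)
    {x : J → Fin n → Fin n → F2} (hx : ∀ i, Sy (x i)) {m : ℕ}
    (hG : Gen (Sᶜ : Finset J) x m) {U : Submodule F (VH H n F)} (hne : ¬ Iso Q U) :
    m ≤ ((Sᶜ : Finset J).filter fun j => ∃ z ∈ U, gxh Q (x j) z ≠ 0).card := by
  have c1 : ∀ y y' : Fin n → Fin n → F2, (∀ z ∈ U, gxh Q y z = 0) → (∀ z ∈ U, gxh Q y' z = 0) →
      ∀ z ∈ U, gxh Q (y + y') z = 0 := by
    intro y y' h h' z hz
    rw [gxh_add hQ, h z hz, h' z hz, add_zero]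
  have c2 : ∀ y y' : Fin n → Fin n → F2, (∀ l l', l ≠ l' → y l l' = y' l l') →
      (∀ z ∈ U, gxh Q y z = 0) → ∀ z ∈ U, gxh Q y' z = 0 := by
    intro y y' h h' z hz
    rw [← gxh_congr Q h z]
    exact h' z hz
  have c3 : ∃ y : Fin n → Fin n → F2, Sy y ∧ ¬ ∀ z ∈ U, gxh Q y z = 0 := by
    unfold Iso at hne
    push Not at hne
    obtain ⟨y, hy, z, hz, h⟩ := hne
    exact ⟨y, hy, fun h' => h (h' z hz)⟩
  obtain ⟨G, hG1, hG2, hG3⟩ := gen_abs hx hG (fun y => ∀ z ∈ U, gxh Q y z = 0)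
    (fun z _ => gxh_zero hQ z) c1 c2 c3
  refine hG2.trans (card_le_card fun i hi => ?_)
  rw [mem_filter]
  have h := hG3 i hi
  push Not at h
  exact ⟨hG1 hi, h⟩

/-- the subspaces with an anisotropic form -/
theorem TU_A (h2 : S_KUG) {Q : ℕ} (hQ : Fintype.card F = Q ^ 2) (hn : Odd n) (hn3 : 3 ≤ n)
    {B : J → J → F}
    (hB : ∀ i j, B j i = B i j ^ Q) (S : Finset J) {dd : J → F} (hdd : ∀ i, dd i ^ Q = dd i)
    {x : J → Fin n → Fin n → F2} (hx : ∀ i, Sy (x i)) {m : ℕ} (hG : Gen (Sᶜ : Finset J) x m)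
    {U : Submodule F (VH H n F)} (hU : MI Q U) (hne : ¬ Iso Q U) :
    |∑ z ∈ univ.filter (fun z : J → VH H n F => ∀ i, i ∉ S → z i ∈ U), ts (Ph Q S B dd x z)| *
      (Q : ℝ) ^ m ≤
      (Fintype.card F : ℝ) ^ (2 * ((n - 1) * H) * S.card + ((n - 1) * H) * Sᶜ.card) := by
  obtain ⟨Gd, hGd⟩ : ∃ Gd : Finset J, Gd = (Sᶜ : Finset J).filter fun j =>
      ∃ z ∈ U, gxh Q (x j) z ≠ 0 := ⟨_, rfl⟩
  have hm := good_card hQ S hx hG hne
  rw [← hGd] at hm
  have hsub : Gd ⊆ Sᶜ := by rw [hGd]; exact filter_subset _ _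
  have hQ2 := Q_two hQ
  have hQ1 : (1 : ℝ) ≤ Q := by exact_mod_cast (by omega : 1 ≤ Q)
  have hQ0 : (0 : ℝ) < Q := by linarith
  have hq0 : (0 : ℝ) < Fintype.card F := by exact_mod_cast Fintype.card_pos
  have key : ∀ y : J → VH H n F, (∏ j, if j ∈ S then 1 else fac Q B dd x U y j) * (Q : ℝ) ^ m ≤
      (Fintype.card F : ℝ) ^ (((n - 1) * H) * Sᶜ.card) := by
    intro y
    have e1 : (∏ j, if j ∈ S then 1 else fac Q B dd x U y j) * (Q : ℝ) ^ Gd.card ≤
        (Fintype.card F : ℝ) ^ (((n - 1) * H) * Sᶜ.card) := by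
      have f1 : (Q : ℝ) ^ Gd.card = ∏ j : J, if j ∈ Gd then (Q : ℝ) else 1 := by
        rw [prod_ite_mem, univ_inter, prod_const]
      have f2 : (Fintype.card F : ℝ) ^ (((n - 1) * H) * Sᶜ.card) =
          ∏ j : J, if j ∈ Sᶜ then (Fintype.card F : ℝ) ^ ((n - 1) * H) else 1 := by
        rw [prod_ite_mem, univ_inter, prod_const, ← pow_mul]
      rw [f1, f2, ← prod_mul_distrib]
      refine Finset.prod_le_prod (fun j _ => ?_) fun j _ => ?_
      · refine mul_nonneg ?_ ?_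
        · split_ifs
          · exact zero_le_one
          · exact abs_nonneg _
        · split_ifs
          · exact hQ0.le
          · exact zero_le_one
      · by_cases hj : j ∈ S
        · have hj1 : j ∉ Gd := fun h => (mem_compl.1 (hsub h)) hj
          have hj2 : j ∉ Sᶜ := fun h => (mem_compl.1 h) hj
          rw [if_pos hj, if_neg hj1, if_neg hj2, one_mul]
        · rw [if_neg hj, if_pos (mem_compl.2 hj)]
          by_cases hg : j ∈ Gd
          · rw [if_pos hg]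
            rw [hGd, mem_filter] at hg
            have g1 := (h2 F Q hQ n H hn hn3 U hU.1 hU.2 (dd j) (x j) (hdd j) (hx j)).2 hg.2
              (ZZ B y j)
            rw [le_div_iff₀ hQ0] at g1
            exact g1
          · rw [if_neg hg, mul_one]
            exact fac_le Q B dd x hU.1 y j
    refine le_trans (mul_le_mul_of_nonneg_left (pow_le_pow_right₀ hQ1 hm) ?_) e1
    refine prod_nonneg fun j _ => ?_
    split_ifs
    · exact zero_le_one
    · exact abs_nonneg _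
  refine (mul_le_mul_of_nonneg_right (TU_le hQ hB S dd x U) (by positivity)).trans ?_
  rw [sum_mul]
  refine (sum_le_card_nsmul _ _ _ fun y _ => key y).trans (le_of_eq ?_)
  rw [card_Y hn, nsmul_eq_mul, pow_add]
  push_cast
  rfl

/-- the subspaces which are isotropic for all the forms -/
theorem TU_B (h2 : S_KUG) {Q : ℕ} (hQ : Fintype.card F = Q ^ 2) (hn : Odd n) (hn3 : 3 ≤ n)
    {B : J → J → F}
    (hB : ∀ i j, B j i = B i j ^ Q) (S : Finset J) {dd : J → F} (hdd : ∀ i, dd i ^ Q = dd i)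
    {x : J → Fin n → Fin n → F2} (hx : ∀ i, Sy (x i))
    (inj : ∀ v : J → F, (∀ i, i ∉ S → v i = 0) → (∀ j, j ∉ S → ∑ i, v i * B i j = 0) → v = 0)
    {U : Submodule F (VH H n F)} (hU : MI Q U) (hz : Iso Q U) :
    ∑ z ∈ univ.filter (fun z : J → VH H n F => ∀ i, i ∉ S → z i ∈ U), ts (Ph Q S B dd x z) =
      (Fintype.card F : ℝ) ^ (((n - 1) * H) * S.card + ((n - 1) * H) * Sᶜ.card) := by
  rw [TU_eq hQ hB S dd x U]
  have hUP : ((univ : Finset (VH H n F)).filter (· ∈ U)) =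
      (univ : Finset (VH H n F)).filter fun x => ∀ z ∈ U, hfh Q x z = 0 := by
    refine eq_of_subset_of_card_le (fun z hz => ?_) ?_
    · rw [mem_filter] at hz ⊢
      exact ⟨mem_univ _, fun v hv => hU.2 z hz.2 v hv⟩
    · rw [card_perp hQ hn U hU.1, card_filter_mem, hU.1]
  have hperp : ∀ w : VH H n F, (∀ v ∈ U, hfh Q w v = 0) → w ∈ U := by
    intro w hw
    have h3 : w ∈ (univ : Finset (VH H n F)).filter fun x => ∀ z ∈ U, hfh Q x z = 0 := by
      rw [mem_filter]
      exact ⟨mem_univ _, hw⟩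
    rw [← hUP, mem_filter] at h3
    exact h3.2
  have e1 : ∀ j, ∀ v ∈ U, ts (qfh Q (dd j) (x j) v) = 1 := fun j =>
    (h2 F Q hQ n H hn hn3 U hU.1 hU.2 (dd j) (x j) (hdd j) (hx j)).1 fun z hzU =>
      hz (x j) (hx j) z hzU
  have hfac : ∀ (y : J → VH H n F) (j : J), (¬ ∀ v ∈ U, hfh Q (ZZ B y j) v = 0) →
      lsm Q B dd x U y j = 0 := by
    intro y j h
    push Not at h
    obtain ⟨v, hv, hv0⟩ := h
    have e2 : ∑ v ∈ (univ : Finset (VH H n F)).filter (· ∈ U),
        ts (qfh Q (dd j) (x j) v + hfh Q (ZZ B y j) v) = ∑ v : U, ts (hfh Q (ZZ B y j) v) := by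
      rw [sum_subtype (p := fun v => v ∈ U) _ (fun v => by simp)]
      refine sum_congr rfl fun v _ => ?_
      rw [ts_add, e1 j v v.2, one_mul]
    unfold lsm
    rw [e2]
    refine char_sum (fun v : U => ts (hfh Q (ZZ B y j) v)) (fun z z' => ?_) ?_
    · rw [Submodule.coe_add, hfh_add_right, ts_add]
    · obtain ⟨t, ht⟩ := ts_nd hv0
      refine ⟨t • ⟨v, hv⟩, ?_⟩
      rw [Submodule.coe_smul, hfh_smul_right]
      exact ht
  have key : ∀ y ∈ univ.filter (fun y : J → VH H n F => ∀ i, i ∉ S → y i = 0),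
      (AA Q S B dd x y * ∏ j, if j ∈ S then 1 else lsm Q B dd x U y j) =
      if (∀ κ ∈ S, y κ ∈ U) then (Fintype.card F : ℝ) ^ (((n - 1) * H) * Sᶜ.card) else 0 := by
    intro y hy
    rw [mem_filter] at hy
    by_cases h : ∀ κ ∈ S, y κ ∈ U
    · rw [if_pos h]
      have hyU : ∀ i, y i ∈ U := by
        intro i
        by_cases hi : i ∈ S
        · exact h i hi
        · rw [hy.2 i hi]
          exact U.zero_mem
      have hA : AA Q S B dd x y = 1 := by
        unfold AA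
        have g1 : ∀ i, (if i ∈ S then ts (qfh Q (dd i) (x i) (y i)) else (1 : ℝ)) = 1 := by
          intro i
          split_ifs
          · exact e1 i _ (hyU i)
          · rfl
        have g2 : ∀ i j, (if i < j ∧ i ∈ S ∧ j ∈ S then ts (B i j * hfh Q (y i) (y j)) else (1 : ℝ)) = 1 := by
          intro i j
          split_ifs
          · rw [hU.2 _ (hyU i) _ (hyU j), mul_zero, ts_zero]
          · rfl
        simp only [g1, g2, prod_const_one, mul_one]
      have f2 : (Fintype.card F : ℝ) ^ (((n - 1) * H) * Sᶜ.card) =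
          ∏ j : J, if j ∈ Sᶜ then (Fintype.card F : ℝ) ^ ((n - 1) * H) else 1 := by
        rw [prod_ite_mem, univ_inter, prod_const, ← pow_mul]
      rw [hA, one_mul, f2]
      refine prod_congr rfl fun j _ => ?_
      by_cases hj : j ∈ S
      · have hj2 : j ∉ Sᶜ := fun h => (mem_compl.1 h) hj
        rw [if_pos hj, if_neg hj2]
      · rw [if_neg hj, if_pos (mem_compl.2 hj)]
        unfold lsm
        have g3 : ZZ B y j ∈ U := U.sum_mem fun i _ => U.smul_mem _ (hyU i)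
        rw [sum_congr rfl fun v hv => by
          rw [hU.2 _ g3 v (mem_filter.1 hv).2, add_zero, e1 j v (mem_filter.1 hv).2]]
        rw [sum_const, card_filter_mem, hU.1]
        simp
    · rw [if_neg h]
      by_contra hne
      have hne2 : (∏ j, if j ∈ S then 1 else lsm Q B dd x U y j) ≠ 0 := fun h0 => hne (by rw [h0, mul_zero])
      rw [prod_ne_zero_iff] at hne2
      refine h fun κ hκ => ?_
      refine hperp _ fun v hv => ?_
      have g1 := inj (fun i => hfh Q (y i) v) (fun i hi => by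
        rw [hy.2 i hi, hfh_zero_left hQ]) (by
        intro j hj
        have g2 := hne2 j (mem_univ _)
        rw [if_neg hj] at g2
        by_contra g3
        refine g2 (hfac y j fun g4 => g3 ?_)
        have g5 := g4 v hv
        rw [hfh_ZZ hQ hB] at g5
        refine Eq.trans (sum_congr rfl fun i _ => mul_comm _ _) g5)
      exact congrFun g1 κ
  rw [sum_congr rfl key, ← sum_filter, sum_const, nsmul_eq_mul]
  have hcount : ((univ.filter (fun y : J → VH H n F => ∀ i, i ∉ S → y i = 0)).filter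
      fun y => ∀ κ ∈ S, y κ ∈ U).card = Fintype.card F ^ (((n - 1) * H) * S.card) := by
    have f1 : ((univ.filter (fun y : J → VH H n F => ∀ i, i ∉ S → y i = 0)).filter
        fun y => ∀ κ ∈ S, y κ ∈ U) = Fintype.piFinset fun i => if i ∈ S then
          (univ : Finset (VH H n F)).filter (· ∈ U) else {0} := by
      ext y
      rw [mem_filter, mem_filter, Fintype.mem_piFinset]
      constructor
      · rintro ⟨⟨_, h3⟩, h4⟩ i
        by_cases hi : i ∈ S
        · rw [if_pos hi, mem_filter]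
          exact ⟨mem_univ _, h4 i hi⟩
        · rw [if_neg hi, mem_singleton]
          exact h3 i hi
      · intro h3
        refine ⟨⟨mem_univ _, fun i hi => ?_⟩, fun i hi => ?_⟩
        · have h4 := h3 i
          rwa [if_neg hi, mem_singleton] at h4
        · have h4 := h3 i
          rw [if_pos hi, mem_filter] at h4
          exact h4.2
    rw [f1, Fintype.card_piFinset]
    have f2 : ∀ i, (if i ∈ S then (univ : Finset (VH H n F)).filter (· ∈ U) else {0}).card =
        if i ∈ S then Fintype.card F ^ ((n - 1) * H) else 1 := by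
      intro i
      by_cases hi : i ∈ S
      · rw [if_pos hi, if_pos hi, card_filter_mem, hU.1]
      · rw [if_neg hi, if_neg hi, card_singleton]
    simp only [f2]
    rw [prod_ite_mem, univ_inter, prod_const, ← pow_mul]
  rw [hcount, pow_add]
  push_cast
  rfl

/-- the span of the vectors outside `S` -/
def WW (S : Finset J) (z : J → VH H n F) : Submodule F (VH H n F) :=
  Submodule.span F (Set.range fun i : (Sᶜ : Finset J) => z i)

theorem mem_WW (S : Finset J) (z : J → VH H n F) {i : J} (hi : i ∉ S) : z i ∈ WW S z :=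
  Submodule.subset_span ⟨⟨i, mem_compl.2 hi⟩, rfl⟩

theorem WW_le (S : Finset J) (z : J → VH H n F) {U : Submodule F (VH H n F)}
    (h : ∀ i, i ∉ S → z i ∈ U) : WW S z ≤ U := by
  unfold WW
  rw [Submodule.span_le]
  rintro x ⟨i, rfl⟩
  exact h i (mem_compl.1 i.2)

theorem mem_univ_any {X : Type} (i : Fintype X) (x : X) : x ∈ @Finset.univ X i :=
  @Finset.mem_univ X i x

/-- the families of the first kind -/
theorem count_one (h4 : S_KUR) {Q : ℕ} (hQ : Fintype.card F = Q ^ 2) (hn : Odd n) (hn3 : 3 ≤ n) (hH : 1 ≤ H)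
    (S : Finset J) :
    ((univ : Finset (J → VH H n F)).filter (fun z =>
      (∀ i j, i < j → i ∉ S → j ∉ S → hfh Q (z i) (z j) = 0) ∧ ¬ MI Q (WW S z))).card ≤
    (Sᶜ.card + 1) ^ (2 * ((n - 1) * H)) *
      Fintype.card F ^ (6 * ((n - 1) * H) ^ 2 + ((n - 1) * H - 1) * Sᶜ.card + 2 * ((n - 1) * H) * S.card) := by
  obtain ⟨K, hK⟩ : ∃ K : Finset ((Sᶜ : Finset J) → VH H n F), K =
      (univ.filter fun z => (∀ i j, i ≠ j → hfh Q (z i) (z j) = 0) ∧
    ¬ (Nat.card (Submodule.span F (Set.range z)) = Fintype.card F ^ ((n - 1) * H) ∧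
      ∀ z₁ ∈ Submodule.span F (Set.range z), ∀ z₂ ∈ Submodule.span F (Set.range z),
        hfh Q z₁ z₂ = 0)) := ⟨_, rfl⟩
  have hQ2 := Q_two hQ
  have hKc : K.card ≤ (Sᶜ.card + 1) ^ (2 * ((n - 1) * H)) *
      Fintype.card F ^ (6 * ((n - 1) * H) ^ 2 + ((n - 1) * H - 1) * Sᶜ.card) := by
    rw [hK]
    have := h4 F Q hQ n H hn hn3 hH (Sᶜ : Finset J)
    rw [Fintype.card_coe] at this
    refine le_trans (card_le_card fun z hz => ?_) this
    simp only [mem_filter] at hz ⊢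
    exact ⟨mem_univ_any _ _, hz.2⟩
  have h1 : ((univ : Finset (J → VH H n F)).filter (fun z =>
      (∀ i j, i < j → i ∉ S → j ∉ S → hfh Q (z i) (z j) = 0) ∧ ¬ MI Q (WW S z))).card ≤
      (K ×ˢ (univ : Finset (S → VH H n F))).card := by
    refine card_le_card_of_injOn (fun z => (fun i => z i, fun i => z i)) ?_ ?_
    · intro z hz
      rw [mem_coe, mem_filter] at hz
      rw [mem_coe, mem_product]
      refine ⟨?_, mem_univ _⟩
      rw [hK, mem_filter]
      refine ⟨mem_univ _, fun i j hij => ?_, hz.2.2⟩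
      have hij' : (i : J) ≠ j := fun h => hij (Subtype.ext h)
      rcases lt_or_gt_of_ne hij' with h | h
      · exact hz.2.1 i j h (mem_compl.1 i.2) (mem_compl.1 j.2)
      · have e1 := hz.2.1 j i h (mem_compl.1 j.2) (mem_compl.1 i.2)
        show hfh Q (z i) (z j) = 0
        rw [← hfh_conj hQ, e1, zero_pow]
        omega
    · intro z _ z' _ h
      have e1 := congrArg Prod.fst h
      have e2 := congrArg Prod.snd h
      funext i
      by_cases hi : i ∈ S
      · exact congrFun e2 ⟨i, hi⟩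
      · exact congrFun e1 ⟨i, mem_compl.2 hi⟩
  refine h1.trans ?_
  rw [card_product, card_univ, Fintype.card_fun, card_VH hn, Fintype.card_coe, ← pow_mul]
  refine (Nat.mul_le_mul_right _ hKc).trans (le_of_eq ?_)
  rw [pow_add _ (6 * ((n - 1) * H) ^ 2 + ((n - 1) * H - 1) * Sᶜ.card)]
  ring

theorem finrank_MI {Q : ℕ} {U : Submodule F (VH H n F)} (hU : MI Q U) :
    Module.finrank F U = (n - 1) * H := by
  have h1 := hU.1
  rw [card_mod (F := F) U] at h1
  exact Nat.pow_right_injective (Fintype.one_lt_card (α := F)) h1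

/-- the families of the second kind -/
theorem count_two {Q : ℕ} (hn : Odd n) (S : Finset J) {U : Submodule F (VH H n F)} (hU : MI Q U) :
    ((univ : Finset (J → VH H n F)).filter (fun z => (∀ i, i ∉ S → z i ∈ U) ∧ WW S z ≠ U)).card ≤
    Fintype.card F ^ (2 * ((n - 1) * H) * ((n - 1) * H - 1) + (((n - 1) * H - 1) * Sᶜ.card + 2 * ((n - 1) * H) * S.card)) := by
  have h1 : ((univ : Finset (J → VH H n F)).filter (fun z => (∀ i, i ∉ S → z i ∈ U) ∧ WW S z ≠ U)) ⊆
      (univ : Finset (Fin ((n - 1) * H - 1) → VH H n F)).biUnion fun u =>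
        Fintype.piFinset fun i => if i ∈ Sᶜ then spn (F := F) u else univ := by
    intro z hz
    rw [mem_filter] at hz
    rw [mem_biUnion]
    have e1 : WW S z < U := lt_of_le_of_ne (WW_le S z hz.2.1) hz.2.2
    have e2 := Submodule.finrank_lt_finrank_of_lt e1
    rw [finrank_MI hU] at e2
    have e3 : Module.finrank F (WW S z) ≤ (n - 1) * H - 1 := by omega
    obtain ⟨u, hu⟩ := exists_gens (WW S z) e3
    refine ⟨u, mem_univ _, ?_⟩
    rw [Fintype.mem_piFinset]
    intro i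
    by_cases hi : i ∈ Sᶜ
    · rw [if_pos hi, mem_spn, hu]
      exact mem_WW S z (mem_compl.1 hi)
    · rw [if_neg hi]
      exact mem_univ _
  refine (card_le_card h1).trans (card_biUnion_le.trans ?_)
  have h2 : ∀ u : Fin ((n - 1) * H - 1) → VH H n F, (Fintype.piFinset fun i : J => if i ∈ Sᶜ then
      spn (F := F) u else (univ : Finset (VH H n F))).card ≤
      Fintype.card F ^ (((n - 1) * H - 1) * Sᶜ.card + 2 * ((n - 1) * H) * S.card) := by
    intro u
    rw [Fintype.card_piFinset]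
    have e2 : ∏ j : J, (if j ∈ Sᶜ then spn (F := F) u else univ : Finset (VH H n F)).card ≤
        ∏ j : J, if j ∈ Sᶜ then Fintype.card F ^ ((n - 1) * H - 1) else Fintype.card F ^ (2 * ((n - 1) * H)) := by
      refine Finset.prod_le_prod (fun _ _ => Nat.zero_le _) fun j _ => ?_
      by_cases hj : j ∈ Sᶜ
      · rw [if_pos hj, if_pos hj]
        exact card_spn u
      · rw [if_neg hj, if_neg hj, card_univ, card_VH hn]
    refine e2.trans (le_of_eq ?_)
    rw [prod_ite, prod_const, prod_const, ← pow_mul, ← pow_mul, ← pow_add]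
    have e3 : (univ.filter fun j => j ∈ Sᶜ) = Sᶜ := by
      ext j
      simp
    have e4 : (univ.filter fun j => ¬ j ∈ Sᶜ) = S := by
      ext j
      simp
    rw [e3, e4]
  refine (sum_le_sum fun v _ => h2 v).trans (le_of_eq ?_)
  rw [sum_const, card_univ, Fintype.card_fun, card_VH hn, Fintype.card_fin, smul_eq_mul, ← pow_mul,
    ← pow_add]

/-- the number of the maximal isotropic subspaces -/
theorem exists_UU (hn : Odd n) (Q : ℕ) : ∃ UU : Finset (Submodule F (VH H n F)),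
    (∀ U, U ∈ UU ↔ MI Q U) ∧ UU.card ≤ Fintype.card F ^ (2 * ((n - 1) * H) * ((n - 1) * H)) := by
  refine ⟨((univ : Finset (Fin ((n - 1) * H) → VH H n F)).image
    fun u => Submodule.span F (Set.range u)).filter (MI Q), fun U => ?_, ?_⟩
  · rw [mem_filter, mem_image]
    constructor
    · exact fun h => h.2
    · intro h
      refine ⟨?_, h⟩
      obtain ⟨u, hu⟩ := exists_gens U (finrank_MI h).le
      exact ⟨u, mem_univ _, hu⟩
  · refine (card_filter_le _ _).trans (card_image_le.trans (le_of_eq ?_))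
    rw [card_univ, Fintype.card_fun, card_VH hn, Fintype.card_fin, ← pow_mul]

end phase


theorem nu_a {q l s m r K M : ℕ} (hq : 4 ≤ q) (hm : 1 ≤ m) (hr : m * s ≤ r)
    (hM : K + 20 * m ^ 2 + 20 * m + 20 ≤ M) (hl : 4 * r + M ≤ l) :
    2 ^ K * ((l + 1) ^ (2 * m) * q ^ (6 * m ^ 2 + (m - 1) * l + 2 * m * s)) ≤ q ^ (m * s + m * l) := by
  obtain ⟨m', rfl⟩ : ∃ m', m = m' + 1 := ⟨m - 1, by omega⟩
  have hl2 : 6 * (m' + 1) ^ 2 + (m' + 1) * s ≤ l := by nlinarith
  obtain ⟨k, hk⟩ : ∃ k, k + (6 * (m' + 1) ^ 2 + (m' + 1) * s) = l :=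
    ⟨l - (6 * (m' + 1) ^ 2 + (m' + 1) * s), by omega⟩
  have h0 : K + (2 * (m' + 1) * (m' + 1 + 2) + l / 2) ≤ 2 * k := by
    have h1 : l / 2 * 2 ≤ l := Nat.div_mul_le_self l 2
    nlinarith
  have h1 : 2 ^ K * (l + 1) ^ (2 * (m' + 1)) ≤ q ^ k := by
    calc 2 ^ K * (l + 1) ^ (2 * (m' + 1)) ≤ 2 ^ K * 2 ^ (2 * (m' + 1) * (m' + 1 + 2) + l / 2) :=
          Nat.mul_le_mul_left _ (num_pow l (m' + 1) (by omega))
      _ = 2 ^ (K + (2 * (m' + 1) * (m' + 1 + 2) + l / 2)) := (pow_add _ _ _).symm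
      _ ≤ 2 ^ (2 * k) := Nat.pow_le_pow_right (by norm_num) h0
      _ = 4 ^ k := by rw [pow_mul]; norm_num
      _ ≤ q ^ k := Nat.pow_le_pow_left hq k
  calc 2 ^ K * ((l + 1) ^ (2 * (m' + 1)) *
        q ^ (6 * (m' + 1) ^ 2 + (m' + 1 - 1) * l + 2 * (m' + 1) * s))
      = 2 ^ K * (l + 1) ^ (2 * (m' + 1)) *
        q ^ (6 * (m' + 1) ^ 2 + (m' + 1 - 1) * l + 2 * (m' + 1) * s) := by ring
    _ ≤ q ^ k * q ^ (6 * (m' + 1) ^ 2 + (m' + 1 - 1) * l + 2 * (m' + 1) * s) :=
        Nat.mul_le_mul_right _ h1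
    _ = q ^ ((m' + 1) * s + (m' + 1) * l) := by
        rw [← pow_add]
        congr 1
        have e1 : m' + 1 - 1 = m' := by omega
        rw [e1]
        have e2 : (m' + 1) * l = m' * l + l := by ring
        rw [e2]
        conv_rhs => rw [← hk]
        rw [← hk]
        ring

theorem nu_b {q l s m r K M : ℕ} (hq : 4 ≤ q) (hm : 1 ≤ m) (hr : m * s ≤ r)
    (hM : K + 20 * m ^ 2 + 20 * m + 20 ≤ M) (hl : 4 * r + M ≤ l) :
    2 ^ K * (q ^ (2 * m * m) * q ^ (2 * m * (m - 1) + ((m - 1) * l + 2 * m * s))) ≤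
      q ^ (m * s + m * l) := by
  obtain ⟨m', rfl⟩ : ∃ m', m = m' + 1 := ⟨m - 1, by omega⟩
  have e1 : m' + 1 - 1 = m' := by omega
  rw [e1]
  have h1 : 2 ^ K ≤ q ^ K := Nat.pow_le_pow_left (by omega) K
  calc _ ≤ q ^ K * (q ^ (2 * (m' + 1) * (m' + 1)) *
        q ^ (2 * (m' + 1) * m' + (m' * l + 2 * (m' + 1) * s))) := Nat.mul_le_mul_right _ h1
    _ = q ^ (K + (2 * (m' + 1) * (m' + 1) + (2 * (m' + 1) * m' + (m' * l + 2 * (m' + 1) * s)))) := by
        rw [← pow_add, ← pow_add]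
    _ ≤ _ := Nat.pow_le_pow_right (by omega) (by nlinarith)

theorem nu_c {q Q l s m r K M : ℕ} (hq : 4 ≤ q) (hQ : q = Q ^ 2) (hQ2 : 2 ≤ Q) (hr : m * s ≤ r)
    (hM : K + 20 * m ^ 2 + 20 * m + 20 ≤ M) :
    2 ^ K * (q ^ (2 * m * m) * q ^ (2 * m * s + m * l)) ≤ q ^ (m * s + m * l) * Q ^ (4 * r + M) := by
  have h1 : 2 ^ K ≤ Q ^ K := Nat.pow_le_pow_left hQ2 K
  calc _ ≤ Q ^ K * (q ^ (2 * m * m) * q ^ (2 * m * s + m * l)) := Nat.mul_le_mul_right _ h1
    _ = Q ^ (K + (2 * (2 * m * m) + 2 * (2 * m * s + m * l))) := by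
        rw [hQ, ← pow_mul, ← pow_mul, ← pow_add, ← pow_add]
    _ ≤ Q ^ (2 * (m * s + m * l) + (4 * r + M)) := Nat.pow_le_pow_right (by omega) (by nlinarith)
    _ = _ := by rw [pow_add, hQ, ← pow_mul]

section fin

variable {F : Type} [Field F] [Fintype F] [Algebra F2 F] {J : Type} [Fintype J] [LinearOrder J]
variable {n H : ℕ}

/-- the sum of the characters -/
theorem main_sum (h2 : S_KUG) (h3 : S_KUI) (h4 : S_KUR) {Q : ℕ} (hQ : Fintype.card F = Q ^ 2)
    (hn : Odd n) (hn3 : 3 ≤ n) (hH : 1 ≤ H) {K M : ℕ}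
    (hM : K + 20 * ((n - 1) * H) ^ 2 + 20 * ((n - 1) * H) + 20 ≤ M)
    (S : Finset J) {B : J → J → F} {dd : J → F} {x : J → Fin n → Fin n → F2} (hx : ∀ i, Sy (x i))
    (hB : ∀ i j, B j i = B i j ^ Q) (hdd : ∀ i, dd i ^ Q = dd i)
    (inj : ∀ v : J → F, (∀ i, i ∉ S → v i = 0) → (∀ j, j ∉ S → ∑ i, v i * B i j = 0) → v = 0)
    (hG : Gen Sᶜ x (4 * n * H * S.card + M)) :
    |∑ z ∈ (univ : Finset (J → VH H n F)).filter
        (fun z => ∀ i j, i < j → i ∉ S → j ∉ S → hfh Q (z i) (z j) = 0), ts (Ph Q S B dd x z) -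
      (∑ t ∈ range (H + 1), (NS F H t : ℝ) * (Q : ℝ) ^ (t ^ 2)) *
        (Fintype.card F : ℝ) ^ (((n - 1) * H) * S.card + ((n - 1) * H) * Sᶜ.card)| ≤
      3 / 2 ^ K * (Fintype.card F : ℝ) ^ (((n - 1) * H) * S.card + ((n - 1) * H) * Sᶜ.card) := by
  obtain ⟨m, hm⟩ : ∃ m, m = (n - 1) * H := ⟨_, rfl⟩
  obtain ⟨r, hr⟩ : ∃ r, r = n * H * S.card := ⟨_, rfl⟩
  have hm1 : 1 ≤ m := by
    rw [hm]
    exact Nat.mul_pos (by omega) hH
  have hrm : m * S.card ≤ r := by
    rw [hm, hr]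
    exact Nat.mul_le_mul_right _ (Nat.mul_le_mul_right _ (by omega))
  have hr4 : 4 * n * H * S.card + M = 4 * r + M := by
    rw [hr]
    ring
  rw [hr4] at hG
  have hQ2 := Q_two hQ
  have hq4 : 4 ≤ Fintype.card F := by
    rw [hQ]
    exact (by norm_num : 4 ≤ 2 ^ 2).trans (Nat.pow_le_pow_left hQ2 2)
  have hl : 4 * r + M ≤ Sᶜ.card := by
    have := hG (fun _ _ => 1) ⟨⟨0, by omega⟩, ⟨1, by omega⟩, by
      rw [Fin.lt_def]
      norm_num, by decide⟩
    exact this.trans (card_filter_le _ _)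
  obtain ⟨UU, hUU, hUUc⟩ := exists_UU (F := F) (H := H) hn Q
  obtain ⟨ZZ0, hZZ0⟩ : ∃ ZZ0 : Finset (J → VH H n F), ZZ0 = (univ : Finset (J → VH H n F)).filter
        (fun z => ∀ i j, i < j → i ∉ S → j ∉ S → hfh Q (z i) (z j) = 0) := ⟨_, rfl⟩
  rw [← hZZ0]
  have hQ0 : (0 : ℝ) < Q := by exact_mod_cast (by omega : 0 < Q)
  have hq0 : (0 : ℝ) < Fintype.card F := by exact_mod_cast Fintype.card_pos
  obtain ⟨X, hX⟩ : ∃ X : ℝ, X = (Fintype.card F : ℝ) ^ (((n - 1) * H) * S.card + ((n - 1) * H) * Sᶜ.card) :=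
    ⟨_, rfl⟩
  have hX0 : 0 < X := by
    rw [hX]
    positivity
  -- the first kind
  have hX1 : |∑ z ∈ ZZ0.filter (fun z => ¬ MI Q (WW S z)), ts (Ph Q S B dd x z)| ≤
      (((Sᶜ.card + 1) ^ (2 * ((n - 1) * H)) * Fintype.card F ^
        (6 * ((n - 1) * H) ^ 2 + ((n - 1) * H - 1) * Sᶜ.card + 2 * ((n - 1) * H) * S.card) : ℕ) : ℝ) := by
    refine (abs_sum_le_sum_abs _ _).trans ?_
    simp only [abs_ts]
    rw [sum_const, nsmul_eq_mul, mul_one, hZZ0, filter_filter]
    exact_mod_cast count_one h4 hQ hn hn3 hH S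
  -- the second kind
  have hmaps : ∀ z ∈ ZZ0.filter (fun z => MI Q (WW S z)), WW S z ∈ UU := by
    intro z hz
    rw [mem_filter] at hz
    exact (hUU _).2 hz.2
  obtain ⟨TT, hTT⟩ : ∃ TT : Submodule F (VH H n F) → ℝ, TT = fun U =>
      ∑ z ∈ univ.filter (fun z : J → VH H n F => ∀ i, i ∉ S → z i ∈ U), ts (Ph Q S B dd x z) :=
    ⟨_, rfl⟩
  have hU1 : ∀ U ∈ UU, |∑ z ∈ (ZZ0.filter (fun z => MI Q (WW S z))).filter (fun z => WW S z = U),
      ts (Ph Q S B dd x z) - TT U| ≤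
        ((Fintype.card F ^ (2 * ((n - 1) * H) * ((n - 1) * H - 1) +
          (((n - 1) * H - 1) * Sᶜ.card + 2 * ((n - 1) * H) * S.card)) : ℕ) : ℝ) := by
    intro U hU
    have hMI := (hUU U).1 hU
    have e1 : (ZZ0.filter (fun z => MI Q (WW S z))).filter (fun z => WW S z = U) =
        (univ.filter (fun z : J → VH H n F => ∀ i, i ∉ S → z i ∈ U)).filter (fun z => WW S z = U) := by
      ext z
      rw [mem_filter, mem_filter, mem_filter, mem_filter, hZZ0, mem_filter]
      constructor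
      · rintro ⟨_, h⟩
        exact ⟨⟨mem_univ _, fun i hi => h ▸ mem_WW S z hi⟩, h⟩
      · rintro ⟨⟨_, h⟩, h'⟩
        exact ⟨⟨⟨mem_univ _, fun i j _ hi hj => hMI.2 _ (h i hi) _ (h j hj)⟩, h' ▸ hMI⟩, h'⟩
    rw [e1]
    have e2 := sum_filter_add_sum_filter_not
      (univ.filter (fun z : J → VH H n F => ∀ i, i ∉ S → z i ∈ U)) (fun z => WW S z = U)
      (fun z => ts (Ph Q S B dd x z))
    have e3 : |∑ z ∈ (univ.filter (fun z : J → VH H n F => ∀ i, i ∉ S → z i ∈ U)).filter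
        (fun z => ¬ WW S z = U), ts (Ph Q S B dd x z)| ≤
        ((Fintype.card F ^ (2 * ((n - 1) * H) * ((n - 1) * H - 1) +
          (((n - 1) * H - 1) * Sᶜ.card + 2 * ((n - 1) * H) * S.card)) : ℕ) : ℝ) := by
      refine (abs_sum_le_sum_abs _ _).trans ?_
      simp only [abs_ts]
      rw [sum_const, nsmul_eq_mul, mul_one, filter_filter]
      exact_mod_cast count_two hn S hMI
    have e4 : ∑ z ∈ (univ.filter (fun z : J → VH H n F => ∀ i, i ∉ S → z i ∈ U)).filter
        (fun z => WW S z = U), ts (Ph Q S B dd x z) - TT U =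
        -∑ z ∈ (univ.filter (fun z : J → VH H n F => ∀ i, i ∉ S → z i ∈ U)).filter
        (fun z => ¬ WW S z = U), ts (Ph Q S B dd x z) := by
      rw [hTT]
      linarith
    rw [e4, abs_neg]
    exact e3
  have hX2 : |∑ z ∈ ZZ0.filter (fun z => MI Q (WW S z)), ts (Ph Q S B dd x z) - ∑ U ∈ UU, TT U| ≤
      ((Fintype.card F ^ (2 * ((n - 1) * H) * ((n - 1) * H)) * Fintype.card F ^
        (2 * ((n - 1) * H) * ((n - 1) * H - 1) +
          (((n - 1) * H - 1) * Sᶜ.card + 2 * ((n - 1) * H) * S.card)) : ℕ) : ℝ) := by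
    rw [← sum_fiberwise_of_maps_to hmaps, ← sum_sub_distrib]
    refine (abs_sum_le_sum_abs _ _).trans ((sum_le_sum hU1).trans ?_)
    rw [sum_const, nsmul_eq_mul]
    exact_mod_cast Nat.mul_le_mul_right _ hUUc
  -- the isotropic subspaces
  have hiso : (UU.filter fun U => Iso Q U).card = ∑ t ∈ range (H + 1), NS F H t * Q ^ (t ^ 2) := by
    have e1 := h3 F Q hQ n H hn hn3
    have e2 : {U : Submodule F (VH H n F) | Nat.card U = Fintype.card F ^ ((n - 1) * H) ∧
        (∀ z ∈ U, ∀ z' ∈ U, hfh Q z z' = 0) ∧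
        ∀ x : Fin n → Fin n → F2, Sy x → ∀ z ∈ U, gxh Q x z = 0} =
        ((UU.filter fun U => Iso Q U : Finset (Submodule F (VH H n F))) :
          Set (Submodule F (VH H n F))) := by
      ext U
      rw [mem_coe, mem_filter, hUU]
      constructor
      · rintro ⟨h1, h2, h3⟩
        exact ⟨⟨h1, h2⟩, h3⟩
      · rintro ⟨⟨h1, h2⟩, h3⟩
        exact ⟨h1, h2, h3⟩
    rw [e2, Set.ncard_coe_finset] at e1
    exact e1
  have hTA : ∑ U ∈ UU.filter (fun U => Iso Q U), TT U =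
      (∑ t ∈ range (H + 1), (NS F H t : ℝ) * (Q : ℝ) ^ (t ^ 2)) * X := by
    have e1 : ∀ U ∈ UU.filter (fun U => Iso Q U), TT U = X := by
      intro U hU
      rw [mem_filter, hUU] at hU
      rw [hTT, hX]
      exact TU_B h2 hQ hn hn3 hB S hdd hx inj hU.1 hU.2
    rw [sum_congr rfl e1, sum_const, nsmul_eq_mul, hiso]
    push_cast
    rfl
  have hTB : |∑ U ∈ UU.filter (fun U => ¬ Iso Q U), TT U| ≤ 1 / 2 ^ K * X := by
    have e1 : ∀ U ∈ UU.filter (fun U => ¬ Iso Q U), |TT U| ≤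
        (Fintype.card F : ℝ) ^ (2 * ((n - 1) * H) * S.card + ((n - 1) * H) * Sᶜ.card) /
          (Q : ℝ) ^ (4 * r + M) := by
      intro U hU
      rw [mem_filter, hUU] at hU
      rw [hTT, le_div_iff₀ (by positivity)]
      exact TU_A h2 hQ hn hn3 hB S hdd hx hG hU.1 hU.2
    refine (abs_sum_le_sum_abs _ _).trans ((sum_le_card_nsmul _ _ _ e1).trans ?_)
    rw [nsmul_eq_mul]
    have e2 : (((UU.filter (fun U => ¬ Iso Q U)).card : ℕ) : ℝ) ≤
        (Fintype.card F : ℝ) ^ (2 * ((n - 1) * H) * ((n - 1) * H)) := by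
      exact_mod_cast (card_filter_le _ _).trans hUUc
    have e3 : (2 : ℝ) ^ K * ((Fintype.card F : ℝ) ^ (2 * ((n - 1) * H) * ((n - 1) * H)) *
        (Fintype.card F : ℝ) ^ (2 * ((n - 1) * H) * S.card + ((n - 1) * H) * Sᶜ.card)) ≤
        X * (Q : ℝ) ^ (4 * r + M) := by
      rw [hX]
      rw [hm] at hrm
      exact_mod_cast nu_c (l := Sᶜ.card) (s := S.card) (m := (n - 1) * H) hq4 hQ hQ2 hrm hM
    refine (mul_le_mul_of_nonneg_right e2 (by positivity)).trans ?_
    rw [mul_div_assoc', div_le_iff₀ (by positivity)]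
    rw [div_mul_eq_mul_div, one_mul, div_mul_eq_mul_div, le_div_iff₀ (by positivity)]
    linarith
  have hna : (((Sᶜ.card + 1) ^ (2 * ((n - 1) * H)) * Fintype.card F ^
      (6 * ((n - 1) * H) ^ 2 + ((n - 1) * H - 1) * Sᶜ.card + 2 * ((n - 1) * H) * S.card) : ℕ) : ℝ) ≤
      1 / 2 ^ K * X := by
    have e3 : (2 : ℝ) ^ K * (((Sᶜ.card + 1) ^ (2 * ((n - 1) * H)) * Fintype.card F ^
      (6 * ((n - 1) * H) ^ 2 + ((n - 1) * H - 1) * Sᶜ.card + 2 * ((n - 1) * H) * S.card) : ℕ) : ℝ) ≤ X := by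
      rw [hX]
      rw [hm] at hrm hm1
      exact_mod_cast nu_a hq4 hm1 hrm hM hl
    rw [div_mul_eq_mul_div, one_mul, le_div_iff₀ (by positivity)]
    linarith
  have hnb : ((Fintype.card F ^ (2 * ((n - 1) * H) * ((n - 1) * H)) * Fintype.card F ^
        (2 * ((n - 1) * H) * ((n - 1) * H - 1) +
          (((n - 1) * H - 1) * Sᶜ.card + 2 * ((n - 1) * H) * S.card)) : ℕ) : ℝ) ≤ 1 / 2 ^ K * X := by
    have e3 : (2 : ℝ) ^ K * ((Fintype.card F ^ (2 * ((n - 1) * H) * ((n - 1) * H)) * Fintype.card F ^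
        (2 * ((n - 1) * H) * ((n - 1) * H - 1) +
          (((n - 1) * H - 1) * Sᶜ.card + 2 * ((n - 1) * H) * S.card)) : ℕ) : ℝ) ≤ X := by
      rw [hX]
      rw [hm] at hrm hm1
      exact_mod_cast nu_b hq4 hm1 hrm hM hl
    rw [div_mul_eq_mul_div, one_mul, le_div_iff₀ (by positivity)]
    linarith
  have hsplit : ∑ z ∈ ZZ0, ts (Ph Q S B dd x z) -
      (∑ t ∈ range (H + 1), (NS F H t : ℝ) * (Q : ℝ) ^ (t ^ 2)) * X =
      ∑ z ∈ ZZ0.filter (fun z => ¬ MI Q (WW S z)), ts (Ph Q S B dd x z) +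
      (∑ z ∈ ZZ0.filter (fun z => MI Q (WW S z)), ts (Ph Q S B dd x z) - ∑ U ∈ UU, TT U) +
      ∑ U ∈ UU.filter (fun U => ¬ Iso Q U), TT U := by
    rw [← sum_filter_add_sum_filter_not ZZ0 (fun z => MI Q (WW S z)),
      ← sum_filter_add_sum_filter_not UU (fun U => Iso Q U), hTA]
    ring
  rw [← hX, hsplit]
  have e5 : 3 / 2 ^ K * X = 1 / 2 ^ K * X + 1 / 2 ^ K * X + 1 / 2 ^ K * X := by ring
  rw [e5]
  refine (abs_add_le _ _).trans (add_le_add ((abs_add_le _ _).trans (add_le_add ?_ ?_)) hTB)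
  · exact hX1.trans hna
  · exact hX2.trans hnb

end fin

end Pool.Agent.Q68.GL.KLU

namespace Pool.Agent.Q68.GL

open Pool.Agent.Q269.GR (F2 cf ts HU HG)
open Pool.Agent.Q269.GJ
open Pool.Agent.Q269.GL

/-- **GL-KLU.** -/
theorem t_KLU (h1 : S_KUO) (h2 : S_KUG) (h3 : S_KUI) (h4 : S_KUR) : S_KLU := by
  intro F _ _ _ Q hQ n H hn hn3 ε hε
  obtain ⟨K, hK⟩ : ∃ K : ℕ, 3 / ε < 2 ^ K := pow_unbounded_of_one_lt _ (by norm_num)
  refine ⟨K + 20 * ((n - 1) * H) ^ 2 + 20 * ((n - 1) * H) + 20, ?_⟩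
  intro J _ _ S B dd x hx hB hdd inj hG
  rcases Nat.eq_zero_or_pos H with hH | hH
  · subst hH
    have e1 : NS F 0 0 = 1 := by
      unfold NS
      rw [Nat.card_eq_one_iff_unique]
      constructor
      · constructor
        intro a b
        exact Subtype.ext (Subsingleton.elim _ _)
      · refine ⟨⟨⊥, finrank_bot F _⟩⟩
    have e2 : (∑ s : J → J → F, (Nat.card (Kn (HU S B Q s) dd x) : ℝ) ^ 0) =
        (Fintype.card (J → J → F) : ℝ) := by
      simp only [pow_zero]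
      rw [sum_const, card_univ, nsmul_eq_mul, mul_one]
    have e3 : (∑ t ∈ range (0 + 1), (NS F 0 t : ℝ) * (Q : ℝ) ^ (t ^ 2)) = 1 := by
      rw [zero_add, sum_range_one, e1]
      simp
    rw [e2, e3, one_mul, sub_self, abs_zero]
    positivity
  have e0 := h1 F Q hQ n H hn J S B dd x hx hB
  have e1 := KLU.main_sum h2 h3 h4 hQ hn hn3 hH le_rfl S hx hB hdd inj hG
  have hnn : (n - 1) * H * Fintype.card J = (n - 1) * H * S.card + (n - 1) * H * Sᶜ.card := by
    have : S.card + Sᶜ.card = Fintype.card J := card_add_card_compl S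
    rw [← this]
    ring
  have hq0 : (0 : ℝ) < (Fintype.card F : ℝ) ^ ((n - 1) * H * Fintype.card J) := by
    have : (0 : ℝ) < Fintype.card F := by exact_mod_cast Fintype.card_pos
    positivity
  rw [← hnn] at e1
  have hN : (0 : ℝ) ≤ (Fintype.card (J → J → F) : ℝ) := Nat.cast_nonneg _
  have hf : ∑ z ∈ (univ : Finset (J → VH H n F)).filter
        (fun z => ∀ i j, i < j → i ∉ S → j ∉ S → hfh Q (z i) (z j) = 0),
        ts (∑ i, qfh Q (dd i) (x i) (z i) +
          ∑ i, ∑ j, if i < j ∧ (i ∈ S ∨ j ∈ S) then B i j * hfh Q (z i) (z j) else 0) =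
      ∑ z ∈ (univ : Finset (J → VH H n F)).filter
        (fun z => ∀ i j, i < j → i ∉ S → j ∉ S → hfh Q (z i) (z j) = 0), ts (KLU.Ph Q S B dd x z) := by
    refine sum_congr ?_ fun z _ => rfl
    ext z
    simp only [mem_filter]
  rw [hf] at e0
  obtain ⟨Y, hY⟩ : ∃ Y : ℝ, Y = ∑ z ∈ (univ : Finset (J → VH H n F)).filter
        (fun z => ∀ i j, i < j → i ∉ S → j ∉ S → hfh Q (z i) (z j) = 0), ts (KLU.Ph Q S B dd x z) := ⟨_, rfl⟩
  obtain ⟨A, hA⟩ : ∃ A : ℝ, A = ∑ s : J → J → F, (Nat.card (Kn (HU S B Q s) dd x) : ℝ) ^ H := ⟨_, rfl⟩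
  obtain ⟨q, hq⟩ : ∃ q : ℝ, q = (Fintype.card F : ℝ) ^ ((n - 1) * H * Fintype.card J) := ⟨_, rfl⟩
  obtain ⟨C, hC⟩ : ∃ C : ℝ, C = ∑ t ∈ range (H + 1), (NS F H t : ℝ) * (Q : ℝ) ^ (t ^ 2) := ⟨_, rfl⟩
  rw [← hY, ← hq, ← hC] at e1
  rw [← hY, ← hA, ← hq] at e0
  rw [← hq] at hq0
  rw [← hA, ← hC]
  obtain ⟨N, hN'⟩ : ∃ N : ℝ, N = (Fintype.card (J → J → F) : ℝ) := ⟨_, rfl⟩
  rw [← hN'] at hN e0 ⊢
  have h5 : q * |A - C * N| ≤ q * (ε * N) := by
    have h6 : q * |A - C * N| = N * |Y - C * q| := by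
      rw [← abs_of_pos hq0, ← abs_mul, abs_of_pos hq0]
      conv_rhs => rw [← abs_of_nonneg hN, ← abs_mul]
      congr 1
      rw [mul_sub, e0]
      ring
    have h7 : (3 : ℝ) / 2 ^ K ≤ ε := by
      rw [div_le_iff₀ (by positivity)]
      rw [div_lt_iff₀ hε] at hK
      linarith
    rw [h6]
    calc N * |Y - C * q| ≤ N * (3 / 2 ^ K * q) := mul_le_mul_of_nonneg_left e1 hN
      _ ≤ N * (ε * q) := mul_le_mul_of_nonneg_left (mul_le_mul_of_nonneg_right h7 hq0.le) hN
      _ = q * (ε * N) := by ring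
  exact le_of_mul_le_mul_left h5 hq0

end Pool.Agent.Q68.GL
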