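import Pool.Agent.Q68.GL.Base

/-!
# Project GL (helper269): job KUG (helper68)

The proof adapts that of helper190 for project GJ (`Pool/Agent/Q190/GJ/UGAU.lean`).
-/

set_option autoImplicit false
set_option linter.all false

open scoped Classical
open Finset

namespace Pool.Agent.Q68.GL

open Pool.Agent.Q269.GR (F2 cf ts HU)
open Pool.Agent.Q269.GJ
open Pool.Agent.Q269.GL
open Pool.Agent.Q190.GJ
open Pool.Agent.Q65.GR (sum_char charF add_self_F eq_of_add_F ts_zero ts_add ts_sq ts_cases ts_sum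
  exists_ts Q_pow Q_two conj_add conj_zero conj_conj conj_inj conj_ne cf_conj ts_conj exists_ts_conj
  card_fix exists_nonfix ts_fix sum_ts card_pow pow_card_inj pow_card_le sum_s)

/-- **GL-KUG.** -/
theorem t_KUG : S_KUG := by
  intro F _ _ _ Q hQ n h hn hn3 U hU hiso d x hd hx
  refine ⟨fun hz z hzU => ?_, ?_⟩
  · rw [ts_qfh hQ hd x (hiso z hzU z hzU)]
    refine ts_fix hQ ?_
    have h1 := hz z hzU
    rw [gxh_efh hQ] at h1
    exact (eq_of_add_F h1).symm
  · rintro ⟨z₁, hz₁, hne⟩ z₀
    obtain ⟨A, hA⟩ : ∃ A : Finset (VH h n F), A = (univ : Finset (VH h n F)).filter (· ∈ U) := ⟨_, rfl⟩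
    have hAm : ∀ z, z ∈ A ↔ z ∈ U := fun z => by
      rw [hA, Finset.mem_filter]
      exact and_iff_right (Finset.mem_univ _)
    have hh0 : 0 < h := by
      rcases Nat.eq_zero_or_pos h with h0 | h0
      · exfalso
        subst h0
        exact hne (by unfold gxh; rw [Finset.univ_eq_empty, Finset.sum_empty])
      · exact h0
    obtain ⟨m, hm⟩ : ∃ m, (n - 1) * h = m + 1 := by
      have : 0 < (n - 1) * h := Nat.mul_pos (by omega) hh0
      exact ⟨(n - 1) * h - 1, by omega⟩
    rw [hm] at hU ⊢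
    have hAc : A.card = Fintype.card F ^ (m + 1) := by rw [hA, card_filter_subM, hU]
    rw [← hA]
    obtain ⟨f, hf'⟩ : ∃ f : VH h n F → ℝ, ∀ z, f z = ts (efh Q x z) * ts (hfh Q z₀ z) :=
      ⟨_, fun _ => rfl⟩
    have hsum : ∑ z ∈ A, ts (qfh Q d x z + hfh Q z₀ z) = ∑ z ∈ A, f z := by
      refine Finset.sum_congr rfl fun z hz => ?_
      have hzU := (hAm z).1 hz
      rw [ts_add, ts_qfh hQ hd x (hiso z hzU z hzU), hf']
    rw [hsum]
    have hff : ∀ z y, f z * f (z + y) = f y * ts (Gfh Q x z y) := by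
      intro z y
      rw [hf', hf', hf', ts_efh_add hQ, hfh_add_right, ts_add]
      have e1 := ts_sq (efh Q x z)
      have e2 := ts_sq (hfh Q z₀ z)
      linear_combination (ts (efh Q x y) * ts (Gfh Q x z y) * ts (hfh Q z₀ y) *
        (ts (hfh Q z₀ z) * ts (hfh Q z₀ z))) * e1 +
        (ts (efh Q x y) * ts (Gfh Q x z y) * ts (hfh Q z₀ y)) * e2
    have hfabs : ∀ y, |f y| ≤ 1 := by
      intro y
      rw [hf']
      rcases ts_cases (efh Q x y) with h1 | h1 <;> rcases ts_cases (hfh Q z₀ y) with h2 | h2 <;>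
        rw [h1, h2] <;> norm_num
    -- the square of the sum
    have hsq : (∑ z ∈ A, f z) * (∑ z ∈ A, f z) = ∑ y ∈ A, f y * ∑ z ∈ A, ts (Gfh Q x z y) := by
      have h1 : ∀ z ∈ A, ∑ y ∈ A, f y = ∑ y ∈ A, f (z + y) := by
        intro z hz
        have hzU := (hAm z).1 hz
        refine Finset.sum_nbij' (fun y => y - z) (fun y => z + y) ?_ ?_ ?_ ?_ ?_
        · intro y hy
          exact (hAm _).2 (U.sub_mem ((hAm y).1 hy) hzU)
        · intro y hh
          exact (hAm _).2 (U.add_mem hzU ((hAm y).1 hh))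
        · intro y _
          exact add_sub_cancel z y
        · intro y _
          exact add_sub_cancel_left z y
        · intro y _
          rw [add_sub_cancel]
      calc (∑ z ∈ A, f z) * (∑ z ∈ A, f z) = ∑ z ∈ A, f z * ∑ y ∈ A, f y := by
            rw [Finset.sum_mul]
        _ = ∑ z ∈ A, ∑ y ∈ A, f y * ts (Gfh Q x z y) := by
            refine Finset.sum_congr rfl fun z hz => ?_
            rw [h1 z hz, Finset.mul_sum]
            exact Finset.sum_congr rfl fun y _ => hff z y
        _ = ∑ y ∈ A, f y * ∑ z ∈ A, ts (Gfh Q x z y) := by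
            rw [Finset.sum_comm]
            refine Finset.sum_congr rfl fun y _ => ?_
            rw [Finset.mul_sum]
    have hin : ∀ y ∈ A, ∑ z ∈ A, ts (Gfh Q x z y) =
        if y ∈ Rfh Q x U then (Fintype.card F : ℝ) ^ (m + 1) else 0 := by
      intro y hh
      by_cases hR : y ∈ Rfh Q x U
      · rw [if_pos hR]
        rw [Finset.sum_congr rfl fun z hz => by rw [hR.2 z ((hAm z).1 hz), ts_zero],
          Finset.sum_const, hAc, nsmul_eq_mul, mul_one]
        push_cast
        rfl
      · rw [if_neg hR]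
        have hex : ∃ z ∈ U, Gfh Q x z y ≠ 0 := by
          by_contra hcon
          push Not at hcon
          exact hR ⟨(hAm y).1 hh, hcon⟩
        obtain ⟨z, hz, hzh⟩ := hex
        obtain ⟨t, ht⟩ := exists_ts_conj hQ hzh
        rw [hA]
        refine sum_subM U (fun z => ts (Gfh Q x z y)) (fun y₁ _ y₂ _ => ?_)
          (x0 := t • z) (U.smul_mem t hz) ?_
        · change ts (Gfh Q x (y₁ + y₂) y) = _
          rw [Gfh_add_left hQ, ts_add]
        · change ts (Gfh Q x (t • z) y) ≠ 1
          rw [Gfh_smul_left, ht]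
          norm_num
    have hRU : Rfh Q x U < U := by
      refine lt_of_le_of_ne (fun y hh => hh.1) fun heq => ?_
      have h1 : z₁ ∈ Rfh Q x U := by rw [heq]; exact hz₁
      apply hne
      rw [← Gfh_self]
      exact h1.2 z₁ hz₁
    have hRc := card_lt_subM hRU (m := m) hU
    have hF0 : (0 : ℝ) ≤ (Fintype.card F : ℝ) := Nat.cast_nonneg _
    have hbound : (∑ z ∈ A, f z) * (∑ z ∈ A, f z) ≤
        (Fintype.card F : ℝ) ^ m * (Fintype.card F : ℝ) ^ (m + 1) := by
      rw [hsq, Finset.sum_congr rfl fun y hh => by rw [hin y hh]]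
      calc ∑ y ∈ A, f y * (if y ∈ Rfh Q x U then (Fintype.card F : ℝ) ^ (m + 1) else 0) ≤
          ∑ y ∈ A, (if y ∈ Rfh Q x U then (Fintype.card F : ℝ) ^ (m + 1) else 0) := by
            refine Finset.sum_le_sum fun y _ => ?_
            split_ifs
            · have h1 := (abs_le.1 (hfabs y)).2
              have h2 : (0 : ℝ) ≤ (Fintype.card F : ℝ) ^ (m + 1) := pow_nonneg hF0 _
              nlinarith
            · rw [mul_zero]
        _ ≤ ∑ y ∈ (univ : Finset (VH h n F)).filter (· ∈ Rfh Q x U), (Fintype.card F : ℝ) ^ (m + 1) := by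
            rw [Finset.sum_filter]
            refine Finset.sum_le_univ_sum_of_nonneg fun y => ?_
            split_ifs
            · exact pow_nonneg hF0 _
            · exact le_refl _
        _ = (Nat.card (Rfh Q x U) : ℝ) * (Fintype.card F : ℝ) ^ (m + 1) := by
            rw [Finset.sum_const, card_filter_subM, nsmul_eq_mul]
        _ ≤ (Fintype.card F : ℝ) ^ m * (Fintype.card F : ℝ) ^ (m + 1) := by
            refine mul_le_mul_of_nonneg_right ?_ (pow_nonneg hF0 _)
            exact_mod_cast hRc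
    have hQr : (Fintype.card F : ℝ) = (Q : ℝ) ^ 2 := by
      rw [hQ]
      push_cast
      rfl
    have hQ0 : (0 : ℝ) < (Q : ℝ) := by
      have := Q_two hQ
      exact_mod_cast (by omega : 0 < Q)
    have e1 : (Fintype.card F : ℝ) ^ (m + 1) / Q = (Q : ℝ) ^ (2 * m + 1) := by
      rw [hQr, ← pow_mul, div_eq_iff hQ0.ne', ← pow_succ]
      congr 1
    rw [e1]
    refine abs_le_of_sq_le_sq ?_ (pow_nonneg hQ0.le _)
    calc (∑ z ∈ A, f z) ^ 2 = (∑ z ∈ A, f z) * (∑ z ∈ A, f z) := pow_two _
      _ ≤ (Fintype.card F : ℝ) ^ m * (Fintype.card F : ℝ) ^ (m + 1) := hbound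
      _ = ((Q : ℝ) ^ (2 * m + 1)) ^ 2 := by
          rw [hQr, ← pow_mul, ← pow_mul, ← pow_add, ← pow_mul]
          congr 1
          omega

end Pool.Agent.Q68.GL
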