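import Pool.Agent.Q68.GL.Base
import Pool.Agent.Q190.GJ.UISO

/-!
# Project GL (helper269): job KUI (helper68)
-/

set_option autoImplicit false
set_option linter.all false

open scoped Classical
open Finset

namespace Pool.Agent.Q68.GL

open Pool.Agent.Q269.GR (F2 cf ts HU)
open Pool.Agent.Q269.GJ
open Pool.Agent.Q269.GL
open Pool.Agent.Q190.GJ
open Pool.Agent.Q65.GR (sum_char charF add_self_F eq_of_add_F ts_zero ts_add ts_sq ts_cases ts_sum
  exists_ts Q_pow Q_two conj_add conj_zero conj_conj conj_inj conj_ne cf_conj ts_conj exists_ts_conj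
  card_fix exists_nonfix ts_fix sum_ts card_pow pow_card_inj pow_card_le sum_s)

/-! ### surjective additive maps -/

theorem card_ker_mul {A B : Type} [AddCommGroup A] [AddCommGroup B] [Finite A] [Finite B] (φ : A →+ B)
    (hφ : Function.Surjective φ) : Nat.card φ.ker * Nat.card B = Nat.card A := by
  have h1 := AddSubgroup.card_mul_index φ.ker
  rw [AddSubgroup.index_ker, AddMonoidHom.range_eq_top.2 hφ, AddSubgroup.card_top] at h1
  exact h1

/-! ### abstract Hermitian forms -/

/-- a form which is linear in the second variable, and Hermitian -/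
structure HF (F : Type) [Field F] (Q : ℕ) {M : Type} [AddCommGroup M] [Module F M] (b : M → M → F) : Prop where
  add : ∀ x y z, b x (y + z) = b x y + b x z
  smul : ∀ t x y, b x (t • y) = t * b x y
  conj : ∀ x y, b y x = b x y ^ Q

section gen

variable {F : Type} [Field F] [Algebra F2 F] [Fintype F] {Q : ℕ} {M : Type} [AddCommGroup M] [Module F M]
  {b : M → M → F}

theorem HF.add_left (hb : HF F Q b) (hQ : Fintype.card F = Q ^ 2) (x y z : M) : b (x + y) z = b x z + b y z := by
  rw [hb.conj z, hb.add, conj_add hQ, ← hb.conj, ← hb.conj]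

theorem HF.smul_left (hb : HF F Q b) (hQ : Fintype.card F = Q ^ 2) (t : F) (x z : M) : b (t • x) z = t ^ Q * b x z := by
  rw [hb.conj z, hb.smul, mul_pow, ← hb.conj]

theorem HF.zero_right (hb : HF F Q b) (x : M) : b x 0 = 0 := by
  have := hb.smul 0 x 0
  rwa [zero_smul, zero_mul] at this

theorem HF.zero_left (hb : HF F Q b) (hQ : Fintype.card F = Q ^ 2) (x : M) : b 0 x = 0 := by
  rw [hb.conj x, hb.zero_right, conj_zero hQ]

theorem HF.span (hb : HF F Q b) (hQ : Fintype.card F = Q ^ 2) {s : Set M} (hs : ∀ x ∈ s, ∀ y ∈ s, b x y = 0) :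
    ∀ z ∈ Submodule.span F s, ∀ z' ∈ Submodule.span F s, b z z' = 0 := by
  have h1 : ∀ x ∈ s, ∀ z' ∈ Submodule.span F s, b x z' = 0 := by
    intro x hx z' hz'
    induction hz' using Submodule.span_induction with
    | mem y hy => exact hs x hx y hy
    | zero => exact hb.zero_right x
    | add y z _ _ h3 h4 => rw [hb.add, h3, h4, add_zero]
    | smul t y _ h3 => rw [hb.smul, h3, mul_zero]
  intro z hz z' hz'
  induction hz using Submodule.span_induction with
  | mem y hy => exact h1 y hy z' hz'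
  | zero => exact hb.zero_left hQ _
  | add y z _ _ h3 h4 => rw [hb.add_left hQ, h3, h4, add_zero]
  | smul t y _ h3 => rw [hb.smul_left hQ, h3, mul_zero]

/-- polarisation -/
theorem HF.pol (hb : HF F Q b) (hQ : Fintype.card F = Q ^ 2) {W : Submodule F M}
    (h : ∀ z ∈ W, b z z = 0) {z z' : M} (hz : z ∈ W) (hz' : z' ∈ W) : b z z' = 0 := by
  by_contra hA
  obtain ⟨y, hy⟩ := exists_nonfix hQ
  obtain ⟨l, hl⟩ : ∃ l, l = y / b z z' := ⟨_, rfl⟩
  have h1 := h _ (W.add_mem hz (W.smul_mem l hz'))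
  have h4 : y = l * b z z' := by rw [hl, div_mul_cancel₀ _ hA]
  apply hy
  symm
  apply eq_of_add_F
  rw [hb.add, hb.add_left hQ, hb.add_left hQ, hb.smul, hb.smul, hb.smul_left hQ, hb.smul_left hQ, h _ hz, h _ hz',
    mul_zero, mul_zero, zero_add, add_zero, hb.conj z z'] at h1
  rw [h4, mul_pow]
  linear_combination h1

theorem HF.iso [Fintype M] (hb : HF F Q b) (hQ : Fintype.card F = Q ^ 2) (hnd : ∀ y, (∀ x, b x y = 0) → y = 0)
    {W : Submodule F M} (hW : ∀ z ∈ W, ∀ z' ∈ W, b z z' = 0) : Nat.card W ^ 2 ≤ Fintype.card M := by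
  obtain ⟨P, hP⟩ : ∃ P : Finset M, P = univ.filter fun z => ∀ h ∈ W, b z h = 0 := ⟨_, rfl⟩
  have h1 : ∑ z : M, ∑ h ∈ (univ : Finset M).filter (· ∈ W), ts (b z h) =
      ((Nat.card W * P.card : ℕ) : ℝ) := by
    have h2 : ∀ z : M, ∑ h ∈ (univ : Finset M).filter (· ∈ W), ts (b z h) =
        if ∀ h ∈ W, b z h = 0 then (Nat.card W : ℝ) else 0 := by
      intro z
      by_cases hz : ∀ h ∈ W, b z h = 0
      · rw [if_pos hz]
        rw [Finset.sum_congr rfl fun h hh => by
          rw [hz h (Finset.mem_filter.1 hh).2, ts_zero], Finset.sum_const, card_filter_subM,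
          nsmul_eq_mul, mul_one]
      · rw [if_neg hz]
        push Not at hz
        obtain ⟨h, hh, hne⟩ := hz
        obtain ⟨t, ht⟩ := exists_ts hne
        refine sum_subM W (fun x => ts (b z x)) (fun x _ y _ => ?_) (x0 := t • h)
          (W.smul_mem t hh) ?_
        · change ts (b z (x + y)) = _
          rw [hb.add, ts_add]
        · change ts (b z (t • h)) ≠ 1
          rw [hb.smul, ht]
          norm_num
    rw [Finset.sum_congr rfl fun z _ => h2 z, ← Finset.sum_filter, Finset.sum_const, nsmul_eq_mul, hP]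
    push_cast
    rw [mul_comm]
  have h2 : ∑ z : M, ∑ h ∈ (univ : Finset M).filter (· ∈ W), ts (b z h) = ((Fintype.card M : ℕ) : ℝ) := by
    rw [Finset.sum_comm, Finset.sum_eq_single (0 : M)]
    · simp only [hb.zero_right, ts_zero]
      rw [Finset.sum_const, Finset.card_univ, nsmul_eq_mul, mul_one]
    · intro h _ hh
      have hex : ∃ z, b z h ≠ 0 := by
        by_contra hcon
        push Not at hcon
        exact hh (hnd _ hcon)
      obtain ⟨z, hz⟩ := hex
      obtain ⟨t, ht⟩ := exists_ts_conj hQ hz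
      refine sum_char (fun x => ts (b x h)) (fun x y => ?_) (t • z) ?_
      · change ts (b (x + y) h) = _
        rw [hb.add_left hQ, ts_add]
      · change ts (b (t • z) h) ≠ 1
        rw [hb.smul_left hQ, ht]
        norm_num
    · intro h
      exact absurd (Finset.mem_filter.2 ⟨Finset.mem_univ _, W.zero_mem⟩) h
  have h3 : Nat.card W * P.card = Fintype.card M := by
    have := h1.symm.trans h2
    exact_mod_cast this
  have hsub : (univ : Finset M).filter (· ∈ W) ⊆ P := by
    intro z hz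
    rw [Finset.mem_filter] at hz
    rw [hP, Finset.mem_filter]
    exact ⟨Finset.mem_univ _, fun h hh => hW z hz.2 h hh⟩
  have h4 := Finset.card_le_card hsub
  rw [card_filter_subM] at h4
  calc Nat.card W ^ 2 = Nat.card W * Nat.card W := pow_two _
    _ ≤ Nat.card W * P.card := Nat.mul_le_mul_left _ h4
    _ = Fintype.card M := h3

end gen

/-! ### Hermitian matrices -/

section herm

variable {F : Type} [Field F] [Algebra F2 F] [Fintype F] {Q : ℕ}

/-- the Hermitian matrices -/
def Hm (F : Type) [Field F] (Q t : ℕ) : Set (Fin t → Fin t → F) := {M | ∀ i j, M j i = M i j ^ Q}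

theorem card_herm (hQ : Fintype.card F = Q ^ 2) (t : ℕ) : Nat.card (Hm F Q t) = Q ^ (t ^ 2) := by
  let φ : (Fin t → Fin t → F) →+ (Fin t → Fin t → F) :=
    { toFun := fun M i j => M i j + M j i ^ Q
      map_zero' := by
        funext i j
        show (0 : F) + 0 ^ Q = 0
        rw [conj_zero hQ, add_zero]
      map_add' := by
        intro M M'
        funext i j
        show (M i j + M' i j) + (M j i + M' j i) ^ Q = (M i j + M j i ^ Q) + (M' i j + M' j i ^ Q)
        rw [conj_add hQ]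
        ring }
  have hφ : ∀ M i j, φ M i j = M i j + M j i ^ Q := fun _ _ _ => rfl
  have hker : (φ.ker : Set (Fin t → Fin t → F)) = Hm F Q t := by
    ext M
    constructor
    · intro h i j
      have h1 := congrFun (congrFun (AddMonoidHom.mem_ker.1 h) j) i
      rw [hφ] at h1
      exact eq_of_add_F h1
    · intro h
      refine AddMonoidHom.mem_ker.2 ?_
      funext i j
      rw [hφ, h j i]
      exact add_self_F _
  obtain ⟨x, hx⟩ := exists_nonfix hQ
  obtain ⟨s, hs⟩ : ∃ s, s = x + x ^ Q := ⟨_, rfl⟩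
  have hs0 : s ≠ 0 := by
    intro h
    rw [hs] at h
    exact hx (eq_of_add_F h).symm
  have hsc : s ^ Q = s := by
    rw [hs, conj_add hQ, conj_conj hQ, add_comm]
  have hrange : (φ.range : Set (Fin t → Fin t → F)) = Hm F Q t := by
    ext M
    constructor
    · rintro ⟨N, rfl⟩ i j
      rw [hφ, hφ, conj_add hQ, conj_conj hQ, add_comm]
    · intro h
      refine ⟨fun i j => M i j * (x / s), ?_⟩
      funext i j
      rw [hφ, mul_pow, div_pow, hsc, ← h j i, ← mul_add, ← add_div, ← hs, div_self hs0, mul_one]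
  have h1 := AddSubgroup.card_mul_index φ.ker
  rw [AddSubgroup.index_ker] at h1
  have h2 : Nat.card φ.ker = Nat.card (Hm F Q t) := by
    change Nat.card (φ.ker : Set (Fin t → Fin t → F)) = _
    rw [hker]
  have h3 : Nat.card φ.range = Nat.card (Hm F Q t) := by
    change Nat.card (φ.range : Set (Fin t → Fin t → F)) = _
    rw [hrange]
  rw [h2, h3, Nat.card_eq_fintype_card (α := Fin t → Fin t → F), Fintype.card_fun, Fintype.card_fun,
    Fintype.card_fin, hQ] at h1
  have h4 : Nat.card (Hm F Q t) ^ 2 = (Q ^ (t ^ 2)) ^ 2 := by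
    rw [pow_two, h1, ← pow_mul, ← pow_mul, ← pow_mul]
    congr 1
    ring
  exact Nat.pow_left_injective (by norm_num : 2 ≠ 0) h4

end herm

/-! ### the maximal isotropic subspaces -/

section lag

variable {F : Type} [Field F] [Algebra F2 F] [Fintype F] {Q : ℕ} {H t : ℕ}

/-- the Hermitian space -/
abbrev HH (H : ℕ) (F : Type) [Field F] : Type := (Fin H → F) × (Fin H → F)

/-- its form -/
noncomputable def bh (Q : ℕ) (s s' : HH H F) : F := ∑ c, (s.2 c ^ Q * s'.1 c + s'.2 c * s.1 c ^ Q)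

theorem bh_HF (hQ : Fintype.card F = Q ^ 2) : HF F Q (bh Q : HH H F → HH H F → F) where
  add x y z := by
    simp only [bh, Prod.fst_add, Prod.snd_add, Pi.add_apply]
    rw [← sum_add_distrib]
    exact sum_congr rfl fun c _ => by ring
  smul s x y := by
    simp only [bh, Prod.smul_fst, Prod.smul_snd, Pi.smul_apply, smul_eq_mul]
    rw [mul_sum]
    exact sum_congr rfl fun c _ => by ring
  conj x y := by
    simp only [bh]
    rw [conj_sum hQ]
    refine sum_congr rfl fun c _ => ?_
    rw [conj_add hQ, mul_pow, mul_pow, conj_conj hQ, conj_conj hQ]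
    ring

theorem bh_nd (hQ : Fintype.card F = Q ^ 2) (y : HH H F) (h : ∀ x, bh Q x y = 0) : y = 0 := by
  have h1 : ∀ c, y.1 c = 0 := by
    intro c
    have h2 := h (0, Pi.single c 1)
    simp only [bh, Pi.zero_apply, conj_zero hQ, mul_zero, add_zero] at h2
    rw [Finset.sum_eq_single c] at h2
    · rwa [Pi.single_eq_same, one_pow, one_mul] at h2
    · intro c' _ hc'
      rw [Pi.single_eq_of_ne hc', conj_zero hQ, zero_mul]
    · intro hc
      exact absurd (mem_univ _) hc
  have h2 : ∀ c, y.2 c = 0 := by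
    intro c
    have h2 := h (Pi.single c 1, 0)
    simp only [bh, Pi.zero_apply, conj_zero hQ, zero_mul, zero_add] at h2
    rw [Finset.sum_eq_single c] at h2
    · rwa [Pi.single_eq_same, one_pow, mul_one] at h2
    · intro c' _ hc'
      rw [Pi.single_eq_of_ne hc', conj_zero hQ, mul_zero]
    · intro hc
      exact absurd (mem_univ _) hc
  exact Prod.ext (funext h1) (funext h2)

theorem bh_iso (hQ : Fintype.card F = Q ^ 2) {W : Submodule F (HH H F)} (hW : ∀ z ∈ W, ∀ z' ∈ W, bh Q z z' = 0) :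
    Nat.card W ≤ Fintype.card F ^ H := by
  have h1 := (bh_HF (H := H) hQ).iso hQ (bh_nd hQ) hW
  rw [Fintype.card_prod, Fintype.card_fun, Fintype.card_fin, ← pow_two] at h1
  exact le_of_pow_le_pow_left₀ (by norm_num) (Nat.zero_le _) h1

/-- the pairing with the vectors `e j` -/
noncomputable def psi (Q : ℕ) (e : Fin t → Fin H → F) (β : Fin H → F) (j : Fin t) : F := ∑ c, β c ^ Q * e j c

theorem psi_add (hQ : Fintype.card F = Q ^ 2) (e : Fin t → Fin H → F) (β β' : Fin H → F) :
    psi Q e (β + β') = psi Q e β + psi Q e β' := by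
  funext j
  simp only [psi, Pi.add_apply, conj_add hQ]
  rw [← sum_add_distrib]
  exact sum_congr rfl fun c _ => by ring

theorem psi_surj (hQ : Fintype.card F = Q ^ 2) {e : Fin t → Fin H → F} (he : LinearIndependent F e)
    (y : Fin t → F) : ∃ β, psi Q e β = y := by
  obtain ⟨A, hA⟩ : ∃ A : Matrix (Fin t) (Fin H) F, A = Matrix.of e := ⟨_, rfl⟩
  have h1 : LinearIndependent F A.row := by
    rw [hA]
    exact he
  have h2 := LinearIndependent.rank_matrix h1
  have h3 : LinearMap.range A.mulVecLin = ⊤ := by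
    apply Submodule.eq_top_of_finrank_eq
    rw [Module.finrank_fintype_fun_eq_card, ← h2]
    rfl
  obtain ⟨γ, hγ⟩ := LinearMap.range_eq_top.1 h3 y
  refine ⟨fun c => γ c ^ Q, ?_⟩
  rw [← hγ]
  funext j
  rw [Matrix.mulVecLin_apply]
  simp only [psi, conj_conj hQ]
  rw [hA]
  exact sum_congr rfl fun c _ => mul_comm _ _

/-- the subspace attached to a Hermitian matrix -/
noncomputable def LL (hQ : Fintype.card F = Q ^ 2) (e : Fin t → Fin H → F) (M : Fin t → Fin t → F) :
    Submodule F (HH H F) where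
  carrier := {s | ∃ a : Fin t → F, s.1 = ∑ i, a i • e i ∧ ∀ j, psi Q e s.2 j = ∑ i, a i ^ Q * M i j}
  zero_mem' := by
    refine ⟨0, ?_, fun j => ?_⟩
    · rw [Finset.sum_eq_zero fun i _ => by rw [Pi.zero_apply, zero_smul]]
      rfl
    · rw [Finset.sum_eq_zero fun i _ => by rw [Pi.zero_apply, conj_zero hQ, zero_mul]]
      unfold psi
      refine Finset.sum_eq_zero fun c _ => ?_
      rw [Prod.snd_zero, Pi.zero_apply, conj_zero hQ, zero_mul]
  add_mem' := by
    rintro s s' ⟨a, h1, h2⟩ ⟨a', h3, h4⟩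
    refine ⟨a + a', ?_, fun j => ?_⟩
    · rw [Prod.fst_add, h1, h3, ← sum_add_distrib]
      exact sum_congr rfl fun i _ => by rw [Pi.add_apply, add_smul]
    · rw [Prod.snd_add, psi_add hQ, Pi.add_apply, h2, h4, ← sum_add_distrib]
      exact sum_congr rfl fun i _ => by rw [Pi.add_apply, conj_add hQ, add_mul]
  smul_mem' := by
    rintro r s ⟨a, h1, h2⟩
    refine ⟨r • a, ?_, fun j => ?_⟩
    · rw [Prod.smul_fst, h1, smul_sum]
      exact sum_congr rfl fun i _ => by rw [Pi.smul_apply, smul_assoc]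
    · have h3 : psi Q e (r • s).2 j = r ^ Q * psi Q e s.2 j := by
        simp only [psi, Prod.smul_snd, Pi.smul_apply, smul_eq_mul, mul_pow]
        rw [mul_sum]
        exact sum_congr rfl fun c _ => by ring
      rw [h3, h2, mul_sum]
      exact sum_congr rfl fun i _ => by rw [Pi.smul_apply, smul_eq_mul, mul_pow]; ring

theorem mem_LL {hQ : Fintype.card F = Q ^ 2} {e : Fin t → Fin H → F} {M : Fin t → Fin t → F} {s : HH H F} :
    s ∈ LL hQ e M ↔ ∃ a : Fin t → F, s.1 = ∑ i, a i • e i ∧ ∀ j, psi Q e s.2 j = ∑ i, a i ^ Q * M i j := Iff.rfl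

theorem li_inj {e : Fin t → Fin H → F} (he : LinearIndependent F e) {a a' : Fin t → F}
    (h : ∑ i, a i • e i = ∑ i, a' i • e i) : a = a' := by
  have h1 : ∑ i, (a i - a' i) • e i = 0 := by
    simp only [sub_smul, sum_sub_distrib]
    rw [h, sub_self]
  have h2 := Fintype.linearIndependent_iff.1 he _ h1
  funext i
  exact sub_eq_zero.1 (h2 i)

theorem card_LL (hQ : Fintype.card F = Q ^ 2) {e : Fin t → Fin H → F} (he : LinearIndependent F e)
    (M : Fin t → Fin t → F) : Nat.card (LL hQ e M) = Fintype.card F ^ H := by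
  let φ : ((Fin t → F) × (Fin H → F)) →+ (Fin t → F) :=
    { toFun := fun x => psi Q e x.2 + fun j => ∑ i, x.1 i ^ Q * M i j
      map_zero' := by
        funext j
        have h1 : psi Q e (0 : Fin H → F) j = 0 := Finset.sum_eq_zero fun c _ => by
          rw [Pi.zero_apply, conj_zero hQ, zero_mul]
        have h2 : ∑ i, (0 : Fin t → F) i ^ Q * M i j = 0 := Finset.sum_eq_zero fun c _ => by
          rw [Pi.zero_apply, conj_zero hQ, zero_mul]
        show psi Q e (0 : Fin H → F) j + ∑ i, (0 : Fin t → F) i ^ Q * M i j = 0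
        rw [h1, h2, add_zero]
      map_add' := by
        intro x y
        funext j
        have h1 : ∑ i, (x.1 + y.1) i ^ Q * M i j = ∑ i, x.1 i ^ Q * M i j + ∑ i, y.1 i ^ Q * M i j := by
          rw [← sum_add_distrib]
          exact sum_congr rfl fun i _ => by rw [Pi.add_apply, conj_add hQ, add_mul]
        show psi Q e (x.2 + y.2) j + ∑ i, (x.1 + y.1) i ^ Q * M i j = (psi Q e x.2 j + ∑ i, x.1 i ^ Q * M i j) +
          (psi Q e y.2 j + ∑ i, y.1 i ^ Q * M i j)
        rw [psi_add hQ, Pi.add_apply, h1]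
        ring }
  have hφ : ∀ x j, φ x j = psi Q e x.2 j + ∑ i, x.1 i ^ Q * M i j := fun _ _ => rfl
  have hsurj : Function.Surjective φ := by
    intro y
    obtain ⟨β, hβ⟩ := psi_surj hQ he y
    refine ⟨(0, β), ?_⟩
    funext j
    rw [hφ, hβ, Finset.sum_eq_zero fun i _ => by
      show (0 : F) ^ Q * M i j = 0
      rw [conj_zero hQ, zero_mul], add_zero]
  have h1 := card_ker_mul φ hsurj
  have h2 : Nat.card φ.ker = Nat.card (LL hQ e M) := by
    have hm : ∀ x : φ.ker, ((∑ i, x.1.1 i • e i, x.1.2) : HH H F) ∈ LL hQ e M := by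
      intro x
      refine ⟨x.1.1, rfl, fun j => ?_⟩
      have h3 := congrFun (AddMonoidHom.mem_ker.1 x.2) j
      rw [hφ] at h3
      exact eq_of_add_F h3
    refine Nat.card_congr (Equiv.ofBijective (fun x => (⟨_, hm x⟩ : LL hQ e M)) ⟨?_, ?_⟩)
    · intro x y hxy
      have h3 := congrArg Subtype.val hxy
      have h4 : ∑ i, x.1.1 i • e i = ∑ i, y.1.1 i • e i := congrArg (fun s : HH H F => s.1) h3
      have h5 : x.1.2 = y.1.2 := congrArg (fun s : HH H F => s.2) h3
      exact Subtype.ext (Prod.ext (li_inj he h4) h5)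
    · rintro ⟨s, a, h3, h4⟩
      refine ⟨⟨(a, s.2), ?_⟩, ?_⟩
      · refine AddMonoidHom.mem_ker.2 ?_
        funext j
        rw [hφ]
        show psi Q e s.2 j + ∑ i, a i ^ Q * M i j = 0
        rw [h4 j]
        exact add_self_F _
      · exact Subtype.ext (Prod.ext h3.symm rfl)
  rw [h2, Nat.card_eq_fintype_card (α := Fin t → F), Nat.card_eq_fintype_card (α := (Fin t → F) × (Fin H → F)),
    Fintype.card_prod, Fintype.card_fun, Fintype.card_fun, Fintype.card_fin, Fintype.card_fin, mul_comm] at h1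
  exact Nat.eq_of_mul_eq_mul_left (pow_pos Fintype.card_pos t) h1

theorem iso_LL (hQ : Fintype.card F = Q ^ 2) {e : Fin t → Fin H → F} {M : Fin t → Fin t → F}
    (hM : M ∈ Hm F Q t) : ∀ s ∈ LL hQ e M, ∀ s' ∈ LL hQ e M, bh Q s s' = 0 := by
  rintro s ⟨a, h1, h2⟩ s' ⟨a', h3, h4⟩
  have key : ∀ (s s' : HH H F) (a a' : Fin t → F), (∀ j, psi Q e s.2 j = ∑ i, a i ^ Q * M i j) →
      s'.1 = ∑ i, a' i • e i → ∑ c, s.2 c ^ Q * s'.1 c = ∑ i, ∑ j, a i ^ Q * a' j * M i j := by
    intro s s' a a' h5 h6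
    have h7 : ∀ c, s'.1 c = ∑ j, a' j * e j c := by
      intro c
      rw [h6, Finset.sum_apply]
      exact sum_congr rfl fun j _ => rfl
    simp only [h7, mul_sum]
    rw [sum_comm]
    have h8 : ∀ j, ∑ c, s.2 c ^ Q * (a' j * e j c) = ∑ i, a i ^ Q * a' j * M i j := by
      intro j
      have h9 : ∑ c, s.2 c ^ Q * (a' j * e j c) = a' j * psi Q e s.2 j := by
        unfold psi
        rw [mul_sum]
        exact sum_congr rfl fun c _ => by ring
      rw [h9, h5 j, mul_sum]
      exact sum_congr rfl fun i _ => by ring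
    rw [sum_congr rfl fun j _ => h8 j, sum_comm]
  have e1 := key s s' a a' h2 h3
  have e2 := key s' s a' a h4 h1
  have e3 : ∑ c, s'.2 c * s.1 c ^ Q = (∑ c, s'.2 c ^ Q * s.1 c) ^ Q := by
    rw [conj_sum hQ]
    exact sum_congr rfl fun c _ => by rw [mul_pow, conj_conj hQ]
  unfold bh
  rw [sum_add_distrib, e1, e3, e2, conj_sum hQ]
  have e4 : ∑ i, (∑ j, a' i ^ Q * a j * M i j) ^ Q = ∑ i, ∑ j, a i ^ Q * a' j * M i j := by
    rw [sum_comm (f := fun i j => a i ^ Q * a' j * M i j)]
    refine sum_congr rfl fun i _ => ?_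
    rw [conj_sum hQ]
    refine sum_congr rfl fun j _ => ?_
    rw [mul_pow, mul_pow, conj_conj hQ, hM i j]
    ring
  rw [e4]
  exact add_self_F _

theorem fst_LL (hQ : Fintype.card F = Q ^ 2) {e : Fin t → Fin H → F} (he : LinearIndependent F e)
    (M : Fin t → Fin t → F) :
    (LL hQ e M).map (LinearMap.fst F (Fin H → F) (Fin H → F)) = Submodule.span F (Set.range e) := by
  ext α
  rw [Submodule.mem_map, Submodule.mem_span_range_iff_exists_fun]
  constructor
  · rintro ⟨s, ⟨a, h1, h2⟩, rfl⟩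
    exact ⟨a, h1.symm⟩
  · rintro ⟨a, rfl⟩
    obtain ⟨β, hβ⟩ := psi_surj hQ he (fun j => ∑ i, a i ^ Q * M i j)
    exact ⟨(∑ i, a i • e i, β), ⟨a, rfl, fun j => congrFun hβ j⟩, rfl⟩

theorem inj_LL (hQ : Fintype.card F = Q ^ 2) {e : Fin t → Fin H → F} (he : LinearIndependent F e)
    {M M' : Fin t → Fin t → F} (h : LL hQ e M = LL hQ e M') : M = M' := by
  funext i j
  have e1 : ∀ N : Fin t → Fin t → F, ∀ j, ∑ k, (Pi.single i (1 : F) : Fin t → F) k ^ Q * N k j = N i j := by
    intro N j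
    rw [Finset.sum_eq_single i]
    · rw [Pi.single_eq_same, one_pow, one_mul]
    · intro k _ hk
      rw [Pi.single_eq_of_ne hk, conj_zero hQ, zero_mul]
    · intro hk
      exact absurd (mem_univ _) hk
  obtain ⟨β, hβ⟩ := psi_surj hQ he (M i)
  have h1 : ((∑ k, (Pi.single i (1 : F) : Fin t → F) k • e k, β) : HH H F) ∈ LL hQ e M := by
    refine ⟨Pi.single i 1, rfl, fun j => ?_⟩
    rw [e1]
    exact congrFun hβ j
  rw [h] at h1
  obtain ⟨a, h2, h3⟩ := h1
  have h4 := li_inj he h2
  have h5 := h3 j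
  rw [← h4, e1] at h5
  rw [← h5]
  exact (congrFun hβ j).symm

theorem surj_LL (hQ : Fintype.card F = Q ^ 2) {e : Fin t → Fin H → F} (he : LinearIndependent F e)
    {L : Submodule F (HH H F)} (hc : Nat.card L = Fintype.card F ^ H) (hL : ∀ s ∈ L, ∀ s' ∈ L, bh Q s s' = 0)
    (hf : L.map (LinearMap.fst F (Fin H → F) (Fin H → F)) = Submodule.span F (Set.range e)) :
    ∃ M ∈ Hm F Q t, LL hQ e M = L := by
  have h1 : ∀ i, ∃ β, ((e i, β) : HH H F) ∈ L := by
    intro i
    have h2 : e i ∈ Submodule.span F (Set.range e) := Submodule.subset_span ⟨i, rfl⟩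
    rw [← hf] at h2
    obtain ⟨s, hs, hs2⟩ := h2
    refine ⟨s.2, ?_⟩
    rw [← hs2]
    exact hs
  choose β hβ using h1
  have hsw : ∀ i j, ∑ c, β j c * e i c ^ Q = psi Q e (β j) i ^ Q := by
    intro i j
    unfold psi
    rw [conj_sum hQ]
    exact sum_congr rfl fun c _ => by rw [mul_pow, conj_conj hQ]
  have hM : (fun i j => psi Q e (β i) j) ∈ Hm F Q t := by
    intro i j
    have h2 := hL _ (hβ j) _ (hβ i)
    unfold bh at h2
    rw [sum_add_distrib] at h2
    change psi Q e (β j) i + ∑ c, β i c * e j c ^ Q = 0 at h2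
    rw [hsw j i] at h2
    exact eq_of_add_F h2
  refine ⟨_, hM, ?_⟩
  symm
  refine eq_of_le_cardM ?_ (by rw [card_LL hQ he, hc])
  intro s hs
  have h2 : s.1 ∈ Submodule.span F (Set.range e) := by
    rw [← hf]
    exact ⟨s, hs, rfl⟩
  rw [Submodule.mem_span_range_iff_exists_fun] at h2
  obtain ⟨a, ha⟩ := h2
  refine ⟨a, ha.symm, fun j => ?_⟩
  have h3 := hL _ hs _ (hβ j)
  unfold bh at h3
  rw [sum_add_distrib] at h3
  change psi Q e s.2 j + ∑ c, β j c * s.1 c ^ Q = 0 at h3
  rw [eq_of_add_F h3]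
  have h4 : ∀ c, s.1 c ^ Q = ∑ i, a i ^ Q * e i c ^ Q := by
    intro c
    rw [← ha, Finset.sum_apply, conj_sum hQ]
    exact sum_congr rfl fun i _ => by rw [Pi.smul_apply, smul_eq_mul, mul_pow]
  simp only [h4, mul_sum]
  rw [sum_comm]
  refine sum_congr rfl fun i _ => ?_
  have h5 : ∑ c, β j c * (a i ^ Q * e i c ^ Q) = a i ^ Q * ∑ c, β j c * e i c ^ Q := by
    rw [mul_sum]
    exact sum_congr rfl fun c _ => by ring
  rw [h5, hsw i j]
  congr 1
  exact (hM j i).symm

/-- the maximal isotropic subspaces -/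
def Lg (F : Type) [Field F] [Fintype F] (Q H : ℕ) : Set (Submodule F (HH H F)) :=
  {L | Nat.card L = Fintype.card F ^ H ∧ ∀ s ∈ L, ∀ s' ∈ L, bh Q s s' = 0}

theorem ncard_fib (hQ : Fintype.card F = Q ^ 2) (T : Submodule F (Fin H → F)) :
    {L ∈ Lg F Q H | L.map (LinearMap.fst F (Fin H → F) (Fin H → F)) = T}.ncard =
      Q ^ (Module.finrank F T) ^ 2 := by
  obtain ⟨b, -⟩ : ∃ b : Module.Basis (Fin (Module.finrank F T)) F T, True := ⟨Module.finBasis F T, trivial⟩
  obtain ⟨e, he'⟩ : ∃ e : Fin (Module.finrank F T) → Fin H → F, ∀ i, e i = (b i : Fin H → F) := ⟨_, fun _ => rfl⟩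
  have he : LinearIndependent F e := by
    have h1 : e = T.subtype ∘ b := funext he'
    rw [h1]
    exact b.linearIndependent.map' _ (Submodule.ker_subtype T)
  have hsp : Submodule.span F (Set.range e) = T := by
    have h1 : e = T.subtype ∘ b := funext he'
    rw [h1, Set.range_comp, ← Submodule.map_span, b.span_eq, Submodule.map_top, Submodule.range_subtype]
  rw [← card_herm hQ (Module.finrank F T)]
  have h1 : {L ∈ Lg F Q H | L.map (LinearMap.fst F (Fin H → F) (Fin H → F)) = T} =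
      (fun M => LL hQ e M) '' Hm F Q (Module.finrank F T) := by
    ext L
    constructor
    · rintro ⟨⟨h2, h3⟩, h4⟩
      rw [← hsp] at h4
      obtain ⟨M, hM, hM2⟩ := surj_LL hQ he h2 h3 h4
      exact ⟨M, hM, hM2⟩
    · rintro ⟨M, hM, rfl⟩
      refine ⟨⟨card_LL hQ he M, iso_LL hQ hM⟩, ?_⟩
      rw [fst_LL hQ he, hsp]
  rw [h1, Set.ncard_image_of_injective _ fun M M' h => inj_LL hQ he h, Nat.card_coe_set_eq]

theorem ncard_Lg (hQ : Fintype.card F = Q ^ 2) :
    (Lg F Q H).ncard = ∑ t ∈ range (H + 1), NS F H t * Q ^ (t ^ 2) := by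
  haveI : Fintype (Submodule F (HH H F)) := Fintype.ofFinite _
  haveI : Fintype (Submodule F (Fin H → F)) := Fintype.ofFinite _
  have h1 : (Lg F Q H).ncard = (univ.filter fun L : Submodule F (HH H F) => L ∈ Lg F Q H).card := by
    rw [← Set.ncard_coe_finset]
    congr 1
    ext L
    simp
  rw [h1, Finset.card_eq_sum_card_fiberwise (t := (univ : Finset (Submodule F (Fin H → F))))
    (f := fun L : Submodule F (HH H F) => L.map (LinearMap.fst F (Fin H → F) (Fin H → F)))
    (fun L _ => Finset.mem_coe.2 (mem_univ _))]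
  have h2 : ∀ T : Submodule F (Fin H → F),
      ((univ.filter fun L : Submodule F (HH H F) => L ∈ Lg F Q H).filter fun L =>
        L.map (LinearMap.fst F (Fin H → F) (Fin H → F)) = T).card = Q ^ (Module.finrank F T) ^ 2 := by
    intro T
    rw [← ncard_fib hQ T, ← Set.ncard_coe_finset]
    congr 1
    ext L
    simp
  rw [Finset.sum_congr rfl fun T _ => h2 T]
  have h3 : ∀ T : Submodule F (Fin H → F), Module.finrank F T ∈ range (H + 1) := by
    intro T
    rw [Finset.mem_range]
    have := Submodule.finrank_le T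
    rw [Module.finrank_fintype_fun_eq_card, Fintype.card_fin] at this
    omega
  rw [← Finset.sum_fiberwise_of_maps_to (fun T _ => h3 T)]
  refine Finset.sum_congr rfl fun t _ => ?_
  rw [Finset.sum_congr rfl fun T hT => by rw [(Finset.mem_filter.1 hT).2], Finset.sum_const, smul_eq_mul]
  congr 1
  unfold NS
  rw [Nat.card_eq_fintype_card, Fintype.card_subtype]

end lag

/-! ### the subspaces of `V^h` -/

section sub

variable {F : Type} [Field F] [Algebra F2 F] [Fintype F] {Q : ℕ} {n H : ℕ}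

/-- the components -/
noncomputable def em (a : Fin n) : VH H n F →ₗ[F] HH H F where
  toFun z := (fun c => (z c).1.1 a, fun c => (z c).2.1 a)
  map_add' z z' := rfl
  map_smul' t z := rfl

theorem em_sum (z : VH H n F) : ∑ a, em a z = 0 := by
  refine Prod.ext ?_ ?_
  · rw [Prod.fst_sum]
    funext c
    rw [Finset.sum_apply]
    exact W0_sum (z c).1
  · rw [Prod.snd_sum]
    funext c
    rw [Finset.sum_apply]
    exact W0_sum (z c).2

/-- the subspace of the vectors with all the components in `L` -/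
noncomputable def UL (n : ℕ) (L : Submodule F (HH H F)) : Submodule F (VH H n F) := ⨅ a : Fin n, L.comap (em a)

theorem mem_UL {L : Submodule F (HH H F)} {z : VH H n F} : z ∈ UL n L ↔ ∀ a, em a z ∈ L := by
  unfold UL
  rw [Submodule.mem_iInf]
  rfl

theorem card_UL (hn3 : 3 ≤ n) (L : Submodule F (HH H F)) : Nat.card (UL n L) = Nat.card L ^ (n - 1) := by
  let φ : (Fin n → L) →+ L :=
    { toFun := fun s => ∑ a, s a
      map_zero' := Finset.sum_const_zero
      map_add' := fun s s' => sum_add_distrib }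
  have hφ : ∀ s, φ s = ∑ a, s a := fun _ => rfl
  have hsurj : Function.Surjective φ := by
    intro y
    refine ⟨Pi.single ⟨0, by omega⟩ y, ?_⟩
    rw [hφ, Finset.sum_pi_single', if_pos (mem_univ _)]
  have h1 := card_ker_mul φ hsurj
  have h2 : Nat.card φ.ker = Nat.card (UL n L) := by
    symm
    have hm : ∀ z : UL n L, (fun a => (⟨em a z.1, mem_UL.1 z.2 a⟩ : L)) ∈ φ.ker := by
      intro z
      refine AddMonoidHom.mem_ker.2 ?_
      rw [hφ]
      refine Subtype.ext ?_
      rw [AddSubmonoidClass.coe_finset_sum]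
      exact em_sum z.1
    refine Nat.card_congr (Equiv.ofBijective (fun z => (⟨_, hm z⟩ : φ.ker)) ⟨?_, ?_⟩)
    · intro z z' h
      have h3 := congrArg Subtype.val h
      have h4 : ∀ a, em a z.1 = em a z'.1 := fun a => congrArg Subtype.val (congrFun h3 a)
      refine Subtype.ext ?_
      funext c
      refine Prod.ext (Subtype.ext ?_) (Subtype.ext ?_)
      · funext a
        exact congrFun (congrArg Prod.fst (h4 a)) c
      · funext a
        exact congrFun (congrArg Prod.snd (h4 a)) c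
    · rintro ⟨s, hs⟩
      have h3 : ∑ a, (s a : HH H F) = 0 := by
        have h4 := congrArg Subtype.val (AddMonoidHom.mem_ker.1 hs)
        rw [hφ, AddSubmonoidClass.coe_finset_sum] at h4
        exact h4
      have h4 : ∀ c, ∑ a, (s a : HH H F).1 c = 0 := by
        intro c
        have h5 := congrFun (congrArg Prod.fst h3) c
        rw [Prod.fst_sum, Finset.sum_apply] at h5
        exact h5
      have h5 : ∀ c, ∑ a, (s a : HH H F).2 c = 0 := by
        intro c
        have h5 := congrFun (congrArg Prod.snd h3) c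
        rw [Prod.snd_sum, Finset.sum_apply] at h5
        exact h5
      refine ⟨⟨fun c => (⟨fun a => (s a : HH H F).1 c, h4 c⟩, ⟨fun a => (s a : HH H F).2 c, h5 c⟩), ?_⟩, ?_⟩
      · rw [mem_UL]
        intro a
        exact (s a).2
      · refine Subtype.ext ?_
        funext a
        exact Subtype.ext rfl
  rw [h2, Nat.card_pi, Finset.prod_const, Finset.card_univ, Fintype.card_fin] at h1
  have h3 : 0 < Nat.card L := Nat.card_pos
  refine Nat.eq_of_mul_eq_mul_right h3 ?_
  rw [h1, ← pow_succ]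
  congr 1
  omega

theorem hfh_em (z z' : VH H n F) : hfh Q z z' = ∑ a, bh Q (em a z) (em a z') := by
  unfold hfh hf bh
  rw [sum_comm]
  rfl

/-- the differences of the components -/
noncomputable def dm (a b : Fin n) : VH H n F →ₗ[F] HH H F := em a + em b

theorem dm_apply (a b : Fin n) (z : VH H n F) : dm a b z = em a z + em b z := rfl

theorem add_selfM {M : Type} [AddCommGroup M] [Module F M] (x : M) : x + x = 0 := by
  have h1 : (1 + 1 : F) • x = 0 := by
    rw [add_self_F (1 : F), zero_smul]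
  rwa [add_smul, one_smul] at h1

theorem gxh_dm (hQ : Fintype.card F = Q ^ 2) (x : Fin n → Fin n → F2) (z : VH H n F) :
    gxh Q x z = ∑ a, ∑ b, cf (x a b) * ∑ c, ((z c).2.1 a ^ Q * ((z c).1.1 a + (z c).1.1 b) +
      (z c).2.1 a * ((z c).1.1 a + (z c).1.1 b) ^ Q) := by
  have h1 : ∀ (c : Fin H) (a : Fin n), (z c).2.1 a ^ Q * lap x (z c).1.1 a + (z c).2.1 a * lap x (z c).1.1 a ^ Q =
      ∑ b, cf (x a b) * ((z c).2.1 a ^ Q * ((z c).1.1 a + (z c).1.1 b) +
      (z c).2.1 a * ((z c).1.1 a + (z c).1.1 b) ^ Q) := by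
    intro c a
    unfold lap
    rw [conj_sum hQ, mul_sum, mul_sum, ← sum_add_distrib]
    refine sum_congr rfl fun b _ => ?_
    rw [mul_pow, cf_conj hQ]
    ring
  unfold gxh gx
  rw [sum_comm]
  refine sum_congr rfl fun a _ => ?_
  rw [sum_congr rfl fun c _ => h1 c a, sum_comm]
  exact sum_congr rfl fun b _ => (mul_sum _ _ _).symm

theorem UL_mem (hQ : Fintype.card F = Q ^ 2) (hn3 : 3 ≤ n) {L : Submodule F (HH H F)} (hL : L ∈ Lg F Q H) :
    Nat.card (UL n L) = Fintype.card F ^ ((n - 1) * H) ∧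
    (∀ z ∈ UL n L, ∀ z' ∈ UL n L, hfh Q z z' = 0) ∧
    ∀ x : Fin n → Fin n → F2, Sy x → ∀ z ∈ UL n L, gxh Q x z = 0 := by
  refine ⟨?_, ?_, ?_⟩
  · rw [card_UL hn3, hL.1, ← pow_mul]
    congr 1
    ring
  · intro z hz z' hz'
    rw [hfh_em]
    exact sum_eq_zero fun a _ => hL.2 _ (mem_UL.1 hz a) _ (mem_UL.1 hz' a)
  · intro x hx z hz
    rw [gxh_dm hQ, ← Fintype.sum_prod_type']
    refine Finset.sum_involution (fun p _ => (p.2, p.1)) ?_ ?_ (fun p _ => mem_univ _) (fun p _ => rfl)
    · intro p _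
      have h1 : ∑ c, ((z c).2.1 p.1 ^ Q * ((z c).1.1 p.1 + (z c).1.1 p.2) +
          (z c).2.1 p.1 * ((z c).1.1 p.1 + (z c).1.1 p.2) ^ Q) +
          ∑ c, ((z c).2.1 p.2 ^ Q * ((z c).1.1 p.2 + (z c).1.1 p.1) +
          (z c).2.1 p.2 * ((z c).1.1 p.2 + (z c).1.1 p.1) ^ Q) =
          bh Q (dm p.1 p.2 z) (dm p.1 p.2 z) := by
        unfold bh
        rw [← sum_add_distrib]
        refine sum_congr rfl fun c _ => ?_
        change _ = ((z c).2.1 p.1 + (z c).2.1 p.2) ^ Q * ((z c).1.1 p.1 + (z c).1.1 p.2) +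
          ((z c).2.1 p.1 + (z c).2.1 p.2) * ((z c).1.1 p.1 + (z c).1.1 p.2) ^ Q
        rw [conj_add hQ ((z c).2.1 p.1), add_comm ((z c).1.1 p.2)]
        ring
      have h2 : bh Q (dm p.1 p.2 z) (dm p.1 p.2 z) = 0 :=
        hL.2 _ (L.add_mem (mem_UL.1 hz _) (mem_UL.1 hz _)) _ (L.add_mem (mem_UL.1 hz _) (mem_UL.1 hz _))
      change cf (x p.1 p.2) * _ + cf (x p.2 p.1) * _ = 0
      rw [hx p.2 p.1, ← mul_add, h1, h2, mul_zero]
    · intro p _ hp h3
      apply hp
      have h4 : p.2 = p.1 := congrArg Prod.fst h3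
      rw [h4]
      have h5 : ∑ c, ((z c).2.1 p.1 ^ Q * ((z c).1.1 p.1 + (z c).1.1 p.1) +
          (z c).2.1 p.1 * ((z c).1.1 p.1 + (z c).1.1 p.1) ^ Q) = 0 :=
        sum_eq_zero fun c _ => by rw [add_self_F, conj_zero hQ, mul_zero, mul_zero, add_zero]
      rw [h5, mul_zero]

theorem UL_inj (hn3 : 3 ≤ n) : Function.Injective (UL n : Submodule F (HH H F) → Submodule F (VH H n F)) := by
  have key : ∀ L L' : Submodule F (HH H F), UL n L = UL n L' → L ≤ L' := by
    intro L L' h s hs
    obtain ⟨a₀, ha₀⟩ : ∃ a : Fin n, a = ⟨0, by omega⟩ := ⟨_, rfl⟩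
    obtain ⟨b₀, hb₀⟩ : ∃ a : Fin n, a = ⟨1, by omega⟩ := ⟨_, rfl⟩
    have hab : a₀ ≠ b₀ := by
      rw [ha₀, hb₀]
      intro h
      exact absurd (congrArg Fin.val h) (by norm_num)
    obtain ⟨z, hz⟩ : ∃ z : VH H n F, z = fun c => (pv a₀ b₀ (s.1 c), pv a₀ b₀ (s.2 c)) := ⟨_, rfl⟩
    have hit1 : ∀ (p : Prop) [Decidable p] (c : Fin H), (if p then s else 0).1 c = if p then s.1 c else 0 := by
      intro p _ c
      by_cases hp : p
      · rw [if_pos hp, if_pos hp]
      · rw [if_neg hp, if_neg hp]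
        rfl
    have hit2 : ∀ (p : Prop) [Decidable p] (c : Fin H), (if p then s else 0).2 c = if p then s.2 c else 0 := by
      intro p _ c
      by_cases hp : p
      · rw [if_pos hp, if_pos hp]
      · rw [if_neg hp, if_neg hp]
        rfl
    have h1 : ∀ a, em a z = (if a = a₀ then s else 0) + (if a = b₀ then s else 0) := by
      intro a
      rw [hz]
      refine Prod.ext ?_ ?_
      · funext c
        show (if a = a₀ then s.1 c else 0) + (if a = b₀ then s.1 c else 0) = _
        rw [Prod.fst_add, Pi.add_apply, hit1, hit1]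
      · funext c
        show (if a = a₀ then s.2 c else 0) + (if a = b₀ then s.2 c else 0) = _
        rw [Prod.snd_add, Pi.add_apply, hit2, hit2]
    have h2 : z ∈ UL n L := by
      rw [mem_UL]
      intro a
      rw [h1]
      refine L.add_mem ?_ ?_
      · split_ifs
        · exact hs
        · exact L.zero_mem
      · split_ifs
        · exact hs
        · exact L.zero_mem
    rw [h, mem_UL] at h2
    have h3 := h2 a₀
    rwa [h1, if_pos rfl, if_neg hab, add_zero] at h3
  intro L L' h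
  exact le_antisymm (key L L' h) (key L' L h.symm)

theorem gxh_ip (hQ : Fintype.card F = Q ^ 2) {a b : Fin n} (hab : a ≠ b) (z : VH H n F) :
    gxh Q (ip a b) z = bh Q (dm a b z) (dm a b z) := by
  unfold gxh
  rw [sum_congr rfl fun c _ => gx_ip hQ hab (z c)]
  rfl

theorem UL_surj (hQ : Fintype.card F = Q ^ 2) (hn : Odd n) (hn3 : 3 ≤ n) {U : Submodule F (VH H n F)}
    (hU : Nat.card U = Fintype.card F ^ ((n - 1) * H))
    (hg : ∀ x : Fin n → Fin n → F2, Sy x → ∀ z ∈ U, gxh Q x z = 0) :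
    ∃ L ∈ Lg F Q H, UL n L = U := by
  have hb := bh_HF (F := F) (H := H) hQ
  have hpol : ∀ a b : Fin n, a ≠ b → ∀ z ∈ U, ∀ z' ∈ U, bh Q (dm a b z) (dm a b z') = 0 := by
    intro a b hab z hz z' hz'
    refine hb.pol hQ (W := U.map (dm a b)) ?_ (Submodule.mem_map_of_mem hz) (Submodule.mem_map_of_mem hz')
    rintro _ ⟨y, hy, rfl⟩
    rw [← gxh_ip hQ hab]
    exact hg _ (ip_sy a b) y hy
  obtain ⟨l₀, hl₀⟩ : ∃ l : Fin n, l = ⟨0, by omega⟩ := ⟨_, rfl⟩
  have hem0 : ∀ z : VH H n F, em l₀ z = ∑ l, dm l l₀ z := by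
    intro z
    have h1 : ∑ l : Fin n, dm l l₀ z = ∑ l : Fin n, em l z + ∑ l : Fin n, em l₀ z := by
      rw [← sum_add_distrib]
      rfl
    rw [h1, em_sum, zero_add, Finset.sum_const, Finset.card_univ, Fintype.card_fin]
    have h2 : (n • em l₀ z : HH H F) = ((n : F) • em l₀ z) := (Nat.cast_smul_eq_nsmul F n _).symm
    rw [h2, odd_cast hn, one_smul]
  have hzero : ∀ z : VH H n F, (∀ l, l ≠ l₀ → dm l l₀ z = 0) → z = 0 := by
    intro z hz
    have h1 : ∀ l, dm l l₀ z = 0 := by
      intro l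
      by_cases h : l = l₀
      · rw [h, dm_apply]
        exact add_selfM (F := F) _
      · exact hz l h
    have h2 : em l₀ z = 0 := by
      rw [hem0]
      exact sum_eq_zero fun l _ => h1 l
    have h3 : ∀ l, em l z = 0 := by
      intro l
      have h4 := h1 l
      rwa [dm_apply, h2, add_zero] at h4
    funext c
    refine Prod.ext (Subtype.ext ?_) (Subtype.ext ?_)
    · funext a
      exact congrFun (congrArg Prod.fst (h3 a)) c
    · funext a
      exact congrFun (congrArg Prod.snd (h3 a)) c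
  -- the map to the product of the images
  have hbij : Function.Bijective (fun (z : U) (l : {l : Fin n // l ≠ l₀}) =>
      (⟨dm l.1 l₀ z.1, Submodule.mem_map_of_mem z.2⟩ : U.map (dm l.1 l₀))) := by
    refine Function.Injective.bijective_of_nat_card_le ?_ ?_
    · intro z y hzy
      have h1 : z.1 - y.1 = 0 := by
        refine hzero _ fun l hl => ?_
        have h6 := congrArg Subtype.val (congrFun hzy ⟨l, hl⟩)
        rw [map_sub, sub_eq_zero]
        exact h6
      exact Subtype.ext (sub_eq_zero.1 h1)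
    · rw [Nat.card_pi, hU]
      have h4 : ∏ l : {l : Fin n // l ≠ l₀}, Nat.card (U.map (dm (F := F) (H := H) l.1 l₀)) ≤
          ∏ l : {l : Fin n // l ≠ l₀}, Fintype.card F ^ H := by
        refine Finset.prod_le_prod' fun l _ => bh_iso hQ ?_
        rintro _ ⟨z, hz, rfl⟩ _ ⟨y, hy, rfl⟩
        exact hpol _ _ l.2 z hz y hy
      refine h4.trans ?_
      rw [Finset.prod_const, Finset.card_univ, ← pow_mul]
      have h5 : Fintype.card {l : Fin n // l ≠ l₀} = n - 1 := by
        rw [Fintype.card_subtype_compl, Fintype.card_subtype_eq, Fintype.card_fin]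
      rw [h5, mul_comm]
  -- vectors with one prescribed difference
  have hex : ∀ l, l ≠ l₀ → ∀ z ∈ U, ∃ y ∈ U, dm l l₀ y = dm l l₀ z ∧ ∀ l', l' ≠ l₀ → l' ≠ l → dm l' l₀ y = 0 := by
    intro l hl z hz
    obtain ⟨y, hy⟩ := hbij.2 (fun l' => if l'.1 = l then ⟨dm l'.1 l₀ z, Submodule.mem_map_of_mem hz⟩ else 0)
    refine ⟨y.1, y.2, ?_, fun l' hl' hll' => ?_⟩
    · have h1 := congrArg Subtype.val (congrFun hy ⟨l, hl⟩)
      rw [if_pos rfl] at h1
      exact h1
    · have h1 := congrArg Subtype.val (congrFun hy ⟨l', hl'⟩)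
      rw [if_neg hll'] at h1
      exact h1
  have hort : ∀ l l', ∀ z ∈ U, ∀ z' ∈ U, bh Q (dm l l₀ z) (dm l' l₀ z') = 0 := by
    intro l l' z hz z' hz'
    by_cases h1 : l = l₀
    · have h2 : dm l l₀ z = 0 := by
        rw [h1, dm_apply]
        exact add_selfM (F := F) _
      rw [h2, hb.zero_left hQ]
    · by_cases h2 : l' = l₀
      · have h3 : dm l' l₀ z' = 0 := by
          rw [h2, dm_apply]
          exact add_selfM (F := F) _
        rw [h3, hb.zero_right]
      · by_cases h3 : l = l'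
        · rw [← h3]
          exact hpol _ _ h1 z hz z' hz'
        · obtain ⟨y, hy, hy1, hy2⟩ := hex l h1 z hz
          obtain ⟨y', hy', hy3, hy4⟩ := hex l' h2 z' hz'
          have h4 := hpol l l' h3 y hy y' hy'
          have h5 : ∀ y : VH H n F, dm l l' y = dm l l₀ y + dm l' l₀ y := by
            intro y
            rw [dm_apply, dm_apply, dm_apply]
            have h6 := add_selfM (F := F) (em l₀ y)
            calc em l y + em l' y = em l y + em l' y + 0 := (add_zero _).symm
              _ = em l y + em l' y + (em l₀ y + em l₀ y) := by rw [h6]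
              _ = em l y + em l₀ y + (em l' y + em l₀ y) := by abel
          rw [h5, h5, hy1, hy2 l' h2 (fun h => h3 h.symm), hy3, hy4 l h1 h3, add_zero, zero_add] at h4
          exact h4
  obtain ⟨L, hL⟩ : ∃ L, L = Submodule.span F {s | ∃ l, ∃ z ∈ U, dm l l₀ z = s} := ⟨_, rfl⟩
  have hLiso : ∀ s ∈ L, ∀ s' ∈ L, bh Q s s' = 0 := by
    rw [hL]
    refine hb.span hQ ?_
    rintro _ ⟨l, z, hz, rfl⟩ _ ⟨l', z', hz', rfl⟩
    exact hort l l' z hz z' hz'
  have hLc := bh_iso hQ hLiso
  have hle : U ≤ UL n L := by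
    intro z hz
    have h1 : ∀ l, dm l l₀ z ∈ L := by
      intro l
      rw [hL]
      exact Submodule.subset_span ⟨l, z, hz, rfl⟩
    have h2 : em l₀ z ∈ L := by
      rw [hem0]
      exact L.sum_mem fun l _ => h1 l
    rw [mem_UL]
    intro a
    have h3 : em a z = dm a l₀ z + em l₀ z := by
      rw [dm_apply, add_assoc, add_selfM (F := F) (em l₀ z), add_zero]
    rw [h3]
    exact L.add_mem (h1 a) h2
  have hcU : Nat.card (UL n L) ≤ Nat.card U := by
    rw [card_UL hn3, hU, mul_comm, pow_mul]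
    exact Nat.pow_le_pow_left hLc _
  have heq : U = UL n L := eq_of_le_cardM hle hcU
  refine ⟨L, ⟨?_, hLiso⟩, heq.symm⟩
  have h1 : Nat.card L ^ (n - 1) = (Fintype.card F ^ H) ^ (n - 1) := by
    rw [← card_UL hn3, ← heq, hU, mul_comm, pow_mul]
  exact Nat.pow_left_injective (by omega : n - 1 ≠ 0) h1

end sub

/-- **GL-KUI.** -/
theorem t_KUI : S_KUI := by
  intro F _ _ _ Q hQ n H hn hn3
  rw [← ncard_Lg hQ, ← Set.ncard_image_of_injective (Lg F Q H) (UL_inj (F := F) (H := H) hn3)]
  congr 1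
  ext U
  constructor
  · rintro ⟨h1, h2, h3⟩
    obtain ⟨L, hL, hL2⟩ := UL_surj hQ hn hn3 h1 h3
    exact ⟨L, hL, hL2⟩
  · rintro ⟨L, hL, rfl⟩
    exact UL_mem hQ hn3 hL

end Pool.Agent.Q68.GL
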