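import Pool.Agent.Q190.GJ.UORT
import Pool.Agent.Q269.GL.StL

/-!
# Project GL (helper269): job KUO (helper68)

The proof adapts that of helper190 for project GJ (`Pool/Agent/Q190/GJ/UORT.lean`).
-/

set_option autoImplicit false
set_option linter.all false

open scoped Classical
open Finset

namespace Pool.Agent.Q68.GL

open Pool.Agent.Q269.GR (F2 cf ts HU)
open Pool.Agent.Q269.GJ
open Pool.Agent.Q269.GL
open Pool.Agent.Q190.GJ
open Pool.Agent.Q65.GR (sum_char charF add_self_F eq_of_add_F ts_zero ts_add ts_sq ts_cases ts_sum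
  exists_ts Q_pow Q_two conj_add conj_zero conj_conj conj_inj conj_ne cf_conj ts_conj exists_ts_conj
  card_fix exists_nonfix ts_fix sum_ts card_pow pow_card_inj pow_card_le sum_s)

/-- **GL-KUO.** -/
theorem t_KUO : S_KUO := by
  intro F _ _ _ Q hQ n h hn J _ _ S B dd x hx hB
  obtain ⟨X, hX⟩ : ∃ X : (J → V n F) → ℝ, ∀ z, X z = ts (∑ i, qf Q (dd i) (x i) (z i) +
      ∑ i, ∑ j, if i < j ∧ (i ∈ S ∨ j ∈ S) then B i j * hf Q (z i) (z j) else 0) :=
    ⟨_, fun _ => rfl⟩
  obtain ⟨C, hC⟩ : ∃ C : (J → V n F) → J → J → F, ∀ z i j, C z i j =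
      if i < j ∧ i ∉ S ∧ j ∉ S then hf Q (z i) (z j) else 0 := ⟨_, fun _ _ _ => rfl⟩
  have h1 : ∀ s : J → J → F, (Fintype.card F : ℝ) ^ ((n - 1) * Fintype.card J) *
      (Nat.card (Kn (HU S B Q s) dd x) : ℝ) =
      ∑ z : J → V n F, X z * ts (∑ i, ∑ j, s i j * C z i j) := by
    intro s
    have hM : ∀ i j, i < j → HU S B Q s j i = HU S B Q s i j ^ Q := by
      intro i j hij
      unfold HU
      by_cases h : i ∈ S ∨ j ∈ S
      · rw [if_pos h, if_pos h.symm, hB]
      · rw [if_neg h, if_neg (fun h' => h h'.symm), if_pos hij, if_neg (not_lt.2 hij.le)]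
    rw [card_Kn hQ hn _ _ hx, ← Fintype.sum_prod_type']
    refine (Fintype.sum_equiv (Equiv.arrowProdEquivProdArrow J (fun _ => W0 n F)
      (fun _ => W0 n F)) _ _ fun z => ?_).symm
    have e1 : ∀ i, ∑ l, ((Equiv.arrowProdEquivProdArrow J (fun _ => W0 n F)
          (fun _ => W0 n F) z).2 i).1 l ^ Q *
        eqn (HU S B Q s) dd x
          (Equiv.arrowProdEquivProdArrow J (fun _ => W0 n F) (fun _ => W0 n F) z).1 i l =
        qf Q (dd i) (x i) (z i) +
          ∑ j, if j = i then 0 else HU S B Q s i j * Pf Q z i j :=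
      fun i => eqn_sum (HU S B Q s) dd x z i
    rw [Finset.sum_congr rfl fun i _ => e1 i, Finset.sum_add_distrib, ts_add,
      ts_pairs hQ _ hM z, hX, ts_add, mul_assoc]
    congr 1
    rw [← ts_add, ← Finset.sum_add_distrib]
    congr 1
    refine Finset.sum_congr rfl fun i _ => ?_
    rw [← Finset.sum_add_distrib]
    refine Finset.sum_congr rfl fun j _ => ?_
    rw [hC]
    by_cases hij : i < j
    · by_cases h : i ∈ S ∨ j ∈ S
      · rw [if_pos ⟨hij, h⟩, if_neg, mul_zero, add_zero, if_pos hij]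
        · unfold HU
          rw [if_pos h]
        · rintro ⟨-, h2, h3⟩
          rcases h with h | h
          · exact h2 h
          · exact h3 h
      · have h' := h
        push Not at h'
        rw [if_neg (fun h2 => h h2.2), if_pos ⟨hij, h'⟩, zero_add, if_pos hij]
        unfold HU
        rw [if_neg h, if_pos hij]
    · rw [if_neg (fun h => hij h.1), if_neg (fun h => hij h.1), if_neg hij, mul_zero, add_zero]
  -- the powers
  have h3 : ∀ s : J → J → F, (Fintype.card F : ℝ) ^ ((n - 1) * h * Fintype.card J) *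
      (Nat.card (Kn (HU S B Q s) dd x) : ℝ) ^ h =
      ∑ p : Fin h → J → V n F, (∏ c, X (p c)) * ts (∑ i, ∑ j, s i j * ∑ c, C (p c) i j) := by
    intro s
    have e1 : (Fintype.card F : ℝ) ^ ((n - 1) * h * Fintype.card J) =
        ((Fintype.card F : ℝ) ^ ((n - 1) * Fintype.card J)) ^ h := by
      rw [← pow_mul]
      congr 1
      ring
    rw [e1, ← mul_pow, h1 s, Fintype.sum_pow]
    refine Finset.sum_congr rfl fun p _ => ?_
    rw [Finset.prod_mul_distrib]
    congr 1
    rw [← ts_sum]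
    congr 1
    rw [Finset.sum_comm]
    refine Finset.sum_congr rfl fun i _ => ?_
    rw [Finset.sum_comm]
    exact Finset.sum_congr rfl fun j _ => (Finset.mul_sum _ _ _).symm
  have h2 : ∀ p : Fin h → J → V n F,
      ∑ s : J → J → F, (∏ c, X (p c)) * ts (∑ i, ∑ j, s i j * ∑ c, C (p c) i j) =
      if (∀ i j, i < j → i ∉ S → j ∉ S → ∑ c, hf Q (p c i) (p c j) = 0)
        then (Fintype.card (J → J → F) : ℝ) * ∏ c, X (p c) else 0 := by
    intro p
    rw [← Finset.mul_sum, sum_s hQ (fun i j => ∑ c, C (p c) i j)]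
    have e0 : ∀ i j, ∑ c, C (p c) i j =
        if i < j ∧ i ∉ S ∧ j ∉ S then ∑ c, hf Q (p c i) (p c j) else 0 := by
      intro i j
      by_cases h3 : i < j ∧ i ∉ S ∧ j ∉ S
      · rw [if_pos h3]
        refine Finset.sum_congr rfl fun c _ => ?_
        rw [hC, if_pos h3]
      · rw [if_neg h3]
        refine Finset.sum_eq_zero fun c _ => ?_
        rw [hC, if_neg h3]
    have e : (∀ i j, ∑ c, C (p c) i j = 0) ↔
        ∀ i j, i < j → i ∉ S → j ∉ S → ∑ c, hf Q (p c i) (p c j) = 0 := by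
      constructor
      · intro h i j h3 h4 h5
        have := h i j
        rwa [e0, if_pos ⟨h3, h4, h5⟩] at this
      · intro h i j
        rw [e0]
        by_cases h3 : i < j ∧ i ∉ S ∧ j ∉ S
        · rw [if_pos h3]
          exact h i j h3.1 h3.2.1 h3.2.2
        · rw [if_neg h3]
    by_cases h3 : ∀ i j, ∑ c, C (p c) i j = 0
    · rw [if_pos h3, if_pos (e.1 h3), mul_comm]
    · rw [if_neg h3, if_neg (fun h => h3 (e.2 h)), mul_zero]
  rw [Finset.mul_sum, Finset.sum_congr rfl fun s _ => h3 s, Finset.sum_comm,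
    Finset.sum_congr rfl fun p _ => h2 p, Finset.sum_filter, Finset.mul_sum]
  refine Fintype.sum_equiv (Equiv.piComm fun _ _ => V n F) _ _ fun p => ?_
  have e4 : (∀ i j, i < j → i ∉ S → j ∉ S → ∑ c, hf Q (p c i) (p c j) = 0) ↔
      ∀ i j, i < j → i ∉ S → j ∉ S →
        hfh Q ((Equiv.piComm fun _ _ => V n F) p i) ((Equiv.piComm fun _ _ => V n F) p j) = 0 :=
    Iff.rfl
  by_cases h4 : ∀ i j, i < j → i ∉ S → j ∉ S → ∑ c, hf Q (p c i) (p c j) = 0
  · rw [if_pos h4, if_pos (e4.1 h4)]
    congr 1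
    rw [Finset.prod_congr rfl fun c _ => hX (p c), ← ts_sum]
    congr 1
    rw [Finset.sum_add_distrib]
    congr 1
    · rw [Finset.sum_comm]
      rfl
    · rw [Finset.sum_comm]
      refine Finset.sum_congr rfl fun i _ => ?_
      rw [Finset.sum_comm]
      refine Finset.sum_congr rfl fun j _ => ?_
      by_cases h5 : i < j ∧ (i ∈ S ∨ j ∈ S)
      · simp only [if_pos h5]
        rw [← Finset.mul_sum]
        rfl
      · simp only [if_neg h5]
        exact Finset.sum_const_zero
  · rw [if_neg h4, if_neg (fun h5 => h4 (e4.2 h5)), mul_zero]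

end Pool.Agent.Q68.GL
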