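import Pool.Agent.Q68.GL.Base

/-!
# Project GL (helper269): job KUR (helper68)

The proof adapts that of helper190 for project GJ (`Pool/Agent/Q190/GJ/URST.lean`).
-/

set_option autoImplicit false
set_option linter.all false

open scoped Classical
open Finset

namespace Pool.Agent.Q68.GL

open Pool.Agent.Q269.GR (F2 cf ts HU)
open Pool.Agent.Q269.GJ
open Pool.Agent.Q269.GL
open Pool.Agent.Q190.GJ
open Pool.Agent.Q65.GR (sum_char charF add_self_F eq_of_add_F ts_zero ts_add ts_sq ts_cases ts_sum
  exists_ts Q_pow Q_two conj_add conj_zero conj_conj conj_inj conj_ne cf_conj ts_conj exists_ts_conj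
  card_fix exists_nonfix ts_fix sum_ts card_pow pow_card_inj pow_card_le sum_s)

section urst

variable {F : Type} [Field F] [Algebra F2 F] [Fintype F] {Q : ℕ} {n H : ℕ}

/-- the orthogonal complement (as a finset) -/
noncomputable def ppM (Q : ℕ) (W : Submodule F (VH H n F)) : Finset (VH H n F) :=
  univ.filter fun z => ∀ h ∈ W, hfh Q z h = 0

/-- `|W| |W^⊥| = |V|`. -/
theorem card_ppM (hQ : Fintype.card F = Q ^ 2) (hn : Odd n) (W : Submodule F (VH H n F)) :
    Nat.card W * (ppM Q W).card = Fintype.card F ^ (2 * ((n - 1) * H)) := by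
  have h1 : ∑ z : VH H n F, ∑ h ∈ (univ : Finset (VH H n F)).filter (· ∈ W), ts (hfh Q z h) =
      ((Nat.card W * (ppM Q W).card : ℕ) : ℝ) := by
    have h2 : ∀ z : VH H n F, ∑ h ∈ (univ : Finset (VH H n F)).filter (· ∈ W), ts (hfh Q z h) =
        if ∀ h ∈ W, hfh Q z h = 0 then (Nat.card W : ℝ) else 0 := by
      intro z
      by_cases hz : ∀ h ∈ W, hfh Q z h = 0
      · rw [if_pos hz]
        rw [Finset.sum_congr rfl fun h hh => by
          rw [hz h (Finset.mem_filter.1 hh).2, ts_zero], Finset.sum_const, card_filter_subM,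
          nsmul_eq_mul, mul_one]
      · rw [if_neg hz]
        push Not at hz
        obtain ⟨h, hh, hne⟩ := hz
        obtain ⟨t, ht⟩ := exists_ts hne
        refine sum_subM W (fun x => ts (hfh Q z x)) (fun x _ y _ => ?_) (x0 := t • h)
          (W.smul_mem t hh) ?_
        · change ts (hfh Q z (x + y)) = _
          rw [hfh_add_right, ts_add]
        · change ts (hfh Q z (t • h)) ≠ 1
          rw [hfh_smul_right, ht]
          norm_num
    rw [Finset.sum_congr rfl fun z _ => h2 z, ← Finset.sum_filter, Finset.sum_const, nsmul_eq_mul]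
    push_cast
    rw [mul_comm]
    rfl
  have h2 : ∑ z : VH H n F, ∑ h ∈ (univ : Finset (VH H n F)).filter (· ∈ W), ts (hfh Q z h) =
      ((Fintype.card F ^ (2 * ((n - 1) * H)) : ℕ) : ℝ) := by
    rw [Finset.sum_comm, Finset.sum_eq_single (0 : VH H n F)]
    · simp only [hfh_zero_right, ts_zero]
      rw [Finset.sum_const, Finset.card_univ, card_VH hn, nsmul_eq_mul, mul_one]
    · intro h _ hh
      have hex : ∃ z, hfh Q z h ≠ 0 := by
        by_contra hcon
        push Not at hcon
        exact hh (hfh_nondeg hQ hn hcon)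
      obtain ⟨z, hz⟩ := hex
      obtain ⟨t, ht⟩ := exists_ts_conj hQ hz
      refine sum_char (fun x => ts (hfh Q x h)) (fun x y => ?_) (t • z) ?_
      · change ts (hfh Q (x + y) h) = _
        rw [hfh_add_left hQ, ts_add]
      · change ts (hfh Q (t • z) h) ≠ 1
        rw [hfh_smul_left hQ, ht]
        norm_num
    · intro h
      exact absurd (Finset.mem_filter.2 ⟨Finset.mem_univ _, W.zero_mem⟩) h
  have h3 := h1.symm.trans h2
  exact_mod_cast h3

theorem iso_cardM (hQ : Fintype.card F = Q ^ 2) (hn : Odd n) {W : Submodule F (VH H n F)}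
    (hW : ∀ z ∈ W, ∀ z' ∈ W, hfh Q z z' = 0) : Nat.card W ≤ Fintype.card F ^ ((n - 1) * H) ∧
      (Nat.card W = Fintype.card F ^ ((n - 1) * H) → ∀ z, (∀ h ∈ W, hfh Q z h = 0) → z ∈ W) := by
  have h1 := card_ppM hQ hn W
  have hsub : (univ : Finset (VH H n F)).filter (· ∈ W) ⊆ ppM Q W := by
    intro z hz
    rw [Finset.mem_filter] at hz
    unfold ppM
    rw [Finset.mem_filter]
    exact ⟨Finset.mem_univ _, fun h hh => hW z hz.2 h hh⟩
  have h2 := Finset.card_le_card hsub
  rw [card_filter_subM] at h2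
  have hsq : Fintype.card F ^ (2 * ((n - 1) * H)) = (Fintype.card F ^ ((n - 1) * H)) ^ 2 := by
    rw [← pow_mul, mul_comm]
  have h3 : Nat.card W ^ 2 ≤ (Fintype.card F ^ ((n - 1) * H)) ^ 2 := by
    calc Nat.card W ^ 2 = Nat.card W * Nat.card W := pow_two _
      _ ≤ Nat.card W * (ppM Q W).card := Nat.mul_le_mul_left _ h2
      _ = Fintype.card F ^ (2 * ((n - 1) * H)) := h1
      _ = (Fintype.card F ^ ((n - 1) * H)) ^ 2 := hsq
  refine ⟨le_of_pow_le_pow_left₀ (by norm_num) (Nat.zero_le _) h3, fun hc z hz => ?_⟩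
  have h4 : (ppM Q W).card = Fintype.card F ^ ((n - 1) * H) := by
    rw [hc] at h1
    have h5 : 0 < Fintype.card F ^ ((n - 1) * H) := pow_pos Fintype.card_pos _
    refine Nat.eq_of_mul_eq_mul_left h5 ?_
    rw [h1, hsq, pow_two]
  have h5 : (univ : Finset (VH H n F)).filter (· ∈ W) = ppM Q W :=
    Finset.eq_of_subset_of_card_le hsub (by rw [h4, card_filter_subM, hc])
  have h6 : z ∈ ppM Q W := by
    unfold ppM
    rw [Finset.mem_filter]
    exact ⟨Finset.mem_univ _, hz⟩
  rw [← h5, Finset.mem_filter] at h6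
  exact h6.2

theorem span_isoM (hQ : Fintype.card F = Q ^ 2) {s : Set (VH H n F)}
    (hs : ∀ x ∈ s, ∀ y ∈ s, hfh Q x y = 0) :
    ∀ z ∈ Submodule.span F s, ∀ z' ∈ Submodule.span F s, hfh Q z z' = 0 := by
  have h1 : ∀ x ∈ s, ∀ z' ∈ Submodule.span F s, hfh Q x z' = 0 := by
    intro x hx z' hz'
    have h2 : Submodule.span F s ≤ LinearMap.ker (hfhL Q x) := by
      rw [Submodule.span_le]
      intro y hy
      exact hs x hx y hy
    exact h2 hz'
  intro z hz z' hz'
  have h2 : Submodule.span F s ≤ LinearMap.ker (hfhL Q z') := by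
    rw [Submodule.span_le]
    intro y hy
    change hfh Q z' y = 0
    rw [hfh_conj hQ, h1 y hy z' hz', conj_zero hQ]
  have h3 : hfh Q z' z = 0 := h2 hz
  rw [hfh_conj hQ, h3, conj_zero hQ]

theorem indep_cardM (hQ : Fintype.card F = Q ^ 2) (hn : Odd n) {J : Type} [Fintype J] (z : J → VH H n F)
    (h : ∀ i j, i ≠ j → hfh Q (z i) (z j) = 0) :
    Fintype.card {i : J // hfh Q (z i) (z i) ≠ 0} ≤ 2 * ((n - 1) * H) := by
  have hli : LinearIndependent F fun i : {i : J // hfh Q (z i) (z i) ≠ 0} => z i.1 := by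
    rw [Fintype.linearIndependent_iff]
    intro g hg k
    have h1 : hfhL Q (z k.1) (∑ i, g i • z i.1) = 0 := by rw [hg, map_zero]
    rw [map_sum, Finset.sum_eq_single k] at h1
    · rw [map_smul, smul_eq_mul] at h1
      exact (mul_eq_zero.1 h1).resolve_right k.2
    · intro i _ hi
      rw [map_smul]
      change g i • hfh Q (z k.1) (z i.1) = 0
      rw [h _ _ fun h' => hi (Subtype.ext h'.symm), smul_zero]
    · intro h
      exact absurd (Finset.mem_univ _) h
  have h1 := hli.fintype_card_le_finrank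
  rwa [finrank_VH hn] at h1

/-- generators of a subspace -/
theorem exists_genM {W : Submodule F (VH H n F)} {m : ℕ} (hW : Module.finrank F W ≤ m) :
    ∃ g : Fin m → VH H n F, ∀ w ∈ W, ∃ c : Fin m → F, ∑ k, c k • g k = w := by
  haveI : Module.Free F W := Module.Free.of_divisionRing F W
  obtain ⟨f, hf⟩ : ∃ f : (Fin m → F) →ₗ[F] VH H n F, f = W.subtype.comp
      (((Module.finBasis F W).equivFun.symm : (Fin (Module.finrank F W) → F) →ₗ[F] W).comp
        (LinearMap.funLeft F F (Fin.castLE hW))) := ⟨_, rfl⟩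
  refine ⟨fun k => f (Pi.single k 1), fun w hw => ?_⟩
  obtain ⟨c, hc⟩ := LinearMap.funLeft_surjective_of_injective F F (Fin.castLE hW)
    (Fin.castLE_injective hW) ((Module.finBasis F W).equivFun ⟨w, hw⟩)
  refine ⟨c, ?_⟩
  have h1 : f c = w := by
    rw [hf]
    simp only [LinearMap.comp_apply]
    rw [hc]
    simp only [LinearEquiv.coe_coe, LinearEquiv.symm_apply_apply, Submodule.subtype_apply]
  rw [← h1, LinearMap.pi_apply_eq_sum_univ f c]
  refine Finset.sum_congr rfl fun k _ => ?_
  congr 1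
  show f (Pi.single k 1) = f fun j => if k = j then 1 else 0
  congr 1
  funext l
  rw [Pi.single_apply]
  by_cases h2 : l = k
  · rw [if_pos h2, if_pos h2.symm]
  · rw [if_neg h2, if_neg fun h => h2 h.symm]

/-- the parametrisation of the families -/
noncomputable def PhM (m m' : ℕ) {J : Type} [Fintype J]
    (x : (Fin m → Option J) × (Fin m → VH H n F) × (Fin m' → VH H n F) × (J → Fin m' → F)) : J → VH H n F :=
  fun i => if h : ∃ k, x.1 k = some i then x.2.1 h.choose else ∑ k, x.2.2.2 i k • x.2.2.1 k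

end urst

/-- **GL-KUR.** -/
theorem t_KUR : S_KUR := by
  intro F _ _ _ Q hQ n H hn hn3 hH J _
  have hsub : ((univ : Finset (J → VH H n F)).filter fun z => (∀ i j, i ≠ j → hfh Q (z i) (z j) = 0) ∧
      ¬ (Nat.card (Submodule.span F (Set.range z)) = Fintype.card F ^ ((n - 1) * H) ∧
      ∀ z₁ ∈ Submodule.span F (Set.range z), ∀ z₂ ∈ Submodule.span F (Set.range z),
        hfh Q z₁ z₂ = 0)) ⊆
      (univ : Finset ((Fin (2 * ((n - 1) * H)) → Option J) × (Fin (2 * ((n - 1) * H)) → VH H n F) ×
        (Fin ((n - 1) * H - 1) → VH H n F) × (J → Fin ((n - 1) * H - 1) → F))).image (PhM (2 * ((n - 1) * H)) ((n - 1) * H - 1)) := by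
    intro z hz
    rw [Finset.mem_filter] at hz
    obtain ⟨-, hort, hnot⟩ := hz
    rw [Finset.mem_image]
    obtain ⟨W, hW⟩ : ∃ W : Submodule F (VH H n F), W =
      Submodule.span F {x | ∃ i, hfh Q (z i) (z i) = 0 ∧ z i = x} := ⟨_, rfl⟩
    have hiso : ∀ x ∈ W, ∀ y ∈ W, hfh Q x y = 0 := by
      rw [hW]
      refine span_isoM hQ ?_
      rintro _ ⟨i, hi, rfl⟩ _ ⟨j, hj, rfl⟩
      by_cases hij : i = j
      · rw [← hij]
        exact hi
      · exact hort i j hij
    obtain ⟨hWc, hWp⟩ := iso_cardM hQ hn hiso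
    have hmemW : ∀ i, hfh Q (z i) (z i) = 0 → z i ∈ W := by
      intro i hi
      rw [hW]
      exact Submodule.subset_span ⟨i, hi, rfl⟩
    have hne : Nat.card W ≠ Fintype.card F ^ ((n - 1) * H) := by
      intro hc
      have hA : ∀ i, hfh Q (z i) (z i) = 0 := by
        intro i
        by_contra hi
        have h1 : z i ∈ W := by
          refine hWp hc (z i) ?_
          have h2 : W ≤ LinearMap.ker (hfhL Q (z i)) := by
            rw [hW, Submodule.span_le]
            rintro _ ⟨j, hj, rfl⟩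
            refine hort i j ?_
            rintro rfl
            exact hi hj
          exact fun h hh => h2 hh
        exact hi (hiso _ h1 _ h1)
      have hWs : W = Submodule.span F (Set.range z) := by
        rw [hW]
        congr 1
        ext x
        constructor
        · rintro ⟨i, -, rfl⟩
          exact ⟨i, rfl⟩
        · rintro ⟨i, rfl⟩
          exact ⟨i, hA i, rfl⟩
      apply hnot
      rw [← hWs]
      exact ⟨hc, hiso⟩
    -- `W` is small
    have hfr : Module.finrank F W ≤ (n - 1) * H - 1 := by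
      have h0 : 0 < (n - 1) * H := Nat.mul_pos (by omega) hH
      have h1 : Fintype.card F ^ Module.finrank F W ≤ Fintype.card F ^ ((n - 1) * H) := by
        rw [← card_pow (F := F) (M := W)]
        exact hWc
      have h2 := pow_card_le h1
      have h3 : Module.finrank F W ≠ (n - 1) * H := by
        intro h3
        apply hne
        rw [card_pow (F := F) (M := W), h3]
      omega
    obtain ⟨g, hg⟩ := exists_genM hfr
    have hline : ∀ i, hfh Q (z i) (z i) = 0 → ∃ c : Fin ((n - 1) * H - 1) → F, ∑ k, c k • g k = z i := by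
      intro i hi
      exact hg _ (hmemW i hi)
    -- the exceptional indices
    have hc4 := indep_cardM hQ hn z hort
    obtain ⟨en, -⟩ : ∃ en : {i : J // hfh Q (z i) (z i) ≠ 0} ≃
      Fin (Fintype.card {i : J // hfh Q (z i) (z i) ≠ 0}), True := ⟨Fintype.equivFin _, trivial⟩
    obtain ⟨e, he⟩ : ∃ e : Fin (2 * ((n - 1) * H)) → Option J, ∀ k, e k =
      if h : (k : ℕ) < Fintype.card {i : J // hfh Q (z i) (z i) ≠ 0}
        then some (en.symm ⟨k, h⟩ : J) else none := ⟨_, fun _ => rfl⟩
    have he1 : ∀ k i, e k = some i → hfh Q (z i) (z i) ≠ 0 := by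
      intro k i hk
      rw [he] at hk
      split_ifs at hk with h
      rw [← Option.some.inj hk]
      exact (en.symm ⟨k, h⟩).2
    have he2 : ∀ i, hfh Q (z i) (z i) ≠ 0 → ∃ k, e k = some i := by
      intro i hi
      refine ⟨⟨(en ⟨i, hi⟩ : ℕ), lt_of_lt_of_le (en ⟨i, hi⟩).2 hc4⟩, ?_⟩
      rw [he, dif_pos (en ⟨i, hi⟩).2]
      simp
    refine ⟨(e, (fun k => match e k with | some i => z i | none => 0), g,
      fun i => if h : hfh Q (z i) (z i) = 0 then (hline i h).choose else 0), Finset.mem_univ _, ?_⟩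
    funext i
    unfold PhM
    by_cases hi : hfh Q (z i) (z i) = 0
    · have h1 : ¬ ∃ k, e k = some i := by
        rintro ⟨k, hk⟩
        exact he1 k i hk hi
      simp only [h1, dite_false]
      rw [dif_pos hi]
      exact (hline i hi).choose_spec
    · have h1 : ∃ k, e k = some i := he2 i hi
      simp only [h1, dite_true]
      have h2 := h1.choose_spec
      rw [h2]
  refine (Finset.card_le_card hsub).trans (Finset.card_image_le.trans ?_)
  rw [Finset.card_univ]
  simp only [Fintype.card_prod, Fintype.card_fun, Fintype.card_option, Fintype.card_fin, card_V hn,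
    ← pow_mul, ← pow_add]
  refine Nat.mul_le_mul_left _ ?_
  refine Nat.pow_le_pow_right Fintype.card_pos ?_
  obtain ⟨m, hm⟩ : ∃ m, (n - 1) * H = m + 1 := by
    have : 0 < (n - 1) * H := Nat.mul_pos (by omega) hH
    exact ⟨(n - 1) * H - 1, by omega⟩
  have e3 : 2 * (n - 1) * H = 2 * (m + 1) := by rw [mul_assoc, hm]
  rw [e3, hm]
  have e2 : m + 1 - 1 = m := by omega
  rw [e2]
  nlinarith

end Pool.Agent.Q68.GL
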