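import Pool.Agent.Q190.GJ.UGAU
import Pool.Agent.Q269.GL.StL

/-!
# Project GL (helper269): basic facts for several copies (helper68)

The proofs adapt those of helper190 for project GJ (`Pool/Agent/Q190/GJ`).
-/

set_option autoImplicit false
set_option linter.all false

open scoped Classical
open Finset

namespace Pool.Agent.Q68.GL

open Pool.Agent.Q269.GR (F2 cf ts HU)
open Pool.Agent.Q269.GJ
open Pool.Agent.Q269.GL
open Pool.Agent.Q190.GJ
open Pool.Agent.Q65.GR (sum_char charF add_self_F eq_of_add_F ts_zero ts_add ts_sq ts_cases ts_sum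
  exists_ts Q_pow Q_two conj_add conj_zero conj_conj conj_inj conj_ne cf_conj ts_conj exists_ts_conj
  card_fix exists_nonfix ts_fix sum_ts card_pow pow_card_inj pow_card_le sum_s)

section gen

variable {F : Type} [Field F] [Algebra F2 F] [Fintype F] {M : Type} [AddCommGroup M] [Module F M] [Fintype M]

/-- the sum over a submodule of a nontrivial character -/
theorem sum_subM (U : Submodule F M) (χ : M → ℝ)
    (h : ∀ x ∈ U, ∀ y ∈ U, χ (x + y) = χ x * χ y) {x0 : M} (hx : x0 ∈ U) (h0 : χ x0 ≠ 1) :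
    ∑ z ∈ (univ : Finset M).filter (· ∈ U), χ z = 0 := by
  have h1 : ∑ z ∈ (univ : Finset M).filter (· ∈ U), χ z = ∑ z : U, χ z :=
    (Finset.sum_subtype _ (fun x => by rw [Finset.mem_filter]; exact and_iff_right (Finset.mem_univ _))
      χ)
  rw [h1]
  exact sum_char (fun z : U => χ z) (fun x y => h x x.2 y y.2) ⟨x0, hx⟩ h0

omit [Algebra F2 F] in
theorem card_filter_subM (U : Submodule F M) :
    ((univ : Finset M).filter (· ∈ U)).card = Nat.card U := by
  rw [← Fintype.card_subtype, ← Nat.card_eq_fintype_card]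

theorem card_lt_subM {R U : Submodule F M} (h : R < U) {m : ℕ}
    (hU : Nat.card U = Fintype.card F ^ (m + 1)) : Nat.card R ≤ Fintype.card F ^ m := by
  have h1 := Submodule.finrank_lt_finrank_of_lt h
  have h2 : Fintype.card F ^ Module.finrank F U = Fintype.card F ^ (m + 1) := by
    rw [← card_pow (F := F) (M := U), hU]
  have h3 := pow_card_inj h2
  rw [card_pow (F := F) (M := R)]
  exact Nat.pow_le_pow_right Fintype.card_pos (by omega)

omit [Algebra F2 F] in
theorem eq_of_le_cardM {U W : Submodule F M} (h : U ≤ W) (hc : Nat.card W ≤ Nat.card U) :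
    U = W := by
  apply SetLike.coe_injective
  refine Set.eq_of_subset_of_ncard_le h ?_ (Set.toFinite _)
  rw [← Nat.card_coe_set_eq, ← Nat.card_coe_set_eq]
  exact hc

end gen

section base

variable {F : Type} [Field F] [Algebra F2 F] [Fintype F] {Q : ℕ} {n h : ℕ}

theorem finrank_VH (hn : Odd n) : Module.finrank F (VH h n F) = 2 * ((n - 1) * h) := by
  rw [Module.finrank_pi_fintype]
  rw [Finset.sum_congr rfl fun c _ => finrank_V hn, Finset.sum_const, Finset.card_univ, Fintype.card_fin,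
    smul_eq_mul]
  ring

theorem card_VH (hn : Odd n) : Fintype.card (VH h n F) = Fintype.card F ^ (2 * ((n - 1) * h)) := by
  rw [← Nat.card_eq_fintype_card, card_pow (F := F) (M := VH h n F), finrank_VH hn]

/-! ### the Hermitian form -/

theorem hfh_add_right (z x y : VH h n F) : hfh Q z (x + y) = hfh Q z x + hfh Q z y := by
  simp only [hfh, Pi.add_apply, hf_add_right]
  rw [← sum_add_distrib]

theorem hfh_smul_right (t : F) (z x : VH h n F) : hfh Q z (t • x) = t * hfh Q z x := by
  simp only [hfh, Pi.smul_apply, hf_smul_right]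
  rw [mul_sum]

theorem hfh_conj (hQ : Fintype.card F = Q ^ 2) (z x : VH h n F) : hfh Q x z = hfh Q z x ^ Q := by
  simp only [hfh]
  rw [conj_sum hQ]
  exact sum_congr rfl fun c _ => hf_conj hQ _ _

theorem hfh_add_left (hQ : Fintype.card F = Q ^ 2) (x y z : VH h n F) :
    hfh Q (x + y) z = hfh Q x z + hfh Q y z := by
  rw [hfh_conj hQ z, hfh_add_right, conj_add hQ, ← hfh_conj hQ, ← hfh_conj hQ]

theorem hfh_smul_left (hQ : Fintype.card F = Q ^ 2) (t : F) (x z : VH h n F) :
    hfh Q (t • x) z = t ^ Q * hfh Q x z := by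
  rw [hfh_conj hQ z, hfh_smul_right, mul_pow, ← hfh_conj hQ]

/-- The form as a linear form of the second argument. -/
noncomputable def hfhL (Q : ℕ) (z : VH h n F) : VH h n F →ₗ[F] F where
  toFun x := hfh Q z x
  map_add' x y := hfh_add_right z x y
  map_smul' t x := by rw [hfh_smul_right]; rfl

theorem hfhL_apply (z x : VH h n F) : hfhL Q z x = hfh Q z x := rfl

theorem hfh_zero_right (z : VH h n F) : hfh Q z 0 = 0 := (hfhL Q z).map_zero

theorem hfh_single (hQ : Fintype.card F = Q ^ 2) (c : Fin h) (z : V n F) (y : VH h n F) :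
    hfh Q (Pi.single c z) y = hf Q z (y c) := by
  unfold hfh
  rw [Finset.sum_eq_single c]
  · rw [Pi.single_eq_same]
  · intro c' _ hc'
    rw [Pi.single_eq_of_ne hc', hf_conj hQ (y c') 0, hf_zero_right, conj_zero hQ]
  · intro hc
    exact absurd (mem_univ _) hc

theorem hfh_nondeg (hQ : Fintype.card F = Q ^ 2) (hn : Odd n) {y : VH h n F}
    (hh : ∀ z, hfh Q z y = 0) : y = 0 := by
  funext c
  refine hf_nondeg hQ hn fun z => ?_
  rw [← hfh_single hQ c z y]
  exact hh _

/-! ### the weights -/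

/-- the part of the weight with the Laplacian -/
noncomputable def efh (Q : ℕ) (x : Fin n → Fin n → F2) (z : VH h n F) : F := ∑ c, ef Q x (z c)

theorem gxh_efh (hQ : Fintype.card F = Q ^ 2) (x : Fin n → Fin n → F2) (z : VH h n F) :
    gxh Q x z = efh Q x z + efh Q x z ^ Q := by
  unfold gxh efh
  rw [conj_sum hQ, ← sum_add_distrib]
  exact sum_congr rfl fun c _ => gx_ef hQ x (z c)

theorem ts_qfh (hQ : Fintype.card F = Q ^ 2) {d : F} (hd : d ^ Q = d) (x : Fin n → Fin n → F2)
    {z : VH h n F} (hz : hfh Q z z = 0) : ts (qfh Q d x z) = ts (efh Q x z) := by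
  have e : qfh Q d x z = d * (∑ c, ∑ l, (z c).2.1 l ^ Q * (z c).1.1 l) + efh Q x z := by
    simp only [qfh, efh]
    rw [mul_sum, ← sum_add_distrib]
    refine sum_congr rfl fun c _ => ?_
    simp only [qf, ef]
    rw [mul_sum, ← sum_add_distrib]
    exact sum_congr rfl fun l _ => by ring
  rw [e, ts_add]
  have h1 : (∑ c, ∑ l, (z c).2.1 l ^ Q * (z c).1.1 l) ^ Q = ∑ c, ∑ l, (z c).2.1 l ^ Q * (z c).1.1 l := by
    apply eq_of_add_F
    have h2 : hfh Q z z = ∑ c, ∑ l, (z c).2.1 l ^ Q * (z c).1.1 l +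
        (∑ c, ∑ l, (z c).2.1 l ^ Q * (z c).1.1 l) ^ Q := by
      unfold hfh
      rw [conj_sum hQ, ← sum_add_distrib]
      refine sum_congr rfl fun c _ => ?_
      unfold hf
      rw [conj_sum hQ, sum_add_distrib]
      congr 1
      exact sum_congr rfl fun l _ => by rw [mul_pow, conj_conj hQ]
    rw [add_comm, ← h2, hz]
  rw [ts_fix hQ (e := d * (∑ c, ∑ l, (z c).2.1 l ^ Q * (z c).1.1 l)) (by rw [mul_pow, h1, hd]), one_mul]

/-- the polar form of the weight -/
noncomputable def Gfh (Q : ℕ) (x : Fin n → Fin n → F2) (z y : VH h n F) : F := ∑ c, Gf Q x (z c) (y c)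

theorem ts_efh_add (hQ : Fintype.card F = Q ^ 2) (x : Fin n → Fin n → F2) (z y : VH h n F) :
    ts (efh Q x (z + y)) = ts (efh Q x z) * ts (efh Q x y) * ts (Gfh Q x z y) := by
  unfold efh Gfh
  rw [ts_sum, ts_sum, ts_sum, ts_sum, ← Finset.prod_mul_distrib, ← Finset.prod_mul_distrib]
  exact Finset.prod_congr rfl fun c _ => ts_ef_add hQ x (z c) (y c)

theorem Gfh_add_left (hQ : Fintype.card F = Q ^ 2) (x : Fin n → Fin n → F2) (z z' y : VH h n F) :
    Gfh Q x (z + z') y = Gfh Q x z y + Gfh Q x z' y := by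
  unfold Gfh
  rw [← sum_add_distrib]
  exact sum_congr rfl fun c _ => Gf_add_left hQ x (z c) (z' c) (y c)

theorem Gfh_smul_left (x : Fin n → Fin n → F2) (t : F) (z y : VH h n F) :
    Gfh Q x (t • z) y = t ^ Q * Gfh Q x z y := by
  unfold Gfh
  rw [mul_sum]
  exact sum_congr rfl fun c _ => Gf_smul_left x t (z c) (y c)

theorem Gfh_add_right (x : Fin n → Fin n → F2) (z y y' : VH h n F) :
    Gfh Q x z (y + y') = Gfh Q x z y + Gfh Q x z y' := by
  unfold Gfh
  rw [← sum_add_distrib]
  exact sum_congr rfl fun c _ => Gf_add_right x (z c) (y c) (y' c)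

theorem Gfh_smul_right (x : Fin n → Fin n → F2) (t : F) (z y : VH h n F) :
    Gfh Q x z (t • y) = t * Gfh Q x z y := by
  unfold Gfh
  rw [mul_sum]
  exact sum_congr rfl fun c _ => Gf_smul_right x t (z c) (y c)

theorem Gfh_self (x : Fin n → Fin n → F2) (z : VH h n F) : Gfh Q x z z = gxh Q x z := rfl

/-- the radical -/
noncomputable def Rfh (Q : ℕ) (x : Fin n → Fin n → F2) (U : Submodule F (VH h n F)) :
    Submodule F (VH h n F) where
  carrier := {y | y ∈ U ∧ ∀ z ∈ U, Gfh Q x z y = 0}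
  zero_mem' := by
    refine ⟨U.zero_mem, fun z _ => ?_⟩
    have h := Gfh_smul_right (Q := Q) x 0 z 0
    rwa [zero_smul, zero_mul] at h
  add_mem' := by
    rintro y y' ⟨h1, h2⟩ ⟨h3, h4⟩
    refine ⟨U.add_mem h1 h3, fun z hz => ?_⟩
    rw [Gfh_add_right, h2 z hz, h4 z hz, add_zero]
  smul_mem' := by
    rintro t y ⟨h1, h2⟩
    refine ⟨U.smul_mem t h1, fun z hz => ?_⟩
    rw [Gfh_smul_right, h2 z hz, mul_zero]

end base

end Pool.Agent.Q68.GL
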