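import Pool.Agent.Q241.GJ.LAG

/-!
# Project GL (helper269), job KLG, abstract part (helper68): two-sided estimate of the mean number of the solutions for
random matrices without symmetry (after helper241, `Pool/Agent/Q241/GJ/LAGa.lean`)
-/

set_option autoImplicit false
set_option linter.all false

open scoped Classical
open Finset

namespace Pool.Agent.Q68.GL.KLG

open Pool.Agent.Q269.GR (F2 cf ts HU HG)
open Pool.Agent.Q241.GJ (card_mod exists_gens spn mem_spn card_spn)
open Pool.Agent.Q241.GJ.LAG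

section abs

variable {F : Type} [Field F] [Fintype F] {E : Type} [AddCommGroup E] [Module F E] [Fintype E]
variable {J : Type} [Fintype J]

theorem range_rowL (S : Finset J) (w : J → E) (i : J) :
    LinearMap.range (rowL (F := F) S w i) = SQ F S w i := by
  apply le_antisymm
  · rintro _ ⟨r, rfl⟩
    rw [rowL_apply]
    refine Submodule.sum_mem _ fun j _ => ?_
    by_cases hj : j = i ∨ j ∈ S
    · rw [if_pos hj]
      exact Submodule.zero_mem _
    · rw [if_neg hj]
      push Not at hj
      exact Submodule.smul_mem _ _ (mem_SQ hj.2 hj.1)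
  · unfold SQ
    rw [Submodule.span_le]
    rintro x ⟨j, hj, rfl⟩
    exact rowL_mem S w hj.2 hj.1

/-- the fibres of a linear map -/
theorem fib_eq {A : Type} [AddCommGroup A] [Module F A] [Fintype A] (f : A →ₗ[F] E) {y : E}
    (hy : y ∈ LinearMap.range f) :
    (univ.filter fun a => f a = y).card * Nat.card (LinearMap.range f) = Fintype.card A := by
  have hfin : Module.Finite F A := Module.Finite.of_finite
  have hfinE : Module.Finite F E := Module.Finite.of_finite
  obtain ⟨a0, ha0⟩ := hy
  have h1 : (univ.filter fun a => f a = y).card = Nat.card (LinearMap.ker f) := by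
    rw [← Fintype.card_subtype, ← Nat.card_eq_fintype_card]
    refine Nat.card_congr ⟨fun a => ⟨a.1 - a0, ?_⟩, fun a => ⟨a.1 + a0, ?_⟩, ?_, ?_⟩
    · rw [LinearMap.mem_ker, map_sub, a.2, ha0, sub_self]
    · rw [map_add, LinearMap.mem_ker.1 a.2, zero_add, ha0]
    · intro a
      exact Subtype.ext (sub_add_cancel _ _)
    · intro a
      exact Subtype.ext (add_sub_cancel_right _ _)
  rw [h1, card_mod (F := F) (LinearMap.ker f), card_mod (F := F) (LinearMap.range f), ← pow_add,
    add_comm, LinearMap.finrank_range_add_finrank_ker, ← Module.card_eq_pow_finrank]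

theorem TT_eq (D : J → E →ₗ[F] E) (S : Finset J) (B : J → J → F) {w : J → E} {i : J} (hi : i ∉ S)
    (h : rhs D S B w i ∈ SQ F S w i) :
    (TT D S B w i).card * Fintype.card F ^ Module.finrank F (SQ F S w i) =
      Fintype.card F ^ Fintype.card J := by
  have h1 : -rhs D S B w i ∈ LinearMap.range (rowL (F := F) S w i) := by
    rw [range_rowL]
    exact Submodule.neg_mem _ h
  have h2 := fib_eq (rowL (F := F) S w i) h1
  rw [card_mod (F := F) (LinearMap.range (rowL (F := F) S w i)), range_rowL, Fintype.card_fun] at h2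
  rw [← h2]
  congr 2
  ext r
  unfold TT
  rw [mem_filter, mem_filter]
  have h3 := eqn_row D S B w hi (fun _ => r)
  constructor
  · rintro ⟨_, h4⟩
    refine ⟨mem_univ _, ?_⟩
    rw [h4] at h3
    exact eq_neg_of_add_eq_zero_left h3.symm
  · rintro ⟨_, h4⟩
    refine ⟨mem_univ _, ?_⟩
    rw [h3, h4]
    exact neg_add_cancel _

theorem HG_S (S : Finset J) (B : J → J → F) (s s' : J → J → F) {i : J} (hi : i ∈ S) (j : J) :
    HG S B s i j = HG S B s' i j := by
  unfold HG
  rw [if_pos (Or.inl hi), if_pos (Or.inl hi)]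

theorem Er_S (D : J → E →ₗ[F] E) (S : Finset J) (B : J → J → F) (w : J → E) (s s' : J → J → F) {i : J}
    (hi : i ∈ S) : Er D (HG S B s) w i = Er D (HG S B s') w i := by
  unfold Er
  congr 1
  refine sum_congr rfl fun j _ => ?_
  rw [HG_S S B s s' hi]

theorem TT_S (D : J → E →ₗ[F] E) (S : Finset J) (B : J → J → F) {w : J → E} {i : J} (hi : i ∈ S)
    (h : Er D (HG S B 0) w i = 0) : (TT D S B w i).card = Fintype.card F ^ Fintype.card J := by
  have h1 : TT D S B w i = univ := by
    unfold TT
    refine filter_true_of_mem fun r _ => ?_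
    rw [Er_S D S B w _ 0 hi, h]
  rw [h1, card_univ, Fintype.card_fun]

/-- the number of the matrices for a family in a stable subspace -/
theorem NN_stab (D : J → E →ₗ[F] E) (S : Finset J) (B : J → J → F) {w : J → E} {L : Submodule F E}
    (hD : ∀ i, ∀ v ∈ L, D i v ∈ L) (hw : ∀ j, w j ∈ L) (hS : ∀ i ∈ S, Er D (HG S B 0) w i = 0)
    (hSP : SP F S w = L) (hc : col F S w = ∅) :
    NN D S B w * Fintype.card F ^ (Module.finrank F L * Sᶜ.card) =
      (Fintype.card F ^ Fintype.card J) ^ Fintype.card J := by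
  have hSQ : ∀ i ∈ (Sᶜ : Finset J), SQ F S w i = L := by
    intro i hi
    rw [← hSP]
    refine SQ_eq ?_
    by_contra h
    have : i ∈ col F S w := by
      unfold col
      rw [mem_filter]
      exact ⟨hi, h⟩
    rw [hc] at this
    exact absurd this (notMem_empty _)
  have h1 : Fintype.card F ^ (Module.finrank F L * Sᶜ.card) =
      ∏ i : J, if i ∈ Sᶜ then Fintype.card F ^ Module.finrank F L else 1 := by
    rw [prod_ite_mem, univ_inter, prod_const, ← pow_mul]
  have h2 : (Fintype.card F ^ Fintype.card J) ^ Fintype.card J =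
      ∏ _i : J, Fintype.card F ^ Fintype.card J := by
    rw [prod_const, card_univ]
  unfold NN
  rw [h1, h2, ← prod_mul_distrib]
  refine prod_congr rfl fun i _ => ?_
  by_cases hi : i ∈ Sᶜ
  · rw [if_pos hi, ← hSQ i hi]
    refine TT_eq D S B (mem_compl.1 hi) ?_
    rw [hSQ i hi]
    unfold rhs
    exact L.add_mem (L.sum_mem fun j _ => L.smul_mem _ (hw j)) (hD i _ (hw i))
  · rw [if_neg hi, mul_one]
    exact TT_S D S B (by simpa using hi) (hS i (by simpa using hi))

/-- if there are matrices for a family without coloops with a stable span, then the fixed vectors are in the span -/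
theorem NN_mem (D : J → E →ₗ[F] E) (S : Finset J) (B : J → J → F) {w : J → E} {L : Submodule F E}
    (inj2 : ∀ v : J → F, (∀ i, i ∉ S → v i = 0) → (∀ j, j ∉ S → ∑ i, v i * B j i = 0) → v = 0)
    (hD : ∀ i, ∀ v ∈ L, D i v ∈ L) (hSP : SP F S w = L) (h : NN D S B w ≠ 0) : ∀ j, w j ∈ L := by
  have hw : ∀ j, j ∉ S → w j ∈ L := fun j hj => hSP ▸ mem_SP hj
  have key : ∀ i, i ∉ S → ∑ j ∈ S, B i j • w j ∈ L := by
    intro i hi
    obtain ⟨r, hr⟩ := NN_row h i
    rw [eqn_row D S B w hi] at hr
    have h2 : rowL S w i r ∈ L := by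
      rw [rowL_apply]
      refine Submodule.sum_mem _ fun j _ => ?_
      by_cases hj : j = i ∨ j ∈ S
      · rw [if_pos hj]
        exact L.zero_mem
      · rw [if_neg hj]
        push Not at hj
        exact L.smul_mem _ (hw j hj.2)
    have h3 : rhs D S B w i ∈ L := by
      rw [eq_neg_of_add_eq_zero_right hr]
      exact L.neg_mem h2
    unfold rhs at h3
    exact (L.add_mem_iff_left (hD i _ (hw i hi))).1 h3
  intro j
  rw [← Submodule.Quotient.mk_eq_zero, ← Submodule.mkQ_apply, ← Module.forall_dual_apply_eq_zero_iff F]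
  intro φ
  have h1 := inj2 (fun i => φ (L.mkQ (w i))) (fun i hi => by
    show φ (L.mkQ (w i)) = 0
    rw [Submodule.mkQ_apply, (Submodule.Quotient.mk_eq_zero L).2 (hw i hi), map_zero]) (by
    intro i hi
    have h2 : φ (L.mkQ (∑ j ∈ S, B i j • w j)) = 0 := by
      rw [Submodule.mkQ_apply, (Submodule.Quotient.mk_eq_zero L).2 (key i hi), map_zero]
    rw [map_sum, map_sum] at h2
    rw [← sum_subset (subset_univ S)]
    · refine Eq.trans (sum_congr rfl fun j _ => ?_) h2
      rw [map_smul, map_smul, smul_eq_mul, mul_comm]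
    · intro j _ hj
      rw [Submodule.mkQ_apply, (Submodule.Quotient.mk_eq_zero L).2 (hw j hj), map_zero, zero_mul])
  exact congrFun h1 j

theorem NN_fix (D : J → E →ₗ[F] E) (S : Finset J) (B : J → J → F) {w : J → E} (h : NN D S B w ≠ 0) :
    ∀ i ∈ S, Er D (HG S B 0) w i = 0 := by
  intro i hi
  obtain ⟨r, hr⟩ := NN_row h i
  rw [← hr]
  exact Er_S D S B w _ _ hi

/-- the number of the families in a stable subspace which satisfy the fixed rows -/
theorem countC (D : J → E →ₗ[F] E) (S : Finset J) (B : J → J → F) {L : Submodule F E}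
    (inj1 : ∀ v : J → F, (∀ i, i ∉ S → v i = 0) → (∀ j, j ∉ S → ∑ i, v i * B i j = 0) → v = 0)
    (hD : ∀ i, ∀ v ∈ L, D i v ∈ L) :
    (univ.filter fun w : J → E => (∀ j, w j ∈ L) ∧ ∀ i ∈ S, Er D (HG S B 0) w i = 0).card =
      Fintype.card F ^ (Module.finrank F L * Sᶜ.card) := by
  have hfin : Module.Finite F E := fin_inst
  haveI : Fintype L := Fintype.ofFinite _
  obtain ⟨DL, hDL⟩ : ∃ DL : J → L →ₗ[F] L, ∀ i v, ((DL i v : L) : E) = D i v :=
    ⟨fun i => (D i).restrict (hD i), fun i v => rfl⟩
  have hEr : ∀ (w : J → L) (i : J), ((Er DL (HG S B 0) w i : L) : E) = Er D (HG S B 0) (fun j => (w j : E)) i := by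
    intro w i
    unfold Er
    rw [Submodule.coe_add, Submodule.coe_sum, hDL]
    rfl
  have h1 : (univ.filter fun w : J → E => (∀ j, w j ∈ L) ∧ ∀ i ∈ S, Er D (HG S B 0) w i = 0).card =
      Nat.card (LinearMap.ker (Th DL S B)) := by
    rw [← Fintype.card_subtype, ← Nat.card_eq_fintype_card]
    refine Nat.card_congr ⟨fun w => ⟨fun j => ⟨w.1 j, w.2.1 j⟩, ?_⟩, fun w => ⟨fun j => w.1 j, fun j => (w.1 j).2, ?_⟩,
      fun w => rfl, fun w => rfl⟩
    · rw [LinearMap.mem_ker]
      funext κ
      show Er DL (HG S B 0) _ κ = 0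
      refine Subtype.ext ?_
      rw [hEr]
      exact w.2.2 κ κ.2
    · intro i hi
      have h2 := congrFun (LinearMap.mem_ker.1 w.2) ⟨i, hi⟩
      have h3 : Er DL (HG S B 0) w.1 i = 0 := h2
      rw [← hEr, h3]
      rfl
  rw [h1, card_mod (F := F)]
  congr 1
  have h2 := LinearMap.finrank_range_add_finrank_ker (Th DL S B)
  rw [Th_surj DL S B inj1, finrank_top] at h2
  have h3 : Module.finrank F (J → L) = Fintype.card J * Module.finrank F L := by
    rw [Module.finrank_pi_fintype]
    simp
  have h4 : Module.finrank F (S → L) = S.card * Module.finrank F L := by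
    rw [Module.finrank_pi_fintype]
    simp
  have h5 : S.card + Sᶜ.card = Fintype.card J := card_add_card_compl S
  rw [h3, h4, ← h5, add_mul] at h2
  rw [mul_comm (Module.finrank F L)]
  omega

/-- families for which all but one of the random vectors are in a proper subspace -/
theorem countB (S : Finset J) {r : ℕ} (hr : Module.finrank F E = r + 1) :
    (univ.filter fun w : J → E => ∃ i ∈ (Sᶜ : Finset J), SQ F S w i ≠ ⊤).card ≤
      Sᶜ.card * Fintype.card F ^ ((r + 1) * r + (r * (Sᶜ.card - 1) + (r + 1) * (1 + S.card))) := by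
  have hfin : Module.Finite F E := fin_inst
  have h1 : (univ.filter fun w : J → E => ∃ i ∈ (Sᶜ : Finset J), SQ F S w i ≠ ⊤) ⊆
      (Sᶜ ×ˢ (univ : Finset (Fin r → E))).biUnion fun p =>
        Fintype.piFinset fun j => if j ∈ Sᶜ.erase p.1 then spn (F := F) p.2 else univ := by
    intro w hw
    rw [mem_filter] at hw
    obtain ⟨-, i, hi, hi2⟩ := hw
    have hlt := Submodule.finrank_lt hi2
    rw [hr] at hlt
    obtain ⟨u, hu⟩ := exists_gens (SQ F S w i) (by omega : Module.finrank F (SQ F S w i) ≤ r)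
    rw [mem_biUnion]
    refine ⟨(i, u), mem_product.2 ⟨hi, mem_univ _⟩, ?_⟩
    rw [Fintype.mem_piFinset]
    intro j
    by_cases hj : j ∈ Sᶜ.erase i
    · rw [if_pos hj, mem_spn, hu]
      rw [mem_erase, mem_compl] at hj
      exact mem_SQ hj.2 hj.1
    · rw [if_neg hj]
      exact mem_univ _
  refine (card_le_card h1).trans (card_biUnion_le.trans ?_)
  have h2 : ∀ p ∈ Sᶜ ×ˢ (univ : Finset (Fin r → E)),
      (Fintype.piFinset fun j : J => if j ∈ Sᶜ.erase p.1 then spn (F := F) p.2 else univ).card ≤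
      Fintype.card F ^ (r * (Sᶜ.card - 1) + (r + 1) * (1 + S.card)) := by
    intro p hp
    rw [mem_product] at hp
    rw [Fintype.card_piFinset]
    have e2 : ∏ j : J, (if j ∈ Sᶜ.erase p.1 then spn (F := F) p.2 else univ : Finset E).card ≤
        ∏ j : J, if j ∈ Sᶜ.erase p.1 then Fintype.card F ^ r else
          Fintype.card F ^ (r + 1) := by
      refine Finset.prod_le_prod (fun _ _ => Nat.zero_le _) fun j _ => ?_
      by_cases hj : j ∈ Sᶜ.erase p.1
      · rw [if_pos hj, if_pos hj]
        exact card_spn _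
      · rw [if_neg hj, if_neg hj, card_univ, card_E (F := F) (E := E), hr]
    refine e2.trans (le_of_eq ?_)
    rw [prod_ite, prod_const, prod_const, ← pow_mul, ← pow_mul, ← pow_add]
    have e3 : (univ.filter fun j => j ∈ Sᶜ.erase p.1) = Sᶜ.erase p.1 := by
      ext j
      simp
    have e4 : (univ.filter fun j => ¬ j ∈ Sᶜ.erase p.1) = (Sᶜ.erase p.1)ᶜ := by
      ext j
      simp only [mem_filter, mem_univ, true_and, mem_compl]
    rw [e3, e4, card_compl, card_erase_of_mem hp.1]
    congr 2
    have h5 : S.card + Sᶜ.card = Fintype.card J := card_add_card_compl S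
    have h6 : 0 < Sᶜ.card := card_pos.2 ⟨p.1, hp.1⟩
    congr 1
    omega
  refine (sum_le_sum h2).trans (le_of_eq ?_)
  rw [sum_const, card_product, card_univ, Fintype.card_fun, card_E (F := F) (E := E), Fintype.card_fin,
    smul_eq_mul, mul_assoc, ← pow_mul, ← pow_add, hr]

/-- the families in a subspace which have coloops or a smaller span -/
theorem countBad (S : Finset J) (L : Submodule F E) (hS : (Sᶜ : Finset J).Nonempty) {r : ℕ}
    (hr : Module.finrank F L = r + 1) :
    (univ.filter fun w : J → E => (∀ j, w j ∈ L) ∧ ¬ (SP F S w = L ∧ col F S w = ∅)).card ≤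
      Sᶜ.card * Fintype.card F ^ ((r + 1) * r + (r * (Sᶜ.card - 1) + (r + 1) * (1 + S.card))) := by
  haveI : Fintype L := Fintype.ofFinite _
  refine le_trans ?_ (countB (F := F) (E := L) S hr)
  have hmap : ∀ (w : J → L) (i : J), (SQ F S w i).map L.subtype = SQ F S (fun j => (w j : E)) i := by
    intro w i
    unfold SQ
    rw [Submodule.map_span, ← Set.image_comp]
    rfl
  refine card_le_card_of_injOn (fun w j => if h : w j ∈ L then (⟨w j, h⟩ : L) else 0) ?_ ?_
  · intro w hw
    rw [mem_coe, mem_filter] at hw ⊢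
    obtain ⟨-, h1, h2⟩ := hw
    refine ⟨mem_univ _, ?_⟩
    by_contra hcon
    push Not at hcon
    apply h2
    obtain ⟨w', hw'⟩ : ∃ w' : J → L, w' = fun j => if h : w j ∈ L then (⟨w j, h⟩ : L) else 0 := ⟨_, rfl⟩
    have hww : (fun j => (w' j : E)) = w := by
      funext j
      rw [hw']
      show ((if h : w j ∈ L then (⟨w j, h⟩ : L) else 0 : L) : E) = w j
      rw [dif_pos (h1 j)]
    have h3 : ∀ i ∈ (Sᶜ : Finset J), SQ F S w i = L := by
      intro i hi
      rw [← hww, ← hmap, hw', hcon i hi, Submodule.map_top, Submodule.range_subtype]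
    obtain ⟨i0, hi0⟩ := hS
    constructor
    · apply le_antisymm
      · exact SP_le_of fun j _ => h1 j
      · calc L = SQ F S w i0 := (h3 i0 hi0).symm
          _ ≤ SP F S w := SQ_le S w i0
    · rw [eq_empty_iff_forall_notMem]
      intro i hi
      unfold col at hi
      rw [mem_filter] at hi
      apply hi.2
      rw [h3 i hi.1]
      exact h1 i
  · intro w hw w' hw' h
    rw [mem_coe, mem_filter] at hw hw'
    funext j
    have h1 := congrArg Subtype.val (congrFun h j)
    beta_reduce at h1
    rw [dif_pos (hw.2.1 j), dif_pos (hw'.2.1 j)] at h1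
    exact h1

/-- families whose span is not stable -/
theorem count3 (D : J → E →ₗ[F] E) (S : Finset J) (B : J → J → F) {r m : ℕ}
    (hr : 1 ≤ r) (St : Submodule F E → Prop)
    (hm : ∀ L : Submodule F E, ¬ St L → m ≤ (Sᶜ.filter fun i => ¬ ∀ v ∈ L, D i v ∈ L).card) :
    (univ.filter fun w : J → E => NN D S B w ≠ 0 ∧ ¬ St (SP F S w) ∧ Module.finrank F (SP F S w) = r).card *
      Fintype.card F ^ m ≤
      Fintype.card F ^ (Module.finrank F E * r + (Module.finrank F E * S.card + r * Sᶜ.card)) := by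
  have hfin : Module.Finite F E := fin_inst
  obtain ⟨UU, hUU⟩ : ∃ UU : Finset (Fin r → E), UU = univ.filter fun u : Fin r → E =>
    ¬ St (Submodule.span F (Set.range u)) := ⟨_, rfl⟩
  have h1 : (univ.filter fun w : J → E => NN D S B w ≠ 0 ∧ ¬ St (SP F S w) ∧
      Module.finrank F (SP F S w) = r) ⊆ UU.biUnion fun u =>
        univ.filter fun w : J → E => NN D S B w ≠ 0 ∧
          SP F S w = Submodule.span F (Set.range u) := by
    intro w hw
    rw [mem_filter] at hw
    obtain ⟨-, hw1, hw3, hw2⟩ := hw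
    obtain ⟨u, hu⟩ := exists_gens (SP F S w) hw2.le
    rw [mem_biUnion]
    refine ⟨u, ?_, ?_⟩
    · rw [hUU, mem_filter]
      refine ⟨mem_univ _, ?_⟩
      rw [hu]
      exact hw3
    · rw [mem_filter]
      exact ⟨mem_univ _, hw1, hu.symm⟩
  have h2 := (card_le_card h1).trans card_biUnion_le
  calc _ ≤ (∑ u ∈ UU, (univ.filter fun w : J → E => NN D S B w ≠ 0 ∧
          SP F S w = Submodule.span F (Set.range u)).card) * Fintype.card F ^ m :=
        Nat.mul_le_mul_right _ h2
    _ ≤ ∑ u ∈ UU, Fintype.card F ^ (Module.finrank F E * S.card + r * Sᶜ.card) := by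
        rw [sum_mul]
        refine sum_le_sum fun u hu => ?_
        rw [hUU, mem_filter] at hu
        exact count2u D S B hr u (hm _ hu.2)
    _ ≤ ∑ u : Fin r → E, Fintype.card F ^ (Module.finrank F E * S.card + r * Sᶜ.card) :=
        sum_le_sum_of_subset (subset_univ _)
    _ = _ := by
        rw [sum_const, card_univ, Fintype.card_fun, card_E (F := F) (E := E), Fintype.card_fin,
          smul_eq_mul, ← pow_mul, ← pow_add]

/-- the number of the subspaces -/
theorem card_sub (LL : Finset (Submodule F E)) :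
    LL.card ≤ Fintype.card F ^ (Module.finrank F E * Module.finrank F E) := by
  have hfin : Module.Finite F E := fin_inst
  have h1 : LL ⊆ (univ : Finset (Fin (Module.finrank F E) → E)).image fun u => Submodule.span F (Set.range u) := by
    intro L _
    rw [mem_image]
    obtain ⟨u, hu⟩ := exists_gens L (Submodule.finrank_le L)
    exact ⟨u, mem_univ _, hu⟩
  refine (card_le_card h1).trans (card_image_le.trans (le_of_eq ?_))
  rw [card_univ, Fintype.card_fun, card_E (F := F) (E := E), Fintype.card_fin, ← pow_mul]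

end abs

/-- the numerical inequality -/
theorem nz {q l K a : ℕ} (hq : 2 ≤ q) (h : K + 2 + l / 4 + a ≤ l) : 2 ^ K * l * q ^ a ≤ q ^ l := by
  have h1 : l ≤ 2 ^ (2 + l / 4) := by
    have h2 : l < 4 * (l / 4 + 1) := Nat.lt_mul_div_succ l (by norm_num)
    have h3 : l / 4 + 1 ≤ 2 ^ (l / 4) := Nat.lt_two_pow_self
    calc l ≤ 4 * (l / 4 + 1) := h2.le
      _ ≤ 4 * 2 ^ (l / 4) := Nat.mul_le_mul_left _ h3
      _ = _ := by rw [pow_add]; norm_num
  calc 2 ^ K * l * q ^ a ≤ 2 ^ K * 2 ^ (2 + l / 4) * q ^ a :=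
        Nat.mul_le_mul_right _ (Nat.mul_le_mul_left _ h1)
    _ = 2 ^ (K + (2 + l / 4)) * q ^ a := by rw [← pow_add]
    _ ≤ q ^ (K + (2 + l / 4)) * q ^ a := Nat.mul_le_mul_right _ (Nat.pow_le_pow_left hq _)
    _ = q ^ (K + (2 + l / 4) + a) := (pow_add _ _ _).symm
    _ ≤ q ^ l := Nat.pow_le_pow_right (by omega) (by omega)

end Pool.Agent.Q68.GL.KLG
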