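import Pool.Agent.Q68.GL.KLGa

/-!
# Project GL (helper269), job KLG, abstract theorem (helper68): two-sided estimate of the mean number of the solutions for
random matrices without symmetry
-/

set_option autoImplicit false
set_option linter.all false

open scoped Classical
open Finset

namespace Pool.Agent.Q68.GL.KLG

open Pool.Agent.Q269.GR (F2 cf ts HU HG)
open Pool.Agent.Q241.GJ (card_mod exists_gens spn mem_spn card_spn)
open Pool.Agent.Q241.GJ.LAG

theorem nz2 {q l K m s r c : ℕ} (hq : 2 ≤ q) (hr : r < m)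
    (h : K + 2 + l / 4 + (2 * m * m + m + m * s) ≤ l)
    (hc : c ≤ l * q ^ (m * r + (r * (l - 1) + m * (1 + s)))) : 2 ^ K * c * q ^ m ≤ q ^ ((r + 1) * l) := by
  have hl1 : 1 ≤ l := by omega
  obtain ⟨l1, hl1'⟩ : ∃ l1, l = l1 + 1 := ⟨l - 1, by omega⟩
  calc 2 ^ K * c * q ^ m
      ≤ 2 ^ K * (l * q ^ (m * r + (r * (l - 1) + m * (1 + s)))) * q ^ m :=
        Nat.mul_le_mul_right _ (Nat.mul_le_mul_left _ hc)
    _ = 2 ^ K * l * q ^ (m * r + (r * (l - 1) + m * (1 + s)) + m) := by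
        rw [pow_add _ _ m]
        ring
    _ ≤ 2 ^ K * l * q ^ ((2 * m * m + m + m * s) + r * l) := by
        refine Nat.mul_le_mul_left _ (Nat.pow_le_pow_right (by omega) ?_)
        rw [hl1']
        have e6 : l1 + 1 - 1 = l1 := by omega
        rw [e6]
        obtain ⟨m1, hm1'⟩ : ∃ m1, m = m1 + 1 := ⟨m - 1, by omega⟩
        have e7 : r ≤ m1 := by omega
        rw [hm1']
        nlinarith [Nat.mul_le_mul e7 e7, Nat.mul_le_mul_left m1 e7]
    _ = (2 ^ K * l * q ^ (2 * m * m + m + m * s)) * q ^ (r * l) := by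
        rw [pow_add]
        ring
    _ ≤ q ^ l * q ^ (r * l) := Nat.mul_le_mul_right _ (nz hq h)
    _ = q ^ ((r + 1) * l) := by
        rw [← pow_add]
        congr 1
        ring

theorem nz3 {q l K m s r c : ℕ} (hq : 2 ≤ q) (hr : r < m)
    (h : K + 2 + l / 4 + (2 * m * m + m + m * s) ≤ l)
    (hc : c ≤ l * q ^ ((r + 1) * r + (r * (l - 1) + (r + 1) * (1 + s)))) :
    2 ^ K * c * q ^ (m * m) ≤ q ^ ((r + 1) * l) := by
  have hl1 : 1 ≤ l := by omega
  obtain ⟨l1, hl1'⟩ : ∃ l1, l = l1 + 1 := ⟨l - 1, by omega⟩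
  calc 2 ^ K * c * q ^ (m * m)
      ≤ 2 ^ K * (l * q ^ ((r + 1) * r + (r * (l - 1) + (r + 1) * (1 + s)))) * q ^ (m * m) :=
        Nat.mul_le_mul_right _ (Nat.mul_le_mul_left _ hc)
    _ = 2 ^ K * l * q ^ ((r + 1) * r + (r * (l - 1) + (r + 1) * (1 + s)) + m * m) := by
        rw [pow_add _ _ (m * m)]
        ring
    _ ≤ 2 ^ K * l * q ^ ((2 * m * m + m + m * s) + r * l) := by
        refine Nat.mul_le_mul_left _ (Nat.pow_le_pow_right (by omega) ?_)
        rw [hl1']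
        have e6 : l1 + 1 - 1 = l1 := by omega
        rw [e6]
        obtain ⟨m1, hm1'⟩ : ∃ m1, m = m1 + 1 := ⟨m - 1, by omega⟩
        have e7 : r ≤ m1 := by omega
        have e8 : r * s ≤ m1 * s := Nat.mul_le_mul_right _ e7
        rw [hm1']
        nlinarith [Nat.mul_le_mul e7 e7, Nat.mul_le_mul_left m1 e7]
    _ = (2 ^ K * l * q ^ (2 * m * m + m + m * s)) * q ^ (r * l) := by
        rw [pow_add]
        ring
    _ ≤ q ^ l * q ^ (r * l) := Nat.mul_le_mul_right _ (nz hq h)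
    _ = q ^ ((r + 1) * l) := by
        rw [← pow_add]
        congr 1
        ring

theorem nz4 {q l K m s r c X : ℕ} (hq : 2 ≤ q) (hr : r < m) (h : K + m * m + m * s + 1 ≤ X)
    (hc : c * q ^ X ≤ q ^ (m * (r + 1) + (m * s + (r + 1) * l))) : 2 ^ K * c ≤ q ^ ((r + 1) * l) := by
  have f1 : 2 ^ K * c * q ^ X ≤ q ^ ((r + 1) * l) * q ^ X := by
    calc 2 ^ K * c * q ^ X = 2 ^ K * (c * q ^ X) := by ring
      _ ≤ q ^ K * q ^ (m * (r + 1) + (m * s + (r + 1) * l)) :=
          Nat.mul_le_mul (Nat.pow_le_pow_left hq _) hc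
      _ = q ^ (K + (m * (r + 1) + (m * s + (r + 1) * l))) := (pow_add _ _ _).symm
      _ ≤ q ^ ((r + 1) * l + X) := by
          refine Nat.pow_le_pow_right (by omega) ?_
          have : m * (r + 1) ≤ m * m := Nat.mul_le_mul_left _ hr
          omega
      _ = _ := pow_add _ _ _
  exact Nat.le_of_mul_le_mul_right f1 (by positivity)

section abs

variable {F : Type} [Field F] [Fintype F] {E : Type} [AddCommGroup E] [Module F E] [Fintype E]
variable {J : Type} [Fintype J]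

theorem col_zero (S : Finset J) (w : J → E) (h : Module.finrank F (SP F S w) = 0) : col F S w = ∅ := by
  have hfin : Module.Finite F E := fin_inst
  have h1 := Submodule.finrank_eq_zero.1 h
  rw [eq_empty_iff_forall_notMem]
  intro i hi
  unfold col at hi
  rw [mem_filter] at hi
  apply hi.2
  have h2 : w i ∈ SP F S w := mem_SP (mem_compl.1 hi.1)
  rw [h1, Submodule.mem_bot] at h2
  rw [h2]
  exact Submodule.zero_mem _

/-- the contribution of a stable subspace -/
theorem stab_part {m K : ℕ} (hq2 : 2 ≤ Fintype.card F) (hmE : Module.finrank F E = m)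
    (D : J → E →ₗ[F] E) (S : Finset J) (B : J → J → F)
    (inj1 : ∀ v : J → F, (∀ i, i ∉ S → v i = 0) → (∀ j, j ∉ S → ∑ i, v i * B i j = 0) → v = 0)
    (inj2 : ∀ v : J → F, (∀ i, i ∉ S → v i = 0) → (∀ j, j ∉ S → ∑ i, v i * B j i = 0) → v = 0)
    (hl : K + 2 + (Sᶜ : Finset J).card / 4 + (2 * m * m + m + m * S.card) ≤ (Sᶜ : Finset J).card)
    {L : Submodule F E} (hD : ∀ i, ∀ v ∈ L, D i v ∈ L) :
    |∑ w ∈ univ.filter (fun w : J → E => SP F S w = L ∧ col F S w = ∅), (NN D S B w : ℝ) -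
      (((Fintype.card F ^ Fintype.card J) ^ Fintype.card J : ℕ) : ℝ)| ≤
      (((Fintype.card F ^ Fintype.card J) ^ Fintype.card J : ℕ) : ℝ) /
        (2 ^ K * (Fintype.card F : ℝ) ^ (m * m)) := by
  have hfin : Module.Finite F E := fin_inst
  obtain ⟨q, hq⟩ : ∃ q : ℕ, q = Fintype.card F := ⟨_, rfl⟩
  obtain ⟨l, hl'⟩ : ∃ l : ℕ, l = (Sᶜ : Finset J).card := ⟨_, rfl⟩
  obtain ⟨ρ, hρ⟩ : ∃ ρ : ℕ, ρ = Module.finrank F L := ⟨_, rfl⟩
  obtain ⟨NF, hNF⟩ : ∃ NF : ℕ, NF = (Fintype.card F ^ Fintype.card J) ^ Fintype.card J := ⟨_, rfl⟩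
  rw [← hNF, ← hq]
  rw [← hl'] at hl
  rw [← hq] at hq2
  have hNF0 : (0 : ℝ) ≤ NF := Nat.cast_nonneg _
  have hqr : (0 : ℝ) < q := by exact_mod_cast (by omega : 0 < q)
  obtain ⟨C, hC⟩ : ∃ C : Finset (J → E), C =
    univ.filter fun w : J → E => (∀ j, w j ∈ L) ∧ ∀ i ∈ S, Er D (HG S B 0) w i = 0 := ⟨_, rfl⟩
  have hCc : C.card = q ^ (ρ * l) := by
    rw [hC, hq, hρ, hl']
    exact countC D S B inj1 hD
  have hsplit : (C.filter fun w => SP F S w = L ∧ col F S w = ∅).card +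
      (C.filter fun w => ¬ (SP F S w = L ∧ col F S w = ∅)).card = C.card :=
    card_filter_add_card_filter_not _
  have hbad : 2 ^ K * (C.filter fun w => ¬ (SP F S w = L ∧ col F S w = ∅)).card * q ^ (m * m) ≤
      q ^ (ρ * l) := by
    have hSne : (Sᶜ : Finset J).Nonempty := by
      rw [← card_pos, ← hl']
      omega
    rcases Nat.eq_zero_or_pos ρ with h0 | h0
    · have hL0 : L = ⊥ := by
        rw [← Submodule.finrank_eq_zero (R := F), ← hρ, h0]
      have : (C.filter fun w => ¬ (SP F S w = L ∧ col F S w = ∅)) = ∅ := by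
        rw [filter_eq_empty_iff]
        intro w hw
        rw [hC, mem_filter] at hw
        rw [not_not]
        have h1 : SP F S w = L := by
          rw [hL0, eq_bot_iff]
          refine SP_le_of fun j _ => ?_
          rw [← hL0]
          exact hw.2.1 j
        refine ⟨h1, col_zero S w ?_⟩
        rw [h1, ← hρ, h0]
      rw [this, card_empty, mul_zero, zero_mul]
      exact Nat.zero_le _
    · obtain ⟨r, hr⟩ : ∃ r, ρ = r + 1 := ⟨ρ - 1, by omega⟩
      have hρm : ρ ≤ m := by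
        rw [hρ, ← hmE]
        exact Submodule.finrank_le _
      have h1 := countBad S L hSne (hρ ▸ hr : Module.finrank F L = r + 1)
      rw [← hq, ← hl'] at h1
      rw [hr]
      refine nz3 hq2 (by omega) hl (le_trans (card_le_card ?_) h1)
      intro w hw
      rw [mem_filter, hC, mem_filter] at hw
      rw [mem_filter]
      exact ⟨mem_univ _, hw.1.2.1, hw.2⟩
  have hsum : ∑ w ∈ univ.filter (fun w : J → E => SP F S w = L ∧ col F S w = ∅), (NN D S B w : ℝ) =
      (C.filter fun w => SP F S w = L ∧ col F S w = ∅).card * (NF / (q : ℝ) ^ (ρ * l)) := by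
    rw [← nsmul_eq_mul, ← sum_const]
    symm
    refine sum_subset_zero_on_sdiff ?_ ?_ ?_
    · intro w hw
      rw [mem_filter] at hw ⊢
      exact ⟨mem_univ _, hw.2⟩
    · intro w hw
      rw [mem_sdiff, mem_filter, mem_filter] at hw
      by_contra h0
      have h1 : NN D S B w ≠ 0 := fun h => h0 (by rw [h, Nat.cast_zero])
      apply hw.2
      refine ⟨?_, hw.1.2⟩
      rw [hC, mem_filter]
      exact ⟨mem_univ _, NN_mem D S B inj2 hD hw.1.2.1 h1, NN_fix D S B h1⟩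
    · intro w hw
      rw [mem_filter, hC, mem_filter] at hw
      have h1 := NN_stab D S B hD hw.1.2.1 hw.1.2.2 hw.2.1 hw.2.2
      rw [← hNF, ← hq, ← hρ, ← hl'] at h1
      rw [div_eq_iff (by positivity)]
      exact_mod_cast h1.symm
  obtain ⟨g, hg⟩ : ∃ g : ℕ, g = (C.filter fun w => SP F S w = L ∧ col F S w = ∅).card := ⟨_, rfl⟩
  obtain ⟨b, hb⟩ : ∃ b : ℕ, b = (C.filter fun w => ¬ (SP F S w = L ∧ col F S w = ∅)).card := ⟨_, rfl⟩
  rw [← hb] at hbad
  rw [← hb, ← hg, hCc] at hsplit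
  rw [hsum, ← hg]
  have hs2 : (g : ℝ) + b = (q : ℝ) ^ (ρ * l) := by exact_mod_cast hsplit
  have hb2 : (2 : ℝ) ^ K * b * (q : ℝ) ^ (m * m) ≤ (q : ℝ) ^ (ρ * l) := by exact_mod_cast hbad
  have hP : (0 : ℝ) < (q : ℝ) ^ (ρ * l) := by positivity
  have e1 : (g : ℝ) * (NF / (q : ℝ) ^ (ρ * l)) - NF = -(NF * (b / (q : ℝ) ^ (ρ * l))) := by
    have : (g : ℝ) = (q : ℝ) ^ (ρ * l) - b := by linarith
    rw [this]
    field_simp
    ring
  rw [e1, abs_neg, abs_of_nonneg (by positivity), mul_div_assoc', div_le_div_iff₀ hP (by positivity)]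
  calc (NF : ℝ) * b * (2 ^ K * (q : ℝ) ^ (m * m)) = NF * (2 ^ K * b * (q : ℝ) ^ (m * m)) := by ring
    _ ≤ NF * (q : ℝ) ^ (ρ * l) := mul_le_mul_of_nonneg_left hb2 hNF0

/-- the abstract theorem -/
theorem abs_two {m K : ℕ} (hq2 : 2 ≤ Fintype.card F) (hmE : Module.finrank F E = m)
    (D : J → E →ₗ[F] E) (S : Finset J) (B : J → J → F)
    (inj1 : ∀ v : J → F, (∀ i, i ∉ S → v i = 0) → (∀ j, j ∉ S → ∑ i, v i * B i j = 0) → v = 0)
    (inj2 : ∀ v : J → F, (∀ i, i ∉ S → v i = 0) → (∀ j, j ∉ S → ∑ i, v i * B j i = 0) → v = 0)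
    {R : ℕ}
    (hl : K + 2 + (Sᶜ : Finset J).card / 4 + (2 * m * m + m + m * S.card) ≤ (Sᶜ : Finset J).card)
    (hR : K + m * m + m * S.card + 1 ≤ R)
    (St : Submodule F E → Prop) (hst : ∀ L, St L → ∀ i, ∀ v ∈ L, D i v ∈ L)
    (hgen : ∀ L : Submodule F E, ¬ St L → R ≤ (Sᶜ.filter fun i => ¬ ∀ v ∈ L, D i v ∈ L).card)
    (LL : Finset (Submodule F E)) (hLL : ∀ L, L ∈ LL ↔ St L) :
    |∑ w : J → E, (NN D S B w : ℝ) -
      (LL.card : ℝ) * (((Fintype.card F ^ Fintype.card J) ^ Fintype.card J : ℕ) : ℝ)| ≤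
      (2 * m + 1) / 2 ^ K * (((Fintype.card F ^ Fintype.card J) ^ Fintype.card J : ℕ) : ℝ) := by
  have hfin : Module.Finite F E := fin_inst
  have hstab := fun (L : Submodule F E) (hL : St L) =>
    stab_part (K := K) hq2 hmE D S B inj1 inj2 hl (L := L) (hst L hL)
  have hcs := card_sub LL
  obtain ⟨q, hq⟩ : ∃ q : ℕ, q = Fintype.card F := ⟨_, rfl⟩
  obtain ⟨l, hl'⟩ : ∃ l : ℕ, l = (Sᶜ : Finset J).card := ⟨_, rfl⟩
  obtain ⟨s, hs⟩ : ∃ s : ℕ, s = S.card := ⟨_, rfl⟩
  obtain ⟨NF, hNF⟩ : ∃ NF : ℕ, NF = (Fintype.card F ^ Fintype.card J) ^ Fintype.card J := ⟨_, rfl⟩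
  rw [hmE, ← hq] at hcs
  rw [← hNF, ← hq] at hstab
  rw [← hNF]
  rw [← hl', ← hs] at hl
  rw [← hs] at hR
  rw [← hq] at hq2
  have hNF0 : (0 : ℝ) ≤ NF := Nat.cast_nonneg _
  have hqr : (0 : ℝ) < q := by exact_mod_cast (by omega : 0 < q)
  obtain ⟨g, hg⟩ : ∃ g : (J → E) → ℝ, ∀ w, g w = (NN D S B w : ℝ) := ⟨_, fun _ => rfl⟩
  have hnn : ∀ w, 0 ≤ g w := fun w => by rw [hg]; exact Nat.cast_nonneg _
  obtain ⟨rho, hrho⟩ : ∃ rho : (J → E) → ℕ, ∀ w, rho w = Module.finrank F (SP F S w) :=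
    ⟨_, fun _ => rfl⟩
  have hrho_le : ∀ w, rho w ≤ m := by
    intro w
    rw [hrho, ← hmE]
    exact Submodule.finrank_le _
  have hSt0 : St ⊥ := by
    by_contra h
    have h1 := hgen ⊥ h
    rw [filter_false_of_mem, card_empty] at h1
    · omega
    · intro i _ h2
      apply h2
      intro v hv
      rw [Submodule.mem_bot] at hv
      rw [hv, map_zero]
      exact Submodule.zero_mem _
  -- coloops
  have hB : ∀ r ∈ range m, ∑ w ∈ univ.filter (fun w : J → E => rho w = r + 1 ∧ col F S w ≠ ∅),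
      g w ≤ NF / 2 ^ K := by
    intro r hr
    rw [mem_range] at hr
    have e1 : ∀ w ∈ univ.filter (fun w : J → E => rho w = r + 1 ∧ col F S w ≠ ∅),
        g w ≤ NF * (q : ℝ) ^ m / (q : ℝ) ^ ((r + 1) * l) := by
      intro w hw
      rw [mem_filter] at hw
      obtain ⟨-, hw1, hw2⟩ := hw
      rw [hrho] at hw1
      have e2 := NN_one D S B w
      rw [hw1, hmE, ← hNF, ← hq, ← hl'] at e2
      rw [le_div_iff₀ (by positivity), hg]
      exact_mod_cast e2
    refine (sum_le_card_nsmul _ _ _ e1).trans ?_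
    rw [nsmul_eq_mul]
    have e3 : (univ.filter (fun w : J → E => rho w = r + 1 ∧ col F S w ≠ ∅)).card ≤
        l * q ^ (m * r + (r * (l - 1) + m * (1 + s))) := by
      have := count1 (F := F) (E := E) S r
      rw [hmE, ← hq, ← hl', ← hs] at this
      simp only [hrho]
      exact this
    obtain ⟨c, hc⟩ : ∃ c : ℕ, c =
      (univ.filter (fun w : J → E => rho w = r + 1 ∧ col F S w ≠ ∅)).card := ⟨_, rfl⟩
    rw [← hc] at e3 ⊢
    have e5 := nz2 hq2 hr hl e3
    have e6 : (2 : ℝ) ^ K * c * (q : ℝ) ^ m ≤ (q : ℝ) ^ ((r + 1) * l) := by exact_mod_cast e5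
    rw [mul_div_assoc', div_le_div_iff₀ (by positivity) (by positivity)]
    calc (c : ℝ) * (NF * (q : ℝ) ^ m) * 2 ^ K = NF * (2 ^ K * c * (q : ℝ) ^ m) := by ring
      _ ≤ NF * (q : ℝ) ^ ((r + 1) * l) := mul_le_mul_of_nonneg_left e6 hNF0
  -- subspaces which are not stable
  have hC : ∀ r ∈ range m, ∑ w ∈ univ.filter (fun w : J → E => rho w = r + 1 ∧ NN D S B w ≠ 0 ∧
      ¬ St (SP F S w) ∧ col F S w = ∅), g w ≤ NF / 2 ^ K := by
    intro r hr
    rw [mem_range] at hr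
    have e1 : ∀ w ∈ univ.filter (fun w : J → E => rho w = r + 1 ∧ NN D S B w ≠ 0 ∧
        ¬ St (SP F S w) ∧ col F S w = ∅), g w ≤ NF / (q : ℝ) ^ ((r + 1) * l) := by
      intro w hw
      rw [mem_filter] at hw
      obtain ⟨-, hw1, -, -, hw2⟩ := hw
      rw [hrho] at hw1
      have e2 := NN_two D S B hw2
      rw [hw1, ← hNF, ← hq, ← hl'] at e2
      rw [le_div_iff₀ (by positivity), hg]
      exact_mod_cast e2
    refine (sum_le_card_nsmul _ _ _ e1).trans ?_
    rw [nsmul_eq_mul]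
    have e3 : (univ.filter (fun w : J → E => rho w = r + 1 ∧ NN D S B w ≠ 0 ∧
        ¬ St (SP F S w) ∧ col F S w = ∅)).card * q ^ R ≤
        q ^ (m * (r + 1) + (m * s + (r + 1) * l)) := by
      have := count3 D S B (r := r + 1) (m := R) (by omega) St hgen
      rw [hmE, ← hq, ← hl', ← hs] at this
      refine (Nat.mul_le_mul_right _ (card_le_card fun w hw => ?_)).trans this
      rw [mem_filter] at hw ⊢
      rw [hrho] at hw
      exact ⟨hw.1, hw.2.2.1, hw.2.2.2.1, hw.2.1⟩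
    obtain ⟨c, hc⟩ : ∃ c : ℕ, c = (univ.filter (fun w : J → E => rho w = r + 1 ∧ NN D S B w ≠ 0 ∧
        ¬ St (SP F S w) ∧ col F S w = ∅)).card := ⟨_, rfl⟩
    rw [← hc] at e3 ⊢
    have e5 := nz4 hq2 hr hR e3
    have e6 : (2 : ℝ) ^ K * c ≤ (q : ℝ) ^ ((r + 1) * l) := by exact_mod_cast e5
    rw [mul_div_assoc', div_le_div_iff₀ (by positivity) (by positivity)]
    calc (c : ℝ) * NF * 2 ^ K = NF * (2 ^ K * c) := by ring
      _ ≤ NF * (q : ℝ) ^ ((r + 1) * l) := mul_le_mul_of_nonneg_left e6 hNF0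
  -- stable subspaces
  have hE : |∑ L ∈ LL, ∑ w ∈ univ.filter (fun w : J → E => SP F S w = L ∧ col F S w = ∅), g w -
      (LL.card : ℝ) * NF| ≤ NF / 2 ^ K := by
    have h1 : (LL.card : ℝ) * NF = ∑ L ∈ LL, (NF : ℝ) := by rw [sum_const, nsmul_eq_mul]
    rw [h1, ← sum_sub_distrib]
    refine (abs_sum_le_sum_abs _ _).trans ?_
    have h2 : ∀ L ∈ LL, |∑ w ∈ univ.filter (fun w : J → E => SP F S w = L ∧ col F S w = ∅), g w -
        (NF : ℝ)| ≤ NF / (2 ^ K * (q : ℝ) ^ (m * m)) := by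
      intro L hL
      simp only [hg]
      exact hstab L ((hLL L).1 hL)
    refine (sum_le_sum h2).trans ?_
    rw [sum_const, nsmul_eq_mul]
    have h3 : (LL.card : ℝ) ≤ (q : ℝ) ^ (m * m) := by exact_mod_cast hcs
    calc (LL.card : ℝ) * (NF / (2 ^ K * (q : ℝ) ^ (m * m)))
        ≤ (q : ℝ) ^ (m * m) * (NF / (2 ^ K * (q : ℝ) ^ (m * m))) :=
          mul_le_mul_of_nonneg_right h3 (by positivity)
      _ = NF / 2 ^ K := by field_simp
  -- together
  have hs1 : ∑ w : J → E, g w = ∑ w ∈ univ.filter (fun w : J → E => col F S w ≠ ∅), g w +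
      ∑ w ∈ univ.filter (fun w : J → E => ¬ col F S w ≠ ∅), g w :=
    (sum_filter_add_sum_filter_not _ _ _).symm
  have hs2 : ∑ w ∈ univ.filter (fun w : J → E => ¬ col F S w ≠ ∅), g w =
      ∑ w ∈ (univ.filter (fun w : J → E => ¬ col F S w ≠ ∅)).filter (fun w => ¬ St (SP F S w)), g w +
      ∑ w ∈ (univ.filter (fun w : J → E => ¬ col F S w ≠ ∅)).filter (fun w => ¬ ¬ St (SP F S w)), g w :=
    (sum_filter_add_sum_filter_not _ _ _).symm
  have h3a : ∑ w ∈ univ.filter (fun w : J → E => col F S w ≠ ∅), g w ≤ m * (NF / 2 ^ K) := by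
    rw [← sum_fiberwise_of_maps_to (s := univ.filter (fun w : J → E => col F S w ≠ ∅)) (t := range m)
      (g := fun w => rho w - 1)]
    · have h4 : ∀ r ∈ range m, ∑ w ∈ (univ.filter (fun w : J → E => col F S w ≠ ∅)).filter
          (fun w => rho w - 1 = r), g w ≤ NF / 2 ^ K := by
        intro r hr
        refine le_trans (sum_le_sum_of_subset_of_nonneg ?_ fun w _ _ => hnn w) (hB r hr)
        intro w hw
        rw [mem_filter, mem_filter] at hw
        rw [mem_filter]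
        refine ⟨mem_univ _, ?_, hw.1.2⟩
        have h5 : rho w ≠ 0 := fun h => hw.1.2 (col_zero S w (by rw [← hrho, h]))
        omega
      refine (sum_le_sum h4).trans (le_of_eq ?_)
      rw [sum_const, card_range, nsmul_eq_mul]
    · intro w hw
      rw [mem_filter] at hw
      rw [mem_range]
      have h5 : rho w ≠ 0 := fun h => hw.2 (col_zero S w (by rw [← hrho, h]))
      have h6 := hrho_le w
      beta_reduce
      omega
  have h3b : ∑ w ∈ (univ.filter (fun w : J → E => ¬ col F S w ≠ ∅)).filter (fun w => ¬ St (SP F S w)), g w ≤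
      m * (NF / 2 ^ K) := by
    have hz : ∀ w : J → E, ¬ St (SP F S w) → rho w ≠ 0 := by
      intro w hw h
      rw [hrho] at h
      rw [Submodule.finrank_eq_zero.1 h] at hw
      exact hw hSt0
    rw [← sum_fiberwise_of_maps_to (s := (univ.filter (fun w : J → E => ¬ col F S w ≠ ∅)).filter
      (fun w => ¬ St (SP F S w))) (t := range m) (g := fun w => rho w - 1)]
    · have h4 : ∀ r ∈ range m, ∑ w ∈ ((univ.filter (fun w : J → E => ¬ col F S w ≠ ∅)).filter
          (fun w => ¬ St (SP F S w))).filter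
          (fun w => rho w - 1 = r), g w ≤ NF / 2 ^ K := by
        intro r hr
        refine le_trans ?_ (hC r hr)
        rw [← sum_filter_ne_zero]
        refine sum_le_sum_of_subset_of_nonneg ?_ fun w _ _ => hnn w
        intro w hw
        rw [mem_filter, mem_filter, mem_filter, mem_filter] at hw
        rw [mem_filter]
        obtain ⟨⟨⟨⟨-, h7⟩, h8⟩, h9⟩, h10⟩ := hw
        refine ⟨mem_univ _, ?_, ?_, h8, not_not.1 h7⟩
        · have h5 := hz w h8
          omega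
        · intro h
          apply h10
          rw [hg, h, Nat.cast_zero]
      refine (sum_le_sum h4).trans (le_of_eq ?_)
      rw [sum_const, card_range, nsmul_eq_mul]
    · intro w hw
      rw [mem_filter] at hw
      rw [mem_range]
      have h5 := hz w hw.2
      have h6 := hrho_le w
      beta_reduce
      omega
  have h3c : ∑ w ∈ (univ.filter (fun w : J → E => ¬ col F S w ≠ ∅)).filter (fun w => ¬ ¬ St (SP F S w)), g w =
      ∑ L ∈ LL, ∑ w ∈ univ.filter (fun w : J → E => SP F S w = L ∧ col F S w = ∅), g w := by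
    rw [← sum_fiberwise_of_maps_to (s := (univ.filter (fun w : J → E => ¬ col F S w ≠ ∅)).filter
      (fun w => ¬ ¬ St (SP F S w))) (t := LL) (g := fun w => SP F S w)]
    · refine sum_congr rfl fun L hL => sum_congr ?_ fun _ _ => rfl
      ext w
      rw [mem_filter, mem_filter, mem_filter, mem_filter]
      constructor
      · rintro ⟨⟨⟨-, h1⟩, h2⟩, h3⟩
        exact ⟨mem_univ _, h3, not_not.1 h1⟩
      · rintro ⟨-, h1, h2⟩
        refine ⟨⟨⟨mem_univ _, not_not.2 h2⟩, ?_⟩, h1⟩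
        rw [not_not, h1]
        exact (hLL L).1 hL
    · intro w hw
      rw [mem_filter] at hw
      exact (hLL _).2 (not_not.1 hw.2)
  have h4a : 0 ≤ ∑ w ∈ univ.filter (fun w : J → E => col F S w ≠ ∅), g w := sum_nonneg fun w _ => hnn w
  have h4b : 0 ≤ ∑ w ∈ (univ.filter (fun w : J → E => ¬ col F S w ≠ ∅)).filter
      (fun w => ¬ St (SP F S w)), g w := sum_nonneg fun w _ => hnn w
  have hfin2 : |∑ w : J → E, g w - (LL.card : ℝ) * NF| ≤ (2 * m + 1) / 2 ^ K * NF := by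
    rw [hs1, hs2, h3c]
    have h5 : (2 * m + 1 : ℝ) / 2 ^ K * NF = m * (NF / 2 ^ K) + m * (NF / 2 ^ K) + NF / 2 ^ K := by ring
    rw [h5]
    rw [abs_le] at hE ⊢
    constructor <;> linarith [hE.1, hE.2]
  simp only [hg] at hfin2
  exact hfin2

end abs

end Pool.Agent.Q68.GL.KLG
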